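import Mathlib

/-!
Zeros of harmonic polynomials `p(z) + conj (q(z))`: the basic definitions.
-/

namespace Pool.Agent.H.MP_cd3d06_an

open Polynomial ComplexConjugate

/-- The zero set in the complex plane of the harmonic polynomial `p(z) + conj (q(z))`. -/
def zeros (p q : ℂ[X]) : Set ℂ := {z : ℂ | p.eval z + conj (q.eval z) = 0}

/-- The lower bound proved for the maximal number of zeros: `n (m + 1)` when `n - m` is odd, and
`n m + 2 g ⌈n / (2 g)⌉` with `g = gcd ((n - m) / 2, n)` when `n - m` is even. -/
def lowerBound (n m : ℕ) : ℕ :=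
  if Odd (n - m) then n * (m + 1)
  else n * m + 2 * (Nat.gcd ((n - m) / 2) n * ((n / Nat.gcd ((n - m) / 2) n + 1) / 2))

end Pool.Agent.H.MP_cd3d06_an
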