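import Mathlib
import Pool.Agent.H.MP_cd3d06_an.Defs

/-!
Lower bound for the maximal number of zeros of harmonic polynomials.
-/

namespace Pool.Agent.H.MP_cd3d06_an

open Polynomial ComplexConjugate Set

/-- one root between two points of opposite sign -/
lemma root_between {f : ℝ → ℝ} (hf : Continuous f) {a b : ℝ} (hab : a < b) (h : f a * f b < 0) :
    ∃ r, a < r ∧ r < b ∧ f r = 0 := by
  have h0 : (0 : ℝ) ∈ f '' Ioo a b := by
    rcases lt_or_gt_of_ne (show f a ≠ 0 by intro h0; rw [h0, zero_mul] at h; exact lt_irrefl _ h) with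
      ha | ha
    · have hb : 0 < f b := by
        by_contra hb
        push Not at hb
        nlinarith
      exact intermediate_value_Ioo hab.le hf.continuousOn ⟨ha, hb⟩
    · have hb : f b < 0 := by
        by_contra hb
        push Not at hb
        nlinarith
      exact intermediate_value_Ioo' hab.le hf.continuousOn ⟨hb, ha⟩
  obtain ⟨r, ⟨h1, h2⟩, h3⟩ := h0
  exact ⟨r, h1, h2, h3⟩

/-- roots from sign changes -/
lemma roots_of_alternating {f : ℝ → ℝ} (hf : Continuous f) (x : ℕ → ℝ) (M : ℕ)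
    (hx : ∀ i < M, x i < x (i + 1)) (hs : ∀ i < M, f (x i) * f (x (i + 1)) < 0) :
    ∃ S : Finset ℝ, S.card = M ∧ (∀ r ∈ S, f r = 0) ∧ (∀ r ∈ S, x 0 < r ∧ r < x M) ∧
      x 0 ≤ x M := by
  induction M with
  | zero => exact ⟨∅, by simp⟩
  | succ M ih =>
    obtain ⟨S, hS1, hS2, hS3, hS4⟩ := ih (fun i hi => hx i (by omega)) (fun i hi => hs i (by omega))
    obtain ⟨r, hr1, hr2, hr3⟩ := root_between hf (hx M (by omega)) (hs M (by omega))
    have hrS : r ∉ S := by
      intro hr
      exact absurd (hS3 r hr).2 (not_lt.mpr hr1.le)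
    refine ⟨insert r S, ?_, ?_, ?_, ?_⟩
    · rw [Finset.card_insert_of_notMem hrS, hS1]
    · intro y hy
      rcases Finset.mem_insert.mp hy with rfl | hy
      · exact hr3
      · exact hS2 y hy
    · intro y hy
      rcases Finset.mem_insert.mp hy with rfl | hy
      · exact ⟨lt_of_le_of_lt hS4 hr1, hr2⟩
      · exact ⟨(hS3 y hy).1, lt_trans (hS3 y hy).2 (hx M (by omega))⟩
    · exact hS4.trans (hx M (by omega)).le

/-- point on the line with direction `θ` seen from `1` under the angle `θ + φ` -/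
noncomputable def rr (θ φ : ℝ) : ℝ := Real.cos θ + Real.sin θ * (Real.cos φ / Real.sin φ)

/-- real part of `e^{iα} (r e^{iθ} - 1)^m` -/
noncomputable def Qf (m : ℕ) (α θ r : ℝ) : ℝ :=
  (Complex.exp (α * Complex.I) * (r * Complex.exp (θ * Complex.I) - 1) ^ m).re

lemma Qf_continuous (m : ℕ) (α θ : ℝ) : Continuous (Qf m α θ) := by
  unfold Qf; fun_prop

lemma rr_eq {θ φ : ℝ} (hφ : Real.sin φ ≠ 0) :
    ((rr θ φ : ℝ) : ℂ) * Complex.exp (θ * Complex.I) - 1 =
      ((Real.sin θ / Real.sin φ : ℝ) : ℂ) * Complex.exp (((θ + φ : ℝ) : ℂ) * Complex.I) := by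
  have h1 : Real.sin φ * rr θ φ = Real.sin (θ + φ) := by
    unfold rr
    rw [Real.sin_add]
    field_simp
    ring
  apply Complex.ext
  · rw [Complex.sub_re, Complex.re_ofReal_mul, Complex.re_ofReal_mul, Complex.exp_ofReal_mul_I_re,
      Complex.exp_ofReal_mul_I_re, Complex.one_re]
    have h2 : Real.sin φ * (rr θ φ * Real.cos θ - 1) = Real.sin θ * Real.cos (θ + φ) := by
      have h3 : Real.sin φ = Real.sin (θ + φ) * Real.cos θ - Real.cos (θ + φ) * Real.sin θ := by
        rw [← Real.sin_sub]; congr 1; ring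
      calc Real.sin φ * (rr θ φ * Real.cos θ - 1) = (Real.sin φ * rr θ φ) * Real.cos θ - Real.sin φ := by
            ring
        _ = Real.sin (θ + φ) * Real.cos θ - Real.sin φ := by rw [h1]
        _ = _ := by rw [h3]; ring
    field_simp
    linarith
  · rw [Complex.sub_im, Complex.im_ofReal_mul, Complex.im_ofReal_mul, Complex.exp_ofReal_mul_I_im,
      Complex.exp_ofReal_mul_I_im, Complex.one_im]
    field_simp
    have : rr θ φ * Real.sin θ * Real.sin φ = Real.sin θ * (Real.sin φ * rr θ φ) := by ring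
    rw [h1] at this
    linarith

lemma Qf_rr (m : ℕ) (α : ℝ) {θ φ : ℝ} (hφ : Real.sin φ ≠ 0) :
    Qf m α θ (rr θ φ) = (Real.sin θ / Real.sin φ) ^ m * Real.cos (m * φ + (m * θ + α)) := by
  unfold Qf
  rw [rr_eq hφ, mul_pow, ← Complex.exp_nat_mul, ← mul_assoc, mul_comm (Complex.exp _), mul_assoc,
    ← Complex.exp_add, ← Complex.ofReal_pow, Complex.re_ofReal_mul]
  congr 1
  have : (α : ℂ) * Complex.I + (m : ℂ) * (((θ + φ : ℝ) : ℂ) * Complex.I) =
      ((m * φ + (m * θ + α) : ℝ) : ℂ) * Complex.I := by push_cast; ring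
  rw [this, Complex.exp_ofReal_mul_I_re]

lemma rr_anti {θ φ₁ φ₂ : ℝ} (hθ0 : 0 < θ) (hθ1 : θ < Real.pi) (h1 : 0 < φ₁) (h12 : φ₁ < φ₂)
    (h2 : φ₂ < Real.pi) : rr θ φ₂ < rr θ φ₁ := by
  have s0 : 0 < Real.sin θ := Real.sin_pos_of_pos_of_lt_pi hθ0 hθ1
  have s1 : 0 < Real.sin φ₁ := Real.sin_pos_of_pos_of_lt_pi h1 (by linarith)
  have s2 : 0 < Real.sin φ₂ := Real.sin_pos_of_pos_of_lt_pi (by linarith) h2
  have s3 : 0 < Real.sin (φ₂ - φ₁) := Real.sin_pos_of_pos_of_lt_pi (by linarith) (by linarith)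
  unfold rr
  have : Real.cos φ₂ / Real.sin φ₂ < Real.cos φ₁ / Real.sin φ₁ := by
    rw [div_lt_div_iff₀ s2 s1]
    rw [Real.sin_sub] at s3
    linarith
  have := mul_lt_mul_of_pos_left this s0
  linarith

lemma exists_psi (m : ℕ) (hm : 1 ≤ m) {β : ℝ} (hβ : Real.cos β ≠ 0) :
    ∃ ψ : ℝ, 0 < ψ ∧ ψ < Real.pi / (2 * m) ∧ 0 < Real.cos (m * ψ + β) * Real.cos β ∧
      0 < Real.cos (β - m * ψ) * Real.cos β := by
  have hm' : (0 : ℝ) < m := by exact_mod_cast hm
  have hβ2 : 0 < Real.cos β * Real.cos β := mul_self_pos.mpr hβ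
  have h1 : ∀ᶠ ψ in nhds (0 : ℝ), 0 < Real.cos (m * ψ + β) * Real.cos β := by
    have hc : Continuous fun ψ : ℝ => Real.cos (m * ψ + β) * Real.cos β := by fun_prop
    apply hc.continuousAt.eventually (lt_mem_nhds _)
    simpa using hβ2
  have h2 : ∀ᶠ ψ in nhds (0 : ℝ), 0 < Real.cos (β - m * ψ) * Real.cos β := by
    have hc : Continuous fun ψ : ℝ => Real.cos (β - m * ψ) * Real.cos β := by fun_prop
    apply hc.continuousAt.eventually (lt_mem_nhds _)
    simpa using hβ2
  have h3 : ∀ᶠ ψ in nhds (0 : ℝ), ψ < Real.pi / (2 * m) := gt_mem_nhds (by positivity)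
  have h4 : ∀ᶠ ψ in nhdsWithin (0 : ℝ) (Ioi 0), 0 < ψ := eventually_mem_nhdsWithin
  obtain ⟨ψ, a, b, c, d⟩ := (((h1.filter_mono nhdsWithin_le_nhds).and
    ((h2.filter_mono nhdsWithin_le_nhds).and
    ((h3.filter_mono nhdsWithin_le_nhds).and h4)))).exists
  exact ⟨ψ, d, c, a, b⟩

/-- test points -/
lemma exists_points (m : ℕ) (hm : 1 ≤ m) {α θ : ℝ} (hθ0 : 0 < θ) (hθ1 : θ < Real.pi)
    (hβ : Real.cos (m * θ + α) ≠ 0) :
    ∃ x : ℕ → ℝ, (∀ i < m, x i < x (i + 1)) ∧
      ∀ i ≤ m, 0 < Qf m α θ (x i) * ((-1) ^ (m - i) * Real.cos (m * θ + α)) := by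
  obtain ⟨ψ, hψ0, hψ1, hψ2, hψ3⟩ := exists_psi m hm hβ
  have hm' : (1 : ℝ) ≤ m := by exact_mod_cast hm
  have hpi := Real.pi_pos
  have hψ4 : ψ * (2 * m) < Real.pi := by
    rwa [lt_div_iff₀ (by positivity)] at hψ1
  set φ : ℕ → ℝ := fun i => if i = 0 then ψ else if i = m then Real.pi - ψ else i * (Real.pi / m)
    with hφ
  have hφpos : ∀ i ≤ m, 0 < φ i ∧ φ i < Real.pi := by
    intro i hi
    simp only [hφ]
    split_ifs with h1 h2
    · constructor
      · exact hψ0
      · nlinarith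
    · constructor
      · nlinarith
      · linarith
    · have hi' : (1 : ℝ) ≤ i := by exact_mod_cast Nat.one_le_iff_ne_zero.mpr h1
      have him : (i : ℝ) + 1 ≤ m := by
        have : i + 1 ≤ m := by omega
        exact_mod_cast this
      constructor
      · positivity
      · rw [mul_div_assoc', div_lt_iff₀ (by positivity)]
        nlinarith
  have hφlt : ∀ i < m, φ i < φ (i + 1) := by
    intro i hi
    simp only [hφ]
    have h0 : i + 1 ≠ 0 := by omega
    rw [if_neg h0]
    by_cases h1 : i = 0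
    · subst h1
      simp only [if_true]
      by_cases h2 : 0 + 1 = m
      · rw [if_pos h2]
        nlinarith
      · rw [if_neg h2]
        rw [mul_div_assoc', lt_div_iff₀ (by positivity)]
        push_cast
        nlinarith
    · rw [if_neg h1, if_neg (by omega : i ≠ m)]
      by_cases h2 : i + 1 = m
      · rw [if_pos h2, mul_div_assoc', div_lt_iff₀ (by positivity)]
        have : (i : ℝ) + 1 = m := by exact_mod_cast h2
        nlinarith
      · rw [if_neg h2]
        apply mul_lt_mul_of_pos_right _ (by positivity)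
        push_cast; linarith
  have hsign : ∀ i ≤ m, 0 < Real.cos (m * φ i + (m * θ + α)) *
      ((-1) ^ i * Real.cos (m * θ + α)) := by
    intro i hi
    simp only [hφ]
    split_ifs with h1 h2
    · subst h1
      simpa using hψ2
    · subst h2
      have e : (i : ℝ) * (Real.pi - ψ) + (i * θ + α) = ((i * θ + α) - i * ψ) + i * Real.pi := by ring
      rw [e, Real.cos_add_nat_mul_pi]
      have : (-1 : ℝ) ^ i * Real.cos ((i * θ + α) - i * ψ) * ((-1) ^ i * Real.cos (i * θ + α)) =
          ((-1) ^ i * (-1) ^ i) * (Real.cos ((i * θ + α) - i * ψ) * Real.cos (i * θ + α)) := by ring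
      rw [this, ← mul_pow]
      simpa using hψ3
    · have e : (m : ℝ) * (i * (Real.pi / m)) + (m * θ + α) = (m * θ + α) + i * Real.pi := by
        field_simp
        ring
      rw [e, Real.cos_add_nat_mul_pi]
      have : (-1 : ℝ) ^ i * Real.cos (m * θ + α) * ((-1) ^ i * Real.cos (m * θ + α)) =
          ((-1) ^ i * (-1) ^ i) * (Real.cos (m * θ + α) * Real.cos (m * θ + α)) := by ring
      rw [this, ← mul_pow]
      have h3 : 0 < Real.cos (m * θ + α) * Real.cos (m * θ + α) := mul_self_pos.mpr hβ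
      simpa using h3
  refine ⟨fun i => rr θ (φ (m - i)), ?_, ?_⟩
  · intro i hi
    have h1 := hφlt (m - (i + 1)) (by omega)
    rw [show m - (i + 1) + 1 = m - i by omega] at h1
    exact rr_anti hθ0 hθ1 (hφpos _ (by omega)).1 h1 (hφpos _ (by omega)).2
  · intro i hi
    have hpos := hφpos (m - i) (by omega)
    have s1 : 0 < Real.sin (φ (m - i)) := Real.sin_pos_of_pos_of_lt_pi hpos.1 hpos.2
    have s0 : 0 < Real.sin θ := Real.sin_pos_of_pos_of_lt_pi hθ0 hθ1
    simp only
    rw [Qf_rr m α s1.ne', mul_assoc]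
    exact mul_pos (by positivity) (hsign (m - i) (by omega))

lemma Qf_bound (m : ℕ) (α θ r : ℝ) : |Qf m α θ r| ≤ (|r| + 1) ^ m := by
  unfold Qf
  refine (Complex.abs_re_le_norm _).trans ?_
  rw [norm_mul, Complex.norm_exp_ofReal_mul_I, one_mul, norm_pow]
  apply pow_le_pow_left₀ (norm_nonneg _)
  refine (norm_sub_le _ _).trans ?_
  rw [norm_mul, Complex.norm_exp_ofReal_mul_I, mul_one, Complex.norm_real, norm_one,
    Real.norm_eq_abs]

/-- the function on a line -/
noncomputable def ff (n m : ℕ) (α θ c s r : ℝ) : ℝ := c * s * r ^ n - Qf m α θ r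

lemma ff_continuous (n m : ℕ) (α θ c s : ℝ) : Continuous (ff n m α θ c s) := by
  unfold ff
  have := Qf_continuous m α θ
  fun_prop

lemma ff_far {n m : ℕ} (hmn : m < n) (α θ : ℝ) {c s : ℝ} (hc : 0 < c) (hs : s = 1 ∨ s = -1)
    {r : ℝ} (hr1 : 1 ≤ |r|) (hr : 2 ^ m / c < |r|) :
    0 < ff n m α θ c s r * (s * (r ^ n)) := by
  have hr0 : 0 < |r| := by linarith
  have h1 : (|r| + 1) ^ m ≤ 2 ^ m * |r| ^ m := by
    rw [← mul_pow]
    apply pow_le_pow_left₀ (by positivity)
    linarith
  have h2 : 2 ^ m * |r| ^ m < c * |r| ^ n := by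
    rw [div_lt_iff₀ hc] at hr
    obtain ⟨k, rfl⟩ : ∃ k, n = m + 1 + k := ⟨n - (m + 1), by omega⟩
    have h3 : |r| ^ m ≤ |r| ^ (m + k) := pow_le_pow_right₀ hr1 (by omega)
    have h4 : 0 < |r| ^ m := by positivity
    calc 2 ^ m * |r| ^ m < (|r| * c) * |r| ^ m := by
          apply mul_lt_mul_of_pos_right _ h4
          linarith
      _ ≤ (|r| * c) * |r| ^ (m + k) := mul_le_mul_of_nonneg_left h3 (by positivity)
      _ = c * |r| ^ (m + 1 + k) := by ring
  have h5 : |Qf m α θ r| < c * |r| ^ n := lt_of_le_of_lt ((Qf_bound m α θ r).trans h1) h2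
  have hs2 : s * s = 1 := by rcases hs with h | h <;> rw [h] <;> norm_num
  have hsabs : |s| = 1 := by rcases hs with h | h <;> rw [h] <;> simp
  unfold ff
  have h6 : (c * s * r ^ n - Qf m α θ r) * (s * r ^ n) =
      c * (r ^ n) ^ 2 * (s * s) - Qf m α θ r * (s * r ^ n) := by ring
  rw [h6, hs2]
  have h7 : Qf m α θ r * (s * r ^ n) ≤ |Qf m α θ r| * |r| ^ n := by
    refine (le_abs_self _).trans (le_of_eq ?_)
    rw [abs_mul, abs_mul, hsabs, abs_pow, one_mul]
  have h8 : |Qf m α θ r| * |r| ^ n < c * |r| ^ n * |r| ^ n :=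
    mul_lt_mul_of_pos_right h5 (by positivity)
  have h9 : (r ^ n) ^ 2 = |r| ^ n * |r| ^ n := by
    rw [← abs_pow, abs_mul_abs_self]; ring
  rw [h9]
  nlinarith

/-- roots on one line -/
lemma line_roots {n m : ℕ} (hmn : m < n) {α θ : ℝ} {x : ℕ → ℝ}
    (hx : ∀ i < m, x i < x (i + 1)) {C : ℝ}
    (hQ : ∀ i ≤ m, 0 < Qf m α θ (x i) * ((-1) ^ (m - i) * C)) {c s : ℝ} (hc : 0 < c)
    (hs : s = 1 ∨ s = -1) (hcx : ∀ i ≤ m, c * |x i| ^ n < |Qf m α θ (x i)|) :
    ∃ S : Finset ℝ, (∀ r ∈ S, ff n m α θ c s r = 0) ∧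
      m + (if 0 < s * C then 1 else 0) + (if 0 < (-1) ^ (n - m) * (s * C) then 1 else 0) ≤
        S.card := by
  classical
  set f := ff n m α θ c s with hf
  have hfc : Continuous f := ff_continuous n m α θ c s
  have hsabs : |s| = 1 := by rcases hs with h | h <;> rw [h] <;> simp
  have hs2 : s * s = 1 := by rcases hs with h | h <;> rw [h] <;> norm_num
  -- sign of f at the test points
  have hfx : ∀ i ≤ m, f (x i) * ((-1) ^ (m - i) * C) < 0 := by
    intro i hi
    have h1 := hQ i hi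
    have h2 := hcx i hi
    have h3 : |c * s * x i ^ n| < |Qf m α θ (x i)| := by
      rw [abs_mul, abs_mul, abs_of_pos hc, hsabs, abs_pow, mul_one]; exact h2
    set D := (-1) ^ (m - i) * C with hD
    have h4 : c * s * x i ^ n * D ≤ |c * s * x i ^ n| * |D| := by
      rw [← abs_mul]; exact le_abs_self _
    have hD0 : 0 < |D| := by
      apply abs_pos.mpr
      intro h0
      rw [h0, mul_zero] at h1
      exact lt_irrefl _ h1
    have h5 : |c * s * x i ^ n| * |D| < |Qf m α θ (x i)| * |D| := mul_lt_mul_of_pos_right h3 hD0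
    have h6 : |Qf m α θ (x i)| * |D| = Qf m α θ (x i) * D := by
      rw [← abs_mul, abs_of_pos h1]
    rw [hf]; unfold ff
    rw [sub_mul]
    linarith
  have halt : ∀ i < m, f (x i) * f (x (i + 1)) < 0 := by
    intro i hi
    have h1 := hfx i hi.le
    have h2 := hfx (i + 1) (by omega)
    have e : (-1 : ℝ) ^ (m - i) = -(-1) ^ (m - (i + 1)) := by
      rw [show m - i = (m - (i + 1)) + 1 by omega, pow_succ]; ring
    rw [e] at h1
    set D := (-1) ^ (m - (i + 1)) * C with hD
    have h1' : 0 < f (x i) * D := by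
      have : f (x i) * (-(-1) ^ (m - (i + 1)) * C) = -(f (x i) * D) := by rw [hD]; ring
      rw [this] at h1
      linarith
    have h3 : (f (x i) * D) * (f (x (i + 1)) * D) < 0 := mul_neg_of_pos_of_neg h1' h2
    have h4 : (f (x i) * D) * (f (x (i + 1)) * D) = (f (x i) * f (x (i + 1))) * (D * D) := by ring
    rw [h4] at h3
    by_contra hcon
    push Not at hcon
    have : 0 ≤ (f (x i) * f (x (i + 1))) * (D * D) := mul_nonneg hcon (mul_self_nonneg D)
    linarith
  obtain ⟨S, hS1, hS2, hS3, hS4⟩ := roots_of_alternating hfc x m hx halt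
  -- far points
  set L : ℝ := |x 0| + |x m| + 2 ^ m / c + 1 with hL
  have hLc : 0 < 2 ^ m / c := by positivity
  have hL1 : 1 ≤ L := by rw [hL]; have := abs_nonneg (x 0); have := abs_nonneg (x m); linarith
  have hLm : x m < L := by
    rw [hL]; have := abs_nonneg (x 0); have := le_abs_self (x m); linarith
  have hL0 : -L < x 0 := by
    rw [hL]; have := abs_nonneg (x m); have := neg_abs_le (x 0); linarith
  have hLb : 2 ^ m / c < L := by
    rw [hL]; have := abs_nonneg (x 0); have := abs_nonneg (x m); linarith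
  have hLabs : |L| = L := abs_of_nonneg (by linarith)
  have hfar1 := ff_far hmn α θ hc hs (r := L) (by rw [hLabs]; exact hL1) (by rw [hLabs]; exact hLb)
  have hfar2 := ff_far hmn α θ hc hs (r := -L) (by rw [abs_neg, hLabs]; exact hL1)
    (by rw [abs_neg, hLabs]; exact hLb)
  rw [← hf] at hfar1 hfar2
  have hLn : 0 < L ^ n := by positivity
  have hfL : 0 < f L * s := by
    by_contra hcon
    push Not at hcon
    have : f L * (s * L ^ n) = (f L * s) * L ^ n := by ring
    rw [this] at hfar1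
    have := mul_nonpos_of_nonpos_of_nonneg hcon hLn.le
    linarith
  have hfL' : 0 < f (-L) * ((-1) ^ n * s) := by
    by_contra hcon
    push Not at hcon
    have : f (-L) * (s * (-L) ^ n) = (f (-L) * ((-1) ^ n * s)) * L ^ n := by
      rw [neg_pow L n]; ring
    rw [this] at hfar2
    have := mul_nonpos_of_nonpos_of_nonneg hcon hLn.le
    linarith
  -- extra root on the right
  have hR : 0 < s * C → ∃ r, x m < r ∧ f r = 0 := by
    intro h
    have h1 := hfx m le_rfl
    rw [Nat.sub_self, pow_zero, one_mul] at h1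
    have h2 : f (x m) * f L < 0 := by
      have h3 : (f (x m) * C) * (f L * s) < 0 := mul_neg_of_neg_of_pos h1 hfL
      have h4 : (f (x m) * C) * (f L * s) = (f (x m) * f L) * (s * C) := by ring
      rw [h4] at h3
      by_contra hcon
      push Not at hcon
      have := mul_nonneg hcon h.le
      linarith
    obtain ⟨r, hr1, _, hr3⟩ := root_between hfc hLm h2
    exact ⟨r, hr1, hr3⟩
  have hRl : 0 < (-1) ^ (n - m) * (s * C) → ∃ r, r < x 0 ∧ f r = 0 := by
    intro h
    have h1 := hfx 0 (Nat.zero_le _)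
    rw [Nat.sub_zero] at h1
    have h2 : f (-L) * f (x 0) < 0 := by
      have h3 : (f (x 0) * ((-1) ^ m * C)) * (f (-L) * ((-1) ^ n * s)) < 0 :=
        mul_neg_of_neg_of_pos h1 hfL'
      have e : (-1 : ℝ) ^ n * (-1) ^ m = (-1) ^ (n - m) := by
        have : (-1 : ℝ) ^ n = (-1) ^ (n - m) * (-1) ^ m := by
          rw [← pow_add]; congr 1; omega
        rw [this, mul_assoc, ← mul_pow]
        simp
      have h4 : (f (x 0) * ((-1) ^ m * C)) * (f (-L) * ((-1) ^ n * s)) =
          (f (-L) * f (x 0)) * (((-1) ^ n * (-1) ^ m) * (s * C)) := by ring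
      rw [h4, e] at h3
      by_contra hcon
      push Not at hcon
      have := mul_nonneg hcon h.le
      linarith
    obtain ⟨r, _, hr2, hr3⟩ := root_between hfc hL0 h2
    exact ⟨r, hr2, hr3⟩
  -- add the right root
  have step1 : ∃ S1 : Finset ℝ, (∀ r ∈ S1, f r = 0) ∧ (∀ r ∈ S1, x 0 < r) ∧
      m + (if 0 < s * C then 1 else 0) ≤ S1.card := by
    by_cases h : 0 < s * C
    · obtain ⟨r, hr1, hr2⟩ := hR h
      refine ⟨insert r S, ?_, ?_, ?_⟩
      · intro y hy
        rcases Finset.mem_insert.mp hy with rfl | hy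
        · exact hr2
        · exact hS2 y hy
      · intro y hy
        rcases Finset.mem_insert.mp hy with rfl | hy
        · exact lt_of_le_of_lt hS4 hr1
        · exact (hS3 y hy).1
      · rw [Finset.card_insert_of_notMem, hS1, if_pos h]
        intro hrS
        exact absurd (hS3 r hrS).2 (not_lt.mpr hr1.le)
    · refine ⟨S, hS2, fun r hr => (hS3 r hr).1, ?_⟩
      rw [if_neg h, hS1, add_zero]
  obtain ⟨S1, h1, h2, h3⟩ := step1
  by_cases h : 0 < (-1) ^ (n - m) * (s * C)
  · obtain ⟨r, hr1, hr2⟩ := hRl h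
    refine ⟨insert r S1, ?_, ?_⟩
    · intro y hy
      rcases Finset.mem_insert.mp hy with rfl | hy
      · exact hr2
      · exact h1 y hy
    · rw [Finset.card_insert_of_notMem, if_pos h]
      · omega
      · intro hrS
        exact absurd (h2 r hrS) (not_lt.mpr hr1.le)
  · refine ⟨S1, h1, ?_⟩
    rw [if_neg h, add_zero]
    exact h3

/-- angles of the lines -/
noncomputable def th (n j : ℕ) : ℝ := Real.pi * (2 * j + 1) / (2 * n)

lemma th_pos {n : ℕ} (hn : 0 < n) (j : ℕ) : 0 < th n j := by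
  unfold th
  have : (0 : ℝ) < n := by exact_mod_cast hn
  positivity

lemma th_lt {n j : ℕ} (hj : j < n) : th n j < Real.pi := by
  unfold th
  have hn : (0 : ℝ) < n := by exact_mod_cast (by omega : 0 < n)
  have hj' : (j : ℝ) + 1 ≤ n := by exact_mod_cast hj
  rw [div_lt_iff₀ (by positivity)]
  have := Real.pi_pos
  nlinarith

lemma exp_th {n : ℕ} (hn : 0 < n) (j : ℕ) :
    Complex.exp (th n j * Complex.I) ^ n = Complex.I * (-1) ^ j := by
  have hn' : (n : ℝ) ≠ 0 := by exact_mod_cast hn.ne'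
  rw [← Complex.exp_nat_mul]
  have h1 : (n : ℂ) * (th n j * Complex.I) = ((Real.pi / 2 + j * Real.pi : ℝ) : ℂ) * Complex.I := by
    have h2 : (n : ℝ) * th n j = Real.pi / 2 + j * Real.pi := by
      unfold th; field_simp; ring
    rw [← h2]; push_cast; ring
  rw [h1]
  apply Complex.ext
  · rw [Complex.exp_ofReal_mul_I_re, Real.cos_add_nat_mul_pi, Real.cos_pi_div_two, mul_zero]
    rcases Nat.even_or_odd j with h | h
    · rw [h.neg_one_pow]; simp
    · rw [h.neg_one_pow]; simp
  · rw [Complex.exp_ofReal_mul_I_im, Real.sin_add_nat_mul_pi, Real.sin_pi_div_two, mul_one]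
    rcases Nat.even_or_odd j with h | h
    · rw [h.neg_one_pow, h.neg_one_pow]; simp
    · rw [h.neg_one_pow, h.neg_one_pow]; simp

/-- auxiliary polynomial -/
noncomputable def gP (m : ℕ) (α : ℝ) : ℂ[X] := C (Complex.exp (α * Complex.I)) * (X - 1) ^ m

lemma gP_natDegree (m : ℕ) (α : ℝ) : (gP m α).natDegree = m := by
  unfold gP
  rw [natDegree_C_mul (Complex.exp_ne_zero _)]
  have : (X - 1 : ℂ[X]) = X - C 1 := by simp
  rw [this, natDegree_pow, natDegree_X_sub_C, mul_one]

lemma gP_eval (m : ℕ) (α : ℝ) (z : ℂ) :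
    (gP m α).eval z = Complex.exp (α * Complex.I) * (z - 1) ^ m := by
  unfold gP; simp

noncomputable def pP (n m : ℕ) (α c : ℝ) : ℂ[X] := C (2 * c : ℂ) * X ^ n - C Complex.I * gP m α

noncomputable def qP (m : ℕ) (α : ℝ) : ℂ[X] := C Complex.I * gP m α

lemma qP_natDegree (m : ℕ) (α : ℝ) : (qP m α).natDegree = m := by
  unfold qP
  rw [natDegree_C_mul Complex.I_ne_zero, gP_natDegree]

lemma pP_natDegree {n m : ℕ} (hmn : m < n) (α : ℝ) {c : ℝ} (hc : 0 < c) :
    (pP n m α c).natDegree = n := by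
  have hc2 : (2 * c : ℂ) ≠ 0 := by
    have : (c : ℂ) ≠ 0 := by exact_mod_cast hc.ne'
    simpa using this
  unfold pP
  rw [natDegree_sub_eq_left_of_natDegree_lt]
  · exact natDegree_C_mul_X_pow n _ hc2
  · rw [natDegree_C_mul_X_pow n _ hc2]
    rw [natDegree_C_mul Complex.I_ne_zero, gP_natDegree]
    exact hmn

lemma h_eval (n m : ℕ) (α c : ℝ) (z : ℂ) :
    (pP n m α c).eval z + conj ((qP m α).eval z) =
      2 * (c * z ^ n - Complex.I * (((Complex.exp (α * Complex.I) * (z - 1) ^ m).re : ℝ) : ℂ)) := by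
  have h1 : ∀ w : ℂ, -(Complex.I * w) + conj (Complex.I * w) = -2 * (Complex.I * ((w.re : ℝ) : ℂ)) := by
    intro w
    apply Complex.ext
    · simp
    · simp; ring
  have h2 := h1 (Complex.exp (α * Complex.I) * (z - 1) ^ m)
  unfold pP qP
  simp only [eval_sub, eval_mul, eval_C, eval_pow, eval_X, gP_eval]
  rw [sub_eq_add_neg, add_assoc, h2]
  ring

lemma h_line {n : ℕ} (hn : 0 < n) (m : ℕ) (α c : ℝ) (j : ℕ) (r : ℝ) :
    (pP n m α c).eval ((r : ℂ) * Complex.exp (th n j * Complex.I)) +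
      conj ((qP m α).eval ((r : ℂ) * Complex.exp (th n j * Complex.I))) =
      2 * Complex.I * ((ff n m α (th n j) c ((-1) ^ j) r : ℝ) : ℂ) := by
  rw [h_eval, mul_pow, exp_th hn]
  unfold ff Qf
  push_cast
  ring

lemma mem_zeros_line {n : ℕ} (hn : 0 < n) (m : ℕ) (α c : ℝ) (j : ℕ) (r : ℝ) :
    (r : ℂ) * Complex.exp (th n j * Complex.I) ∈ zeros (pP n m α c) (qP m α) ↔
      ff n m α (th n j) c ((-1) ^ j) r = 0 := by
  unfold zeros
  rw [Set.mem_ofPred_eq, h_line hn]
  constructor
  · intro h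
    have h2 : (2 * Complex.I : ℂ) ≠ 0 := by simp
    exact_mod_cast (mul_eq_zero.mp h).resolve_left h2
  · intro h; rw [h]; simp

/-- each line contains finitely many zeros -/
lemma line_finite {n m : ℕ} (hmn : m < n) (α : ℝ) {c : ℝ} (hc : 0 < c) (j : ℕ) :
    {r : ℝ | ff n m α (th n j) c ((-1) ^ j) r = 0}.Finite := by
  have hn : 0 < n := by omega
  set e : ℂ := Complex.exp (th n j * Complex.I) with he
  have he0 : e ≠ 0 := Complex.exp_ne_zero _
  set P : ℂ[X] := C (2 * c * e ^ n) * X ^ n - C Complex.I *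
    ((gP m α).comp (C e * X) + ((gP m α).map (starRingEnd ℂ)).comp (C (conj e) * X)) with hP
  have hPr : ∀ r : ℝ, P.eval (r : ℂ) = 2 * Complex.I * ((ff n m α (th n j) c ((-1) ^ j) r : ℝ) : ℂ) := by
    intro r
    rw [← h_line hn, ← he]
    have h1 : conj ((qP m α).eval ((r : ℂ) * e)) =
        -Complex.I * (((gP m α).map (starRingEnd ℂ)).eval (conj e * r)) := by
      unfold qP
      rw [eval_mul, eval_C, map_mul, Complex.conj_I]
      congr 1
      have : conj e * (r : ℂ) = conj ((r : ℂ) * e) := by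
        rw [map_mul, Complex.conj_ofReal, mul_comm]
      rw [this, eval_map_apply]
    rw [h1, hP]
    unfold pP
    simp only [eval_sub, eval_mul, eval_C, eval_pow, eval_X, eval_add, eval_comp]
    rw [mul_comm e (r : ℂ)]
    ring
  have hP0 : P ≠ 0 := by
    intro h0
    have h1 : P.coeff n = 2 * c * e ^ n := by
      rw [hP, coeff_sub, coeff_C_mul_X_pow, if_pos rfl, coeff_C_mul, coeff_add]
      have d1 : ((gP m α).comp (C e * X)).coeff n = 0 := by
        apply coeff_eq_zero_of_natDegree_lt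
        rw [natDegree_comp, gP_natDegree, natDegree_C_mul_X _ he0, mul_one]
        exact hmn
      have d2 : (((gP m α).map (starRingEnd ℂ)).comp (C (conj e) * X)).coeff n = 0 := by
        apply coeff_eq_zero_of_natDegree_lt
        rw [natDegree_comp, natDegree_C_mul_X _ (by simpa using he0), mul_one]
        exact lt_of_le_of_lt (natDegree_map_le) (by rw [gP_natDegree]; exact hmn)
      rw [d1, d2]; ring
    rw [h0, coeff_zero] at h1
    have h2 : (2 * c * e ^ n : ℂ) ≠ 0 := by
      have : (c : ℂ) ≠ 0 := by exact_mod_cast hc.ne'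
      exact mul_ne_zero (mul_ne_zero two_ne_zero this) (pow_ne_zero _ he0)
    exact h2 h1.symm
  have hfin : {z : ℂ | P.IsRoot z}.Finite := finite_setOfPred_isRoot hP0
  refine (hfin.preimage (Complex.ofReal_injective.injOn)).subset ?_
  intro r hr
  change P.eval (r : ℂ) = 0
  rw [hPr, hr]; simp

lemma on_line {n : ℕ} (hn : 0 < n) {z : ℂ} (h : (z ^ n).re = 0) :
    ∃ j < n, ∃ r : ℝ, z = (r : ℂ) * Complex.exp (th n j * Complex.I) := by
  by_cases hz : z = 0
  · exact ⟨0, hn, 0, by simp [hz]⟩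
  have hn' : (n : ℝ) ≠ 0 := by exact_mod_cast hn.ne'
  have hz1 : z = ((‖z‖ : ℝ) : ℂ) * Complex.exp (Complex.arg z * Complex.I) :=
    (Complex.norm_mul_exp_arg_mul_I z).symm
  have hcos : Real.cos (n * Complex.arg z) = 0 := by
    rw [hz1, mul_pow, ← Complex.exp_nat_mul, ← Complex.ofReal_pow, Complex.re_ofReal_mul] at h
    have e : (n : ℂ) * ((Complex.arg z : ℝ) * Complex.I) = ((n * Complex.arg z : ℝ) : ℂ) * Complex.I := by
      push_cast; ring
    rw [e, Complex.exp_ofReal_mul_I_re] at h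
    have h2 : ‖z‖ ^ n ≠ 0 := pow_ne_zero _ (norm_ne_zero_iff.mpr hz)
    exact (mul_eq_zero.mp h).resolve_left h2
  rw [Real.cos_eq_zero_iff] at hcos
  obtain ⟨k, hk⟩ := hcos
  have hnZ : (n : ℤ) ≠ 0 := by exact_mod_cast hn.ne'
  have hmod0 : 0 ≤ k % n := Int.emod_nonneg _ hnZ
  have hmod1 : k % n < n := Int.emod_lt_of_pos _ (by exact_mod_cast hn)
  refine ⟨(k % n).toNat, by omega, ‖z‖ * Real.cos ((k / n : ℤ) * Real.pi), ?_⟩
  have hj : (((k % n).toNat : ℕ) : ℝ) = ((k % n : ℤ) : ℝ) := by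
    have : (((k % n).toNat : ℕ) : ℤ) = k % n := Int.toNat_of_nonneg hmod0
    exact_mod_cast this
  have hkd : (k : ℝ) = n * ((k / n : ℤ) : ℝ) + ((k % n : ℤ) : ℝ) := by
    have := Int.mul_ediv_add_emod k n
    exact_mod_cast this.symm
  have harg : Complex.arg z = th n (k % n).toNat + (k / n : ℤ) * Real.pi := by
    unfold th
    rw [hj]
    have : (n : ℝ) * Complex.arg z = n * (Real.pi * (2 * ((k % n : ℤ) : ℝ) + 1) / (2 * n) +
        (k / n : ℤ) * Real.pi) := by
      rw [hk, hkd]
      field_simp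
      ring
    exact mul_left_cancel₀ hn' this
  conv_lhs => rw [hz1, harg]
  have h1 : Complex.exp (((((k / n : ℤ) : ℝ) * Real.pi : ℝ) : ℂ) * Complex.I) =
      ((Real.cos ((k / n : ℤ) * Real.pi) : ℝ) : ℂ) := by
    apply Complex.ext
    · rw [Complex.exp_ofReal_mul_I_re, Complex.ofReal_re]
    · rw [Complex.exp_ofReal_mul_I_im, Complex.ofReal_im, Real.sin_int_mul_pi]
  rw [Complex.ofReal_add, add_mul, Complex.exp_add, h1, Complex.ofReal_mul]
  ring

lemma zeros_finite {n m : ℕ} (hmn : m < n) (α : ℝ) {c : ℝ} (hc : 0 < c) :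
    (zeros (pP n m α c) (qP m α)).Finite := by
  have hn : 0 < n := by omega
  have hfin : (⋃ j ∈ Finset.range n, (fun r : ℝ => (r : ℂ) * Complex.exp (th n j * Complex.I)) ''
      {r : ℝ | ff n m α (th n j) c ((-1) ^ j) r = 0}).Finite := by
    apply Set.Finite.biUnion (Finset.finite_toSet _)
    intro j _
    exact (line_finite hmn α hc j).image _
  refine hfin.subset ?_
  intro z hz
  have hz' : (pP n m α c).eval z + conj ((qP m α).eval z) = 0 := hz
  rw [h_eval] at hz'
  have h1 : (c : ℂ) * z ^ n = Complex.I * (((Complex.exp (α * Complex.I) * (z - 1) ^ m).re : ℝ) : ℂ) := by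
    have := (mul_eq_zero.mp hz').resolve_left two_ne_zero
    exact sub_eq_zero.mp this
  have h2 : (z ^ n).re = 0 := by
    have h3 := congrArg Complex.re h1
    rw [Complex.re_ofReal_mul] at h3
    have h4 : (Complex.I * (((Complex.exp (α * Complex.I) * (z - 1) ^ m).re : ℝ) : ℂ)).re = 0 := by
      simp
    rw [h4] at h3
    exact (mul_eq_zero.mp h3).resolve_left hc.ne'
  obtain ⟨j, hj, r, rfl⟩ := on_line hn h2
  rw [Set.mem_iUnion₂]
  exact ⟨j, Finset.mem_range.mpr hj, r, (mem_zeros_line hn m α c j r).mp hz, rfl⟩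

/-- different lines meet only at the origin -/
lemma lines_disjoint {n : ℕ} (hn : 0 < n) {i j : ℕ} (hi : i < n) (hj : j < n) {r s : ℝ}
    (hr : r ≠ 0) (h : (r : ℂ) * Complex.exp (th n i * Complex.I) =
      (s : ℂ) * Complex.exp (th n j * Complex.I)) : i = j := by
  -- multiply by the inverse of `exp (th n j I)`; the imaginary part is `r sin (θ_i - θ_j)`
  have h1 : (r : ℂ) * Complex.exp (((th n i - th n j : ℝ) : ℂ) * Complex.I) = s := by
    have h2 : Complex.exp (((th n i - th n j : ℝ) : ℂ) * Complex.I) =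
        Complex.exp (th n i * Complex.I) * (Complex.exp (th n j * Complex.I))⁻¹ := by
      rw [← Complex.exp_neg, ← Complex.exp_add]; congr 1; push_cast; ring
    rw [h2, ← mul_assoc, h, mul_assoc, mul_inv_cancel₀ (Complex.exp_ne_zero _), mul_one]
  have h3 := congrArg Complex.im h1
  rw [Complex.im_ofReal_mul, Complex.exp_ofReal_mul_I_im, Complex.ofReal_im] at h3
  have h4 : Real.sin (th n i - th n j) = 0 := (mul_eq_zero.mp h3).resolve_left hr
  have i0 := th_pos hn i
  have i1 := th_lt hi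
  have j0 := th_pos hn j
  have j1 := th_lt hj
  have h5 : th n i - th n j = 0 := by
    rcases lt_trichotomy (th n i - th n j) 0 with h | h | h
    · have := Real.sin_neg_of_neg_of_neg_pi_lt h (by linarith)
      linarith
    · exact h
    · have := Real.sin_pos_of_pos_of_lt_pi h (by linarith)
      linarith
  have hn' : (0 : ℝ) < n := by exact_mod_cast hn
  unfold th at h5
  have h6 : Real.pi * (2 * i + 1) = Real.pi * (2 * j + 1) := by
    field_simp at h5
    linarith
  have h7 : (2 * i + 1 : ℝ) = 2 * j + 1 := mul_left_cancel₀ Real.pi_pos.ne' h6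
  have h8 : (i : ℝ) = j := by linarith
  exact_mod_cast h8

/-- number of roots guaranteed on the line `j` -/
noncomputable def cnt (n m : ℕ) (α : ℝ) (j : ℕ) : ℕ :=
  m + (if 0 < (-1) ^ j * Real.cos (m * th n j + α) then 1 else 0) +
    (if 0 < (-1) ^ (n - m) * ((-1) ^ j * Real.cos (m * th n j + α)) then 1 else 0)

lemma exists_c {n m : ℕ} (α : ℝ) (x : ℕ → ℕ → ℝ)
    (hx : ∀ j < n, ∀ i ≤ m, Qf m α (th n j) (x j i) ≠ 0) :
    ∃ c : ℝ, 0 < c ∧ ∀ j < n, ∀ i ≤ m, c * |x j i| ^ n < |Qf m α (th n j) (x j i)| := by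
  have h1 : ∀ᶠ c in nhds (0 : ℝ), ∀ j ∈ Finset.range n, ∀ i ∈ Finset.range (m + 1),
      c * |x j i| ^ n < |Qf m α (th n j) (x j i)| := by
    rw [Filter.eventually_all_finset]
    intro j hj
    rw [Filter.eventually_all_finset]
    intro i hi
    have hc : Continuous fun c : ℝ => c * |x j i| ^ n := by fun_prop
    apply hc.continuousAt.eventually (gt_mem_nhds _)
    simp only [zero_mul]
    exact abs_pos.mpr (hx j (Finset.mem_range.mp hj) i (by
      have := Finset.mem_range.mp hi; omega))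
  have h2 : ∀ᶠ c in nhdsWithin (0 : ℝ) (Ioi 0), 0 < c := eventually_mem_nhdsWithin
  obtain ⟨c, hc1, hc2⟩ := ((h1.filter_mono nhdsWithin_le_nhds).and h2).exists
  exact ⟨c, hc2, fun j hj i hi => hc1 j (Finset.mem_range.mpr hj) i
    (Finset.mem_range.mpr (by omega))⟩

/-- the construction, for a general angle `α` -/
lemma exists_poly {n m : ℕ} (hm : 1 ≤ m) (hmn : m < n) {α : ℝ} (hα : Real.cos α ≠ 0)
    (hβ : ∀ j < n, Real.cos (m * th n j + α) ≠ 0) :
    ∃ p q : ℂ[X], p.natDegree = n ∧ q.natDegree = m ∧ (zeros p q).Finite ∧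
      ∑ j ∈ Finset.range n, cnt n m α j ≤ (zeros p q).ncard := by
  classical
  have hn : 0 < n := by omega
  have hx : ∀ j, ∃ x : ℕ → ℝ, j < n → (∀ i < m, x i < x (i + 1)) ∧
      ∀ i ≤ m, 0 < Qf m α (th n j) (x i) * ((-1) ^ (m - i) * Real.cos (m * th n j + α)) := by
    intro j
    by_cases hj : j < n
    · obtain ⟨x, hx⟩ := exists_points m hm (th_pos hn j) (th_lt hj) (hβ j hj)
      exact ⟨x, fun _ => hx⟩
    · exact ⟨fun _ => 0, fun h => absurd h hj⟩
  choose x hx using hx
  obtain ⟨c, hc, hcx⟩ := exists_c (n := n) (m := m) α x (fun j hj i hi h0 => by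
    have := (hx j hj).2 i hi
    rw [h0, zero_mul] at this
    exact lt_irrefl _ this)
  have hS : ∀ j, ∃ S : Finset ℝ, j < n → (∀ r ∈ S, ff n m α (th n j) c ((-1) ^ j) r = 0) ∧
      cnt n m α j ≤ S.card := by
    intro j
    by_cases hj : j < n
    · obtain ⟨S, hS⟩ := line_roots hmn (hx j hj).1 (hx j hj).2 hc (s := (-1) ^ j)
        (neg_one_pow_eq_or ℝ j) (hcx j hj)
      exact ⟨S, fun _ => hS⟩
    · exact ⟨∅, fun h => absurd h hj⟩
  choose S hS using hS
  refine ⟨pP n m α c, qP m α, pP_natDegree hmn α hc, qP_natDegree m α, zeros_finite hmn α hc, ?_⟩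
  set e : ℕ → ℂ := fun j => Complex.exp (th n j * Complex.I) with he
  have he0 : ∀ j, e j ≠ 0 := fun j => Complex.exp_ne_zero _
  set T : ℕ → Finset ℂ := fun j => (S j).image (fun r : ℝ => (r : ℂ) * e j) with hT
  have hTcard : ∀ j, (T j).card = (S j).card := by
    intro j
    apply Finset.card_image_of_injective
    intro a b hab
    have := mul_right_cancel₀ (he0 j) hab
    exact_mod_cast this
  have hroot0 : ∀ j < n, (0 : ℝ) ∉ S j := by
    intro j hj h0
    have h1 := (hS j hj).1 0 h0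
    unfold ff Qf at h1
    rw [zero_pow hn.ne', mul_zero, zero_sub, neg_eq_zero, Complex.ofReal_zero, zero_mul,
      zero_sub] at h1
    have h2 : ((-1 : ℂ)) ^ m = (((-1 : ℝ) ^ m : ℝ) : ℂ) := by push_cast; rfl
    rw [h2, mul_comm, Complex.re_ofReal_mul, Complex.exp_ofReal_mul_I_re] at h1
    rcases mul_eq_zero.mp h1 with h3 | h3
    · exact pow_ne_zero _ (by norm_num) h3
    · exact hα h3
  have hdisj : ∀ i ∈ Finset.range n, ∀ j ∈ Finset.range n, i ≠ j → Disjoint (T i) (T j) := by
    intro i hi j hj hij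
    rw [Finset.disjoint_left]
    intro z hz1 hz2
    rw [hT] at hz1 hz2
    simp only [Finset.mem_image] at hz1 hz2
    obtain ⟨r, hr, rfl⟩ := hz1
    obtain ⟨s, hs, hs2⟩ := hz2
    have hi' := Finset.mem_range.mp hi
    have hj' := Finset.mem_range.mp hj
    apply hij
    exact lines_disjoint hn hi' hj' (fun h => hroot0 i hi' (h ▸ hr)) hs2.symm
  have hsub : (((Finset.range n).biUnion T : Finset ℂ) : Set ℂ) ⊆ zeros (pP n m α c) (qP m α) := by
    intro z hz
    rw [Finset.mem_coe, Finset.mem_biUnion] at hz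
    obtain ⟨j, hj, hz⟩ := hz
    rw [hT] at hz
    simp only [Finset.mem_image] at hz
    obtain ⟨r, hr, rfl⟩ := hz
    exact (mem_zeros_line hn m α c j r).mpr ((hS j (Finset.mem_range.mp hj)).1 r hr)
  calc ∑ j ∈ Finset.range n, cnt n m α j ≤ ∑ j ∈ Finset.range n, (T j).card := by
        apply Finset.sum_le_sum
        intro j hj
        rw [hTcard]
        exact (hS j (Finset.mem_range.mp hj)).2
    _ = ((Finset.range n).biUnion T).card := (Finset.card_biUnion hdisj).symm
    _ = (((Finset.range n).biUnion T : Finset ℂ) : Set ℂ).ncard := (Set.ncard_coe_finset _).symm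
    _ ≤ _ := Set.ncard_le_ncard hsub (zeros_finite hmn α hc)

/-- an odd multiple of `π / (2 N)` with `N` even multiple is not a zero of the cosine -/
lemma cos_ne_zero_of_odd {N : ℤ} (hN : N ≠ 0) {a : ℤ} (ha : Odd a) :
    Real.cos (Real.pi * a / (4 * N)) ≠ 0 := by
  intro h
  rw [Real.cos_eq_zero_iff] at h
  obtain ⟨k, hk⟩ := h
  have hN' : (N : ℝ) ≠ 0 := by exact_mod_cast hN
  have h1 : (a : ℝ) = 2 * (2 * k + 1) * N := by
    field_simp at hk
    linarith
  have h2 : a = 2 * (2 * k + 1) * N := by exact_mod_cast h1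
  rcases ha with ⟨b, hb⟩
  have h3 : 2 * b + 1 = 2 * ((2 * k + 1) * N) := by rw [← hb, h2]; ring
  omega

/-- case `n - m` odd -/
lemma lower_odd {n m : ℕ} (hm : 1 ≤ m) (hmn : m < n) (hodd : Odd (n - m)) :
    ∃ p q : ℂ[X], p.natDegree = n ∧ q.natDegree = m ∧ (zeros p q).Finite ∧
      n * (m + 1) ≤ (zeros p q).ncard := by
  have hn : 0 < n := by omega
  have hn' : (0 : ℝ) < n := by exact_mod_cast hn
  set α : ℝ := Real.pi / (4 * n) with hαdef
  have hpi := Real.pi_pos
  have hα : Real.cos α ≠ 0 := by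
    apply ne_of_gt
    apply Real.cos_pos_of_mem_Ioo
    have hn1 : (1 : ℝ) ≤ n := by exact_mod_cast hn
    constructor
    · have : 0 < α := by rw [hαdef]; positivity
      linarith
    · rw [hαdef, div_lt_div_iff₀ (by positivity) (by norm_num)]
      nlinarith
  have hβ : ∀ j < n, Real.cos (m * th n j + α) ≠ 0 := by
    intro j _
    have h1 : (m : ℝ) * th n j + α = Real.pi * ((2 * (m * (2 * j + 1)) + 1 : ℤ) : ℝ) / (4 * ((n : ℤ) : ℝ)) := by
      rw [hαdef]; unfold th
      push_cast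
      field_simp
      ring
    rw [h1]
    exact cos_ne_zero_of_odd (by exact_mod_cast hn.ne') ⟨_, rfl⟩
  obtain ⟨p, q, h1, h2, h3, h4⟩ := exists_poly hm hmn hα hβ
  refine ⟨p, q, h1, h2, h3, le_trans (le_of_eq ?_) h4⟩
  have hcnt : ∀ j ∈ Finset.range n, cnt n m α j = m + 1 := by
    intro j hj
    have hne := hβ j (Finset.mem_range.mp hj)
    unfold cnt
    rw [hodd.neg_one_pow]
    have hne2 : (-1 : ℝ) ^ j * Real.cos (m * th n j + α) ≠ 0 :=
      mul_ne_zero (pow_ne_zero _ (by norm_num)) hne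
    rcases lt_or_gt_of_ne hne2 with h | h
    · rw [if_neg (not_lt.mpr h.le), if_pos (by linarith)]
    · rw [if_pos h, if_neg (by linarith)]
  rw [Finset.sum_congr rfl hcnt]
  simp

lemma count_aux {n l : ℕ} (hn : 0 < n) :
    Nat.gcd l n * ((n / Nat.gcd l n + 1) / 2) ≤
      ((Finset.range n).filter fun j => 2 * ((l * j) % n) < n).card := by
  set g := Nat.gcd l n with hg
  have hg0 : 0 < g := Nat.gcd_pos_of_pos_right l hn
  obtain ⟨n', hn'⟩ : g ∣ n := Nat.gcd_dvd_right l n
  obtain ⟨l', hl'⟩ : g ∣ l := Nat.gcd_dvd_left l n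
  have hn'0 : 0 < n' := by
    rcases Nat.eq_zero_or_pos n' with h | h
    · rw [h, mul_zero] at hn'; omega
    · exact h
  have hcop : Nat.Coprime l' n' := by
    have h1 : g = g * Nat.gcd l' n' := by
      conv_lhs => rw [hg, hn', hl', Nat.gcd_mul_left]
    have h2 : g * 1 = g * Nat.gcd l' n' := by rw [mul_one]; exact h1
    exact (Nat.eq_of_mul_eq_mul_left hg0 h2).symm
  have hdiv : n / g = n' := by rw [hn']; exact Nat.mul_div_cancel_left _ hg0
  rw [hdiv]
  obtain ⟨u, hu⟩ : ∃ u, (l' * u) % n' = 1 % n' := by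
    rcases Nat.lt_or_ge 1 n' with h | h
    · obtain ⟨u, hu⟩ := Nat.exists_mul_mod_eq_one_of_coprime hcop h
      exact ⟨u, by rw [Nat.mod_eq_of_lt h]; exact hu.2⟩
    · have : n' = 1 := by omega
      exact ⟨0, by rw [this]; simp⟩
  have hkey : ∀ b, b < n' → (l' * ((u * b) % n')) % n' = b := by
    intro b hb
    rw [Nat.mul_mod, Nat.mod_mod, ← Nat.mul_mod, ← mul_assoc, Nat.mul_mod, hu, ← Nat.mul_mod, one_mul,
      Nat.mod_eq_of_lt hb]
  have hcard : g * ((n' + 1) / 2) = (Finset.range g ×ˢ Finset.range ((n' + 1) / 2)).card := by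
    rw [Finset.card_product, Finset.card_range, Finset.card_range]
  rw [hcard]
  apply Finset.card_le_card_of_injOn (fun ab => ab.1 * n' + (u * ab.2) % n')
  · intro ab hab
    rw [Finset.mem_coe, Finset.mem_product, Finset.mem_range, Finset.mem_range] at hab
    have hb : ab.2 < n' := by omega
    rw [Finset.mem_coe, Finset.mem_filter, Finset.mem_range]
    have hm1 : (u * ab.2) % n' < n' := Nat.mod_lt _ hn'0
    refine ⟨?_, ?_⟩
    · calc ab.1 * n' + (u * ab.2) % n' < ab.1 * n' + n' := by omega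
        _ = (ab.1 + 1) * n' := by ring
        _ ≤ g * n' := Nat.mul_le_mul_right _ hab.1
        _ = n := hn'.symm
    · have h1 : (l * (ab.1 * n' + (u * ab.2) % n')) % n = g * ab.2 := by
        rw [hl', hn', mul_assoc, Nat.mul_mod_mul_left]
        congr 1
        have : l' * (ab.1 * n' + u * ab.2 % n') = l' * (u * ab.2 % n') + n' * (l' * ab.1) := by ring
        rw [this, Nat.add_mul_mod_self_left]
        exact hkey _ hb
      rw [h1]
      calc 2 * (g * ab.2) = g * (2 * ab.2) := by ring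
        _ < g * n' := Nat.mul_lt_mul_of_pos_left (by omega) hg0
        _ = n := hn'.symm
  · intro ab hab cd hcd h
    rw [Finset.mem_coe, Finset.mem_product, Finset.mem_range, Finset.mem_range] at hab hcd
    simp only at h
    have m1 : (u * ab.2) % n' < n' := Nat.mod_lt _ hn'0
    have m2 : (u * cd.2) % n' < n' := Nat.mod_lt _ hn'0
    have hdiv1 : (ab.1 * n' + (u * ab.2) % n') / n' = ab.1 := by
      rw [mul_comm, Nat.mul_add_div hn'0, Nat.div_eq_of_lt m1, add_zero]
    have hdiv2 : (cd.1 * n' + (u * cd.2) % n') / n' = cd.1 := by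
      rw [mul_comm, Nat.mul_add_div hn'0, Nat.div_eq_of_lt m2, add_zero]
    have e1 : ab.1 = cd.1 := by rw [← hdiv1, ← hdiv2, h]
    rw [e1] at h
    have e2 : (u * ab.2) % n' = (u * cd.2) % n' := by omega
    have e3 : ab.2 = cd.2 := by
      rw [← hkey ab.2 (by omega), ← hkey cd.2 (by omega), e2]
    exact Prod.ext e1 e3

/-- case `n - m` even -/
lemma lower_even {n m l : ℕ} (hm : 1 ≤ m) (hmn : m < n) (hl : n - m = 2 * l) :
    ∃ p q : ℂ[X], p.natDegree = n ∧ q.natDegree = m ∧ (zeros p q).Finite ∧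
      n * m + 2 * (Nat.gcd l n * ((n / Nat.gcd l n + 1) / 2)) ≤ (zeros p q).ncard := by
  have hn : 0 < n := by omega
  have hl1 : 1 ≤ l := by omega
  have hn' : (0 : ℝ) < n := by exact_mod_cast hn
  have hl1' : (1 : ℝ) ≤ l := by exact_mod_cast hl1
  have hmn' : (m : ℝ) = n - 2 * l := by
    have : n = m + 2 * l := by omega
    have h2 : (n : ℝ) = m + 2 * l := by exact_mod_cast this
    linarith
  have hm' : (1 : ℝ) ≤ m := by exact_mod_cast hm
  set α : ℝ := Real.pi * (2 * l - 1) / (2 * n) with hαdef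
  have hpi := Real.pi_pos
  have hα : Real.cos α ≠ 0 := by
    apply ne_of_gt
    apply Real.cos_pos_of_mem_Ioo
    constructor
    · have : 0 ≤ α := by
        rw [hαdef]
        apply div_nonneg _ (by positivity)
        apply mul_nonneg hpi.le
        linarith
      linarith
    · rw [hαdef, div_lt_div_iff₀ (by positivity) (by norm_num)]
      nlinarith
  have hsin : ∀ j : ℕ, (-1 : ℝ) ^ j * Real.cos (m * th n j + α) =
      Real.sin (Real.pi * (4 * (l * j) + 1) / (2 * n)) := by
    intro j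
    have e1 : (m : ℝ) * th n j + α =
        (Real.pi / 2 - Real.pi * (4 * (l * j) + 1) / (2 * n)) + j * Real.pi := by
      rw [hαdef, hmn']; unfold th
      field_simp
      ring
    rw [e1, Real.cos_add_nat_mul_pi, Real.cos_pi_div_two_sub, ← mul_assoc, ← mul_pow]
    simp
  have hβ : ∀ j < n, Real.cos (m * th n j + α) ≠ 0 := by
    intro j _
    have h1 : (m : ℝ) * th n j + α =
        Real.pi * ((2 * (m * (2 * j + 1) + (2 * l - 1)) : ℤ) : ℝ) / (4 * ((n : ℤ) : ℝ)) := by
      rw [hαdef]; unfold th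
      push_cast
      field_simp
      ring
    intro h0
    have h2 := hsin j
    rw [h0, mul_zero] at h2
    have h3 := Real.sin_eq_zero_iff.mp h2.symm
    obtain ⟨k, hk⟩ := h3
    have h4 : (k : ℝ) * (2 * n) = 4 * (l * j) + 1 := by
      field_simp at hk
      linarith
    have h5 : k * (2 * n) = 4 * (l * j) + 1 := by exact_mod_cast h4
    have h6 : 2 * (k * n) = 2 * (2 * (l * j)) + 1 := by linarith
    omega
  obtain ⟨p, q, h1, h2, h3, h4⟩ := exists_poly hm hmn hα hβ
  refine ⟨p, q, h1, h2, h3, le_trans ?_ h4⟩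
  -- lower bound for the counts
  have hcnt : ∀ j ∈ Finset.range n, m + (if 2 * ((l * j) % n) < n then 2 else 0) ≤ cnt n m α j := by
    intro j _
    split_ifs with h
    · have hpos : 0 < (-1 : ℝ) ^ j * Real.cos (m * th n j + α) := by
        rw [hsin]
        set b := (l * j) % n with hb
        have hdm : l * j = n * ((l * j) / n) + b := (Nat.div_add_mod _ _).symm
        have e2 : Real.pi * (4 * ((l : ℝ) * j) + 1) / (2 * n) =
            Real.pi * (4 * b + 1) / (2 * n) + ((l * j / n : ℕ) : ℝ) * (2 * Real.pi) := by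
          have : (l : ℝ) * j = n * ((l * j / n : ℕ) : ℝ) + b := by exact_mod_cast hdm
          rw [this]
          field_simp
          ring
        rw [e2, Real.sin_add_nat_mul_two_pi]
        have hb2 : (4 * b + 1 : ℝ) < 2 * n := by
          have : 4 * b + 1 < 2 * n := by omega
          exact_mod_cast this
        apply Real.sin_pos_of_pos_of_lt_pi (by positivity)
        rw [div_lt_iff₀ (by positivity)]
        nlinarith
      unfold cnt
      have he : Even (n - m) := ⟨l, by omega⟩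
      rw [he.neg_one_pow, one_mul, if_pos hpos]
    · unfold cnt
      omega
  refine le_trans ?_ (Finset.sum_le_sum hcnt)
  rw [Finset.sum_add_distrib, Finset.sum_const, Finset.card_range, smul_eq_mul,
    ← Finset.sum_filter, Finset.sum_const, smul_eq_mul]
  have := count_aux (l := l) hn
  omega

/-- Lower bound. -/
theorem lower (n m : ℕ) (hm : 1 ≤ m) (hmn : m < n) :
    ∃ p q : ℂ[X], p.natDegree = n ∧ q.natDegree = m ∧ (zeros p q).Finite ∧
      lowerBound n m ≤ (zeros p q).ncard := by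
  unfold lowerBound
  split_ifs with h
  · exact lower_odd hm hmn h
  · rw [Nat.not_odd_iff_even] at h
    obtain ⟨l, hl⟩ := h
    have h2 : (n - m) / 2 = l := by omega
    rw [h2]
    exact lower_even hm hmn (by omega)

end Pool.Agent.H.MP_cd3d06_an
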