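import Mathlib
import Pool.Agent.H.MP_cd3d06_an.Defs
import Pool.Agent.H.MP_cd3d06_an.Lower

/-!
The arcs `Im T = 0` of the shifted Chebyshev polynomial, and the number of solutions of
`|2 Im (z^m)| = ε |T(z)|` on each of them.
-/

namespace Pool.Agent.H.MP_cd3d06_an.Cheb

open Polynomial ComplexConjugate Set Real

/-- the point `cos (v - i u) - 2` -/
noncomputable def zz (v u : ℝ) : ℂ := ⟨cosh u * cos v - 2, sinh u * sin v⟩

/-- the function whose level sets `± ε` give zeros -/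
noncomputable def GG (n m : ℕ) (v u : ℝ) : ℝ := 2 * (zz v u ^ m).im / cosh (n * u)

lemma zz_continuous (v : ℝ) : Continuous (zz v) := by
  have : zz v = fun u => ((cosh u * cos v - 2 : ℝ) : ℂ) + ((sinh u * sin v : ℝ) : ℂ) * Complex.I := by
    ext u
    exact (Complex.mk_eq_add_mul_I _ _)
  rw [this]
  fun_prop

lemma GG_continuous (n m : ℕ) (v : ℝ) : Continuous (GG n m v) := by
  unfold GG
  have h1 : Continuous fun u => (zz v u ^ m).im := Complex.continuous_im.comp ((zz_continuous v).pow m)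
  apply Continuous.div
  · fun_prop
  · fun_prop
  · intro u
    exact (cosh_pos _).ne'

lemma exists_U {v θ : ℝ} (hv : 0 < v) (hvθ : v < θ) (hθ : θ < π) :
    ∃ u : ℝ, 0 < u ∧ sin θ * (cosh u * cos v - 2) = cos θ * (sinh u * sin v) := by
  set g : ℝ → ℝ := fun u => sin θ * (cosh u * cos v - 2) - cos θ * (sinh u * sin v) with hg
  have hsθ : 0 < sin θ := sin_pos_of_pos_of_lt_pi (hv.trans hvθ) hθ
  have hδ : 0 < sin (θ - v) := sin_pos_of_pos_of_lt_pi (by linarith) (by linarith)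
  have hδ1 : sin (θ - v) ≤ 1 := sin_le_one _
  have h0 : g 0 < 0 := by
    simp only [hg, cosh_zero, sinh_zero]
    have := cos_le_one v
    nlinarith
  set B := Real.log (8 / sin (θ - v)) with hB
  have hB0 : 0 < B := Real.log_pos (by rw [lt_div_iff₀ hδ]; linarith)
  have hexp : Real.exp B = 8 / sin (θ - v) := Real.exp_log (by positivity)
  have hexpn : Real.exp (-B) = sin (θ - v) / 8 := by rw [Real.exp_neg, hexp, inv_div]
  have hform : g B = Real.exp B / 2 * sin (θ - v) + Real.exp (-B) / 2 * sin (θ + v) - 2 * sin θ := by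
    simp only [hg]
    rw [Real.cosh_eq, Real.sinh_eq, sin_sub, sin_add]
    ring
  have hBpos : 0 < g B := by
    rw [hform, hexp, hexpn]
    have e1 : 8 / sin (θ - v) / 2 * sin (θ - v) = 4 := by field_simp; norm_num
    rw [e1]
    have e2 : -1 ≤ sin (θ + v) := neg_one_le_sin _
    have e3 : sin θ ≤ 1 := sin_le_one _
    nlinarith
  have hcont : Continuous g := by simp only [hg]; fun_prop
  obtain ⟨r, h1, h2, h3⟩ := root_between hcont hB0 (mul_neg_of_neg_of_pos h0 hBpos)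
  refine ⟨r, h1, ?_⟩
  simp only [hg] at h3
  linarith

/-- the parameter of the point of the arc with argument `θ` -/
noncomputable def UU (v θ : ℝ) : ℝ :=
  if h : 0 < v ∧ v < θ ∧ θ < π then (exists_U h.1 h.2.1 h.2.2).choose else 0

lemma UU_pos {v θ : ℝ} (hv : 0 < v) (hvθ : v < θ) (hθ : θ < π) : 0 < UU v θ := by
  rw [UU, dif_pos ⟨hv, hvθ, hθ⟩]
  exact (exists_U hv hvθ hθ).choose_spec.1

lemma UU_spec {v θ : ℝ} (hv : 0 < v) (hvθ : v < θ) (hθ : θ < π) :
    sin θ * (cosh (UU v θ) * cos v - 2) = cos θ * (sinh (UU v θ) * sin v) := by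
  rw [UU, dif_pos ⟨hv, hvθ, hθ⟩]
  exact (exists_U hv hvθ hθ).choose_spec.2

lemma UU_anti {v θ₁ θ₂ : ℝ} (hv : 0 < v) (hv1 : v < θ₁) (h12 : θ₁ < θ₂) (hθ : θ₂ < π) :
    UU v θ₂ < UU v θ₁ := by
  by_contra hcon
  push Not at hcon
  have hp1 := UU_pos hv hv1 (h12.trans hθ)
  have hs1 := UU_spec hv hv1 (h12.trans hθ)
  have hp2 := UU_pos hv (hv1.trans h12) hθ
  have hs2 := UU_spec hv (hv1.trans h12) hθ
  set u₁ := UU v θ₁
  set u₂ := UU v θ₂
  have hsv : 0 < sin v := sin_pos_of_pos_of_lt_pi hv (by linarith)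
  have hs1' : 0 < sin θ₁ := sin_pos_of_pos_of_lt_pi (by linarith) (by linarith)
  have hs2' : 0 < sin θ₂ := sin_pos_of_pos_of_lt_pi (by linarith) (by linarith)
  have hsh1 : 0 < sinh u₁ := sinh_pos_iff.2 hp1
  have hsh2 : 0 < sinh u₂ := sinh_pos_iff.2 hp2
  -- `sin (θ₂ - θ₁) > 0`
  have hδ : 0 < sin (θ₂ - θ₁) := sin_pos_of_pos_of_lt_pi (by linarith) (by linarith)
  rw [sin_sub] at hδ
  -- cross products
  have hkey : (cosh u₁ * cos v - 2) * sinh u₂ ≤ (cosh u₂ * cos v - 2) * sinh u₁ := by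
    have hd0 : 0 ≤ u₂ - u₁ := by linarith
    have hd1 : 0 ≤ sinh (u₂ - u₁) := sinh_nonneg_iff.2 hd0
    have e1 : sinh (u₂ - u₁) = sinh u₂ * cosh u₁ - cosh u₂ * sinh u₁ := sinh_sub _ _
    have e2 : sinh u₂ = sinh u₁ * cosh (u₂ - u₁) + cosh u₁ * sinh (u₂ - u₁) := by
      rw [← sinh_add]; congr 1; ring
    have e3 : 1 ≤ cosh (u₂ - u₁) := one_le_cosh _
    have e4 : 1 ≤ cosh u₁ := one_le_cosh _
    have e5 : sinh u₁ + sinh (u₂ - u₁) ≤ sinh u₂ := by
      rw [e2]; nlinarith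
    have e6 : cos v ≤ 1 := cos_le_one _
    nlinarith
  have h3 : sin θ₁ * sin θ₂ * ((cosh u₁ * cos v - 2) * sinh u₂) =
      cos θ₁ * sin θ₂ * (sinh u₁ * sin v * sinh u₂) := by
    linear_combination (sin θ₂ * sinh u₂) * hs1
  have h4 : sin θ₁ * sin θ₂ * ((cosh u₂ * cos v - 2) * sinh u₁) =
      cos θ₂ * sin θ₁ * (sinh u₁ * sin v * sinh u₂) := by
    linear_combination (sin θ₁ * sinh u₁) * hs2
  have h5 : 0 < sinh u₁ * sin v * sinh u₂ := by positivity
  have h6 : sin θ₁ * sin θ₂ * ((cosh u₁ * cos v - 2) * sinh u₂) ≤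
      sin θ₁ * sin θ₂ * ((cosh u₂ * cos v - 2) * sinh u₁) :=
    mul_le_mul_of_nonneg_left hkey (by positivity)
  rw [h3, h4] at h6
  nlinarith

lemma zz_UU {v θ : ℝ} (hv : 0 < v) (hvθ : v < θ) (hθ : θ < π) :
    ∃ ρ : ℝ, 0 < ρ ∧ zz v (UU v θ) = (ρ : ℂ) * Complex.exp (θ * Complex.I) := by
  have hp := UU_pos hv hvθ hθ
  have hs := UU_spec hv hvθ hθ
  have hsv : 0 < sin v := sin_pos_of_pos_of_lt_pi hv (by linarith)
  have hsθ : 0 < sin θ := sin_pos_of_pos_of_lt_pi (by linarith) (by linarith)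
  have hsh : 0 < sinh (UU v θ) := sinh_pos_iff.2 hp
  refine ⟨sinh (UU v θ) * sin v / sin θ, by positivity, ?_⟩
  apply Complex.ext
  · rw [Complex.re_ofReal_mul, Complex.exp_ofReal_mul_I_re]
    simp only [zz]
    field_simp
    linarith
  · rw [Complex.im_ofReal_mul, Complex.exp_ofReal_mul_I_im]
    simp only [zz]
    field_simp

lemma GG_UU (n m : ℕ) {v θ : ℝ} (hv : 0 < v) (hvθ : v < θ) (hθ : θ < π) :
    ∃ c : ℝ, 0 < c ∧ GG n m v (UU v θ) = c * sin (m * θ) := by
  obtain ⟨ρ, hρ, h⟩ := zz_UU hv hvθ hθ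
  refine ⟨2 * ρ ^ m / cosh (n * UU v θ), by have := cosh_pos (n * UU v θ); positivity, ?_⟩
  rw [GG, h, mul_pow, ← Complex.exp_nat_mul, ← Complex.ofReal_pow]
  have : (m : ℂ) * (θ * Complex.I) = ((m * θ : ℝ) : ℂ) * Complex.I := by push_cast; ring
  rw [this, Complex.im_ofReal_mul, Complex.exp_ofReal_mul_I_im]
  ring

lemma GG_zero (n m : ℕ) (v : ℝ) : GG n m v 0 = 0 := by
  have : zz v 0 = ((cos v - 2 : ℝ) : ℂ) := by
    apply Complex.ext
    · rw [Complex.ofReal_re]; simp [zz]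
    · rw [Complex.ofReal_im]; simp [zz]
  rw [GG, this, ← Complex.ofReal_pow, Complex.ofReal_im]
  simp

lemma GG_far {n m : ℕ} (hmn : m < n) (v : ℝ) {u : ℝ} (hu : 0 ≤ u) :
    |GG n m v u| ≤ 4 * 3 ^ m * Real.exp (-u) := by
  have h1 : ‖zz v u‖ ≤ 3 * Real.exp u := by
    have := Complex.norm_le_abs_re_add_abs_im (zz v u)
    refine this.trans ?_
    simp only [zz]
    have h2 : |cosh u * cos v - 2| ≤ cosh u + 2 := by
      have a1 := abs_cos_le_one v
      have a2 := cosh_pos u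
      calc |cosh u * cos v - 2| ≤ |cosh u * cos v| + |2| := abs_sub _ _
        _ = cosh u * |cos v| + 2 := by rw [abs_mul, abs_of_pos a2]; norm_num
        _ ≤ cosh u + 2 := by nlinarith
    have h3 : |sinh u * sin v| ≤ sinh u := by
      have a1 := abs_sin_le_one v
      have a2 : 0 ≤ sinh u := sinh_nonneg_iff.2 hu
      rw [abs_mul, abs_of_nonneg a2]
      nlinarith [abs_nonneg (sin v)]
    have h4 : cosh u + sinh u = Real.exp u := Real.cosh_add_sinh u
    have h5 : 1 ≤ Real.exp u := Real.one_le_exp hu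
    linarith
  have h2 : |(zz v u ^ m).im| ≤ 3 ^ m * Real.exp (m * u) := by
    calc |(zz v u ^ m).im| ≤ ‖zz v u ^ m‖ := Complex.abs_im_le_norm _
      _ = ‖zz v u‖ ^ m := norm_pow _ _
      _ ≤ (3 * Real.exp u) ^ m := pow_le_pow_left₀ (norm_nonneg _) h1 m
      _ = 3 ^ m * Real.exp (m * u) := by rw [mul_pow, ← Real.exp_nat_mul]
  have h3 : Real.exp (n * u) / 2 ≤ cosh (n * u) := by
    rw [Real.cosh_eq]
    have := Real.exp_pos (-(n * u))
    linarith
  have hc := cosh_pos (n * u)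
  rw [GG, abs_div, abs_of_pos hc, div_le_iff₀ hc, abs_mul]
  have h4 : Real.exp (m * u) ≤ Real.exp (-u) * Real.exp (n * u) := by
    rw [← Real.exp_add]
    apply Real.exp_le_exp.2
    have : (m : ℝ) + 1 ≤ n := by exact_mod_cast hmn
    nlinarith
  calc |(2 : ℝ)| * |(zz v u ^ m).im| ≤ 2 * (3 ^ m * Real.exp (m * u)) := by
        rw [abs_two]; linarith
    _ ≤ 2 * (3 ^ m * (Real.exp (-u) * Real.exp (n * u))) := by
        have : (0 : ℝ) < 3 ^ m := by positivity
        gcongr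
    _ = 4 * 3 ^ m * Real.exp (-u) * (Real.exp (n * u) / 2) := by ring
    _ ≤ 4 * 3 ^ m * Real.exp (-u) * cosh (n * u) := by gcongr

/-- number of solutions on one arc -/
lemma arc {n m k : ℕ} (hm : 1 ≤ m) (hmn : m < n) (hk : 1 ≤ k) (hkn : k < n) :
    ∃ ε₀ : ℝ, 0 < ε₀ ∧ ∀ ε : ℝ, 0 < ε → ε < ε₀ →
      ∃ S : Finset ℝ, S.card = 2 * (m - k * m / n) ∧
        ∀ u ∈ S, 0 < u ∧ |GG n m (k * π / n) u| = ε := by
  have hπ := pi_pos
  have hn0 : (0 : ℝ) < n := by exact_mod_cast (by omega : 0 < n)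
  have hm0 : (0 : ℝ) < m := by exact_mod_cast (by omega : 0 < m)
  set v : ℝ := k * π / n with hv
  have hv0 : 0 < v := by
    have : (0 : ℝ) < k := by exact_mod_cast hk
    positivity
  set q := k * m / n with hq
  -- `q ≤ k m / n < q + 1`
  have hq1 : q * n ≤ k * m := Nat.div_mul_le_self _ _
  have hq2 : k * m < (q + 1) * n := by
    exact (Nat.div_lt_iff_lt_mul (by omega)).1 (Nat.lt_succ_self _)
  have hqm : q < m := by
    rw [hq, Nat.div_lt_iff_lt_mul (by omega)]
    calc k * m < n * m := Nat.mul_lt_mul_of_pos_right hkn (by omega)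
      _ = m * n := mul_comm _ _
  set M := m - q with hM
  have hM1 : 1 ≤ M := by omega
  have hMm : M ≤ m := Nat.sub_le _ _
  have hMq : M + q = m := by omega
  clear_value M
  have hvq1 : q * π / m ≤ v := by
    rw [hv, div_le_div_iff₀ hm0 hn0]
    have : (q : ℝ) * n ≤ k * m := by exact_mod_cast hq1
    nlinarith
  have hvq2 : v < (q + 1) * π / m := by
    rw [hv, div_lt_div_iff₀ hn0 hm0]
    have : (k : ℝ) * m < (q + 1) * n := by exact_mod_cast hq2
    nlinarith
  set η : ℝ := ((q + 1) * π / m - v) / 2 with hη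
  have hη0 : 0 < η := by rw [hη]; linarith
  have hη1 : m * η < π := by
    have h1 : (q + 1) * π / m - v ≤ π / m := by
      have : (q + 1 : ℝ) * π / m = q * π / m + π / m := by ring
      linarith
    have h2 : η < π / m := by
      rw [hη]
      have : 0 < π / m := by positivity
      linarith
    calc m * η < m * (π / m) := by gcongr
      _ = π := by field_simp
  -- the angles
  set al : ℕ → ℝ := fun j => ((m - (j / 2 : ℕ) : ℕ) : ℝ) * π / m - (if Odd j then η else 0) with hal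
  have hal_even : ∀ i, al (2 * i) = ((m - i : ℕ) : ℝ) * π / m := by
    intro i
    have h1 : 2 * i / 2 = i := by omega
    have h2 : ¬ Odd (2 * i) := by simp
    simp only [hal, h1, if_neg h2, sub_zero]
  have hal_odd : ∀ i, al (2 * i + 1) = ((m - i : ℕ) : ℝ) * π / m - η := by
    intro i
    have h1 : (2 * i + 1) / 2 = i := by omega
    have h2 : Odd (2 * i + 1) := by simp
    simp only [hal, h1, if_pos h2]
  have hge : ∀ i, i < M → (q + 1) * π / m ≤ ((m - i : ℕ) : ℝ) * π / m := by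
    intro i hi
    have : ((q + 1 : ℕ) : ℝ) ≤ ((m - i : ℕ) : ℝ) := by exact_mod_cast (by omega : q + 1 ≤ m - i)
    push_cast at this
    gcongr
  have hle : ∀ i, ((m - i : ℕ) : ℝ) * π / m ≤ π := by
    intro i
    have : ((m - i : ℕ) : ℝ) ≤ m := by exact_mod_cast (by omega : m - i ≤ m)
    rw [div_le_iff₀ hm0]
    nlinarith
  have hlt : ∀ i, 1 ≤ i → ((m - i : ℕ) : ℝ) * π / m < π := by
    intro i hi
    have : ((m - i : ℕ) : ℝ) < m := by exact_mod_cast (by omega : m - i < m)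
    rw [div_lt_iff₀ hm0]
    nlinarith
  have hal1 : ∀ j, 1 ≤ j → j < 2 * M → v < al j ∧ al j < π := by
    intro j hj1 hj2
    rcases Nat.even_or_odd' j with ⟨i, rfl | rfl⟩
    · rw [hal_even]
      exact ⟨lt_of_lt_of_le hvq2 (hge i (by omega)), hlt i (by omega)⟩
    · rw [hal_odd]
      have h1 := hge i (by omega)
      have h2 := hle i
      refine ⟨?_, by linarith⟩
      have : (q + 1) * π / m = v + 2 * η := by rw [hη]; ring
      linarith
  have hal2 : ∀ j, 1 ≤ j → j + 1 < 2 * M → al (j + 1) < al j := by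
    intro j hj1 hj2
    rcases Nat.even_or_odd' j with ⟨i, rfl | rfl⟩
    · rw [hal_even, hal_odd]
      linarith
    · rw [hal_odd, show 2 * i + 1 + 1 = 2 * (i + 1) by ring, hal_even]
      have h0 : m - i = (m - (i + 1)) + 1 := by omega
      have h1 : ((m - i : ℕ) : ℝ) = ((m - (i + 1) : ℕ) : ℝ) + 1 := by
        rw [h0]; push_cast; ring
      rw [h1]
      have h2 : η < π / m := by rw [lt_div_iff₀ hm0]; linarith
      have h3 : (((m - (i + 1) : ℕ) : ℝ) + 1) * π / m = ((m - (i + 1) : ℕ) : ℝ) * π / m + π / m := by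
        ring
      rw [h3]
      linarith
  -- the values
  have hval_even : ∀ i, 1 ≤ i → i < M → GG n m v (UU v (al (2 * i))) = 0 := by
    intro i h1 h2
    obtain ⟨a1, a2⟩ := hal1 (2 * i) (by omega) (by omega)
    obtain ⟨c, _, hc⟩ := GG_UU n m hv0 a1 a2
    rw [hc, hal_even]
    have : (m : ℝ) * (((m - i : ℕ) : ℝ) * π / m) = ((m - i : ℕ) : ℝ) * π := by field_simp
    rw [this, Real.sin_nat_mul_pi, mul_zero]
  have hval_odd : ∀ i, i < M → GG n m v (UU v (al (2 * i + 1))) ≠ 0 := by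
    intro i h2
    obtain ⟨a1, a2⟩ := hal1 (2 * i + 1) (by omega) (by omega)
    obtain ⟨c, hc0, hc⟩ := GG_UU n m hv0 a1 a2
    rw [hc, hal_odd]
    have : (m : ℝ) * (((m - i : ℕ) : ℝ) * π / m - η) = ((m - i : ℕ) : ℝ) * π - m * η := by
      field_simp
    rw [this, Real.sin_nat_mul_pi_sub]
    have h3 : 0 < sin (m * η) := sin_pos_of_pos_of_lt_pi (by positivity) hη1
    have h4 : ((-1 : ℝ) ^ (m - i)) ≠ 0 := pow_ne_zero _ (by norm_num)
    exact mul_ne_zero hc0.ne' (neg_ne_zero.2 (mul_ne_zero h4 h3.ne'))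
  obtain ⟨i₀, hi₀, hmin⟩ := Finset.exists_min_image (Finset.range M)
    (fun i => |GG n m v (UU v (al (2 * i + 1)))|) ⟨0, Finset.mem_range.2 hM1⟩
  rw [Finset.mem_range] at hi₀
  refine ⟨|GG n m v (UU v (al (2 * i₀ + 1)))|, abs_pos.2 (hval_odd i₀ hi₀), ?_⟩
  intro ε hε hεlt
  have hpos : ∀ i, i < M → ε < |GG n m v (UU v (al (2 * i + 1)))| := fun i hi =>
    lt_of_lt_of_le hεlt (hmin i (Finset.mem_range.2 hi))
  -- the last point
  set B : ℝ := max (UU v (al (2 * M - 1)) + 1) (Real.log (4 * 3 ^ m / ε) + 1) with hB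
  have hU0 : ∀ j, 1 ≤ j → j < 2 * M → 0 < UU v (al j) := fun j h1 h2 =>
    UU_pos hv0 (hal1 j h1 h2).1 (hal1 j h1 h2).2
  have hB1 : UU v (al (2 * M - 1)) < B := lt_of_lt_of_le (by linarith) (le_max_left _ _)
  have hB0 : 0 < B := (hU0 _ (by omega) (by omega)).trans hB1
  have hBval : |GG n m v B| < ε := by
    refine lt_of_le_of_lt (GG_far hmn v hB0.le) ?_
    have h1 : Real.log (4 * 3 ^ m / ε) < B := lt_of_lt_of_le (by linarith) (le_max_right _ _)
    have h2 : Real.exp (-B) < Real.exp (-(Real.log (4 * 3 ^ m / ε))) := Real.exp_lt_exp.2 (by linarith)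
    rw [Real.exp_neg (Real.log _), Real.exp_log (by positivity)] at h2
    calc 4 * 3 ^ m * Real.exp (-B) < 4 * 3 ^ m * (4 * 3 ^ m / ε)⁻¹ := by gcongr
      _ = ε := by field_simp
  set y : ℕ → ℝ := fun j => if j = 0 then 0 else if j < 2 * M then UU v (al j) else B with hy
  have hy0 : y 0 = 0 := by simp [hy]
  have hy1 : ∀ j, 1 ≤ j → j < 2 * M → y j = UU v (al j) := by
    intro j h1 h2
    simp only [hy, if_neg (by omega : ¬ j = 0), if_pos h2]
  have hy2 : y (2 * M) = B := by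
    simp only [hy, if_neg (by omega : ¬ 2 * M = 0), if_neg (lt_irrefl _)]
  have hinc : ∀ i < 2 * M, y i < y (i + 1) := by
    intro i hi
    rcases Nat.eq_zero_or_pos i with h0 | h0
    · subst h0
      rw [hy0, zero_add, hy1 1 le_rfl (by omega)]
      exact hU0 1 le_rfl (by omega)
    · rcases Nat.lt_or_ge (i + 1) (2 * M) with h1 | h1
      · rw [hy1 i h0 hi, hy1 (i + 1) (by omega) h1]
        exact UU_anti hv0 (hal1 (i + 1) (by omega) h1).1 (hal2 i h0 h1) (hal1 i h0 hi).2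
      · have h2 : i + 1 = 2 * M := by omega
        rw [hy1 i h0 hi, h2, hy2]
        have : i = 2 * M - 1 := by omega
        rw [this]
        exact hB1
  have hsgn_even : ∀ i, i ≤ M → |GG n m v (y (2 * i))| - ε < 0 := by
    intro i hi
    rcases Nat.eq_zero_or_pos i with h0 | h0
    · subst h0
      rw [mul_zero, hy0, GG_zero]
      simpa using hε
    · rcases Nat.lt_or_ge i M with h1 | h1
      · rw [hy1 (2 * i) (by omega) (by omega), hval_even i h0 h1]
        simpa using hε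
      · have : i = M := by omega
        rw [this, hy2]
        linarith
  have hsgn_odd : ∀ i, i < M → 0 < |GG n m v (y (2 * i + 1))| - ε := by
    intro i hi
    rw [hy1 (2 * i + 1) (by omega) (by omega)]
    linarith [hpos i hi]
  obtain ⟨S, hS1, hS2, hS3, -⟩ := roots_of_alternating (f := fun u => |GG n m v u| - ε)
    (((GG_continuous n m v).abs).sub continuous_const) y (2 * M) hinc (by
      intro i hi
      rcases Nat.even_or_odd' i with ⟨j, rfl | rfl⟩
      · exact mul_neg_of_neg_of_pos (hsgn_even j (by omega)) (hsgn_odd j (by omega))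
      · exact mul_neg_of_pos_of_neg (hsgn_odd j (by omega)) (hsgn_even (j + 1) (by omega)))
  refine ⟨S, hS1, fun u hu => ⟨?_, ?_⟩⟩
  · have := (hS3 u hu).1
    rwa [hy0] at this
  · have := hS2 u hu
    linarith

end Pool.Agent.H.MP_cd3d06_an.Cheb
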