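import Mathlib
import Pool.Agent.H.MP_cd3d06_an.Defs

/-!
The arithmetic identity `n + ∑_{0<k<n} 2 (m - ⌊km/n⌋) = (m+2) n - m - gcd(m,n)`.
-/

namespace Pool.Agent.H.MP_cd3d06_an.Cheb

lemma dvd_mul_iff {n m k : ℕ} (hn : 1 ≤ n) :
    n ∣ k * m ↔ n / Nat.gcd m n ∣ k := by
  set g := Nat.gcd m n with hg
  have hg0 : 0 < g := Nat.gcd_pos_of_pos_right m (by omega)
  obtain ⟨n', hn'⟩ : g ∣ n := Nat.gcd_dvd_right m n
  obtain ⟨m', hm'⟩ : g ∣ m := Nat.gcd_dvd_left m n
  have hcop : Nat.Coprime m' n' := by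
    have h1 : g = g * Nat.gcd m' n' := by
      conv_lhs => rw [hg, hn', hm', Nat.gcd_mul_left]
    have h2 : g * 1 = g * Nat.gcd m' n' := by rw [mul_one]; exact h1
    exact (Nat.eq_of_mul_eq_mul_left hg0 h2).symm
  have hdiv : n / g = n' := by rw [hn']; exact Nat.mul_div_cancel_left _ hg0
  rw [hdiv]
  conv_lhs => rw [hn', hm', show k * (g * m') = g * (k * m') by ring]
  rw [Nat.mul_dvd_mul_iff_left hg0]
  exact hcop.symm.dvd_mul_right

lemma card_dvd {n m : ℕ} (hn : 1 ≤ n) :
    ((Finset.Ico 1 n).filter fun k => n ∣ k * m).card + 1 = Nat.gcd m n := by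
  set g := Nat.gcd m n with hg
  have hg0 : 0 < g := Nat.gcd_pos_of_pos_right m (by omega)
  have hgn : g ∣ n := Nat.gcd_dvd_right m n
  have h1 : ((Finset.Ioc 0 n).filter fun k => n / g ∣ k).card = n / (n / g) :=
    Nat.Ioc_filter_dvd_card_eq_div _ _
  have h2 : n / (n / g) = g := Nat.div_div_self hgn (by omega)
  have h3 : (Finset.Ioc 0 n).filter (fun k => n / g ∣ k) =
      insert n ((Finset.Ico 1 n).filter fun k => n ∣ k * m) := by
    ext k
    rw [Finset.mem_insert, Finset.mem_filter, Finset.mem_filter, Finset.mem_Ioc, Finset.mem_Ico,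
      dvd_mul_iff hn, ← hg]
    constructor
    · rintro ⟨⟨a, b⟩, c⟩
      rcases Nat.lt_or_ge k n with h | h
      · exact Or.inr ⟨⟨a, h⟩, c⟩
      · exact Or.inl (by omega)
    · rintro (rfl | ⟨⟨a, b⟩, c⟩)
      · exact ⟨⟨by omega, le_rfl⟩, Nat.div_dvd_of_dvd hgn⟩
      · exact ⟨⟨by omega, by omega⟩, c⟩
  rw [h3, Finset.card_insert_of_notMem (by simp), h2] at h1
  exact h1

lemma floor_pair {n m k : ℕ} (_hm : 1 ≤ m) (hk : 1 ≤ k) (hkn : k < n) :
    k * m / n + (n - k) * m / n + 1 = m + if n ∣ k * m then 1 else 0 := by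
  have hn : 0 < n := by omega
  obtain ⟨j, hj⟩ : ∃ j, n = k + j := ⟨n - k, by omega⟩
  have hj' : n - k = j := by omega
  rw [hj']
  have h1 : k * m + j * m = m * n := by rw [hj]; ring
  have d1 := Nat.div_add_mod (k * m) n
  have d2 := Nat.div_add_mod (j * m) n
  have r1 := Nat.mod_lt (k * m) hn
  have r2 := Nat.mod_lt (j * m) hn
  set a := k * m / n
  set b := j * m / n
  set r := k * m % n with hr
  set s := j * m % n with hs
  have h2 : n * (a + b) + (r + s) = n * m := by rw [mul_comm n m, ← h1, mul_add]; omega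
  have h3 : a + b ≤ m := by
    by_contra h
    have : n * m < n * (a + b) := Nat.mul_lt_mul_of_pos_left (by omega) hn
    omega
  obtain ⟨c, hc⟩ : ∃ c, m = a + b + c := ⟨m - (a + b), by omega⟩
  have h4 : r + s = n * c := by
    have : n * m = n * (a + b) + n * c := by rw [hc]; ring
    omega
  have h5 : c < 2 := by
    by_contra h
    have : n * 2 ≤ n * c := Nat.mul_le_mul_left _ (by omega)
    omega
  by_cases hd : n ∣ k * m
  · rw [if_pos hd]
    have hr0 : r = 0 := Nat.mod_eq_zero_of_dvd hd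
    have : c = 0 := by
      by_contra h
      have : n * 1 ≤ n * c := Nat.mul_le_mul_left _ (by omega)
      omega
    omega
  · rw [if_neg hd]
    have hr0 : r ≠ 0 := fun h => hd (Nat.dvd_of_mod_eq_zero h)
    have : c ≠ 0 := by
      rintro rfl
      omega
    omega

lemma sum_floor {n m : ℕ} (hm : 1 ≤ m) (hn : 1 ≤ n) :
    2 * ∑ k ∈ Finset.Ico 1 n, k * m / n + n = (n - 1) * m + Nat.gcd m n := by
  have h1 : ∑ k ∈ Finset.Ico 1 n, k * m / n = ∑ k ∈ Finset.Ico 1 n, (n - k) * m / n := by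
    apply Finset.sum_nbij' (fun k => n - k) (fun k => n - k)
    · intro k hk; rw [Finset.mem_Ico] at *; omega
    · intro k hk; rw [Finset.mem_Ico] at *; omega
    · intro k hk; rw [Finset.mem_Ico] at *; omega
    · intro k hk; rw [Finset.mem_Ico] at *; omega
    · intro k hk
      rw [Finset.mem_Ico] at hk
      have : n - (n - k) = k := by omega
      rw [this]
  have h2 : ∑ k ∈ Finset.Ico 1 n, (k * m / n + (n - k) * m / n + 1) =
      ∑ k ∈ Finset.Ico 1 n, (m + if n ∣ k * m then 1 else 0) := by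
    apply Finset.sum_congr rfl
    intro k hk
    rw [Finset.mem_Ico] at hk
    exact floor_pair hm hk.1 hk.2
  rw [Finset.sum_add_distrib, Finset.sum_add_distrib, ← h1, Finset.sum_add_distrib,
    ← Finset.card_filter] at h2
  simp only [Finset.sum_const, Nat.card_Ico, smul_eq_mul, mul_one] at h2
  have h3 := card_dvd (n := n) (m := m) hn
  omega

/-- the count -/
lemma count {n m : ℕ} (hm : 1 ≤ m) (hmn : m < n) :
    n + ∑ k ∈ Finset.Ico 1 n, 2 * (m - k * m / n) + m + Nat.gcd m n = (m + 2) * n := by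
  have h1 := sum_floor hm (show 1 ≤ n by omega)
  have h2 : ∑ k ∈ Finset.Ico 1 n, 2 * (m - k * m / n) + 2 * ∑ k ∈ Finset.Ico 1 n, k * m / n =
      (n - 1) * (2 * m) := by
    rw [Finset.mul_sum, ← Finset.sum_add_distrib]
    rw [Finset.sum_congr rfl (g := fun _ => 2 * m)]
    · simp [Nat.card_Ico]
    · intro k hk
      rw [Finset.mem_Ico] at hk
      have : k * m / n ≤ m := by
        calc k * m / n ≤ n * m / n := Nat.div_le_div_right (Nat.mul_le_mul_right _ hk.2.le)
          _ = m := Nat.mul_div_cancel_left _ (by omega)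
      omega
  obtain ⟨N, rfl⟩ : ∃ N, n = N + 1 := ⟨n - 1, by omega⟩
  simp only [Nat.add_sub_cancel] at h1 h2
  nlinarith

end Pool.Agent.H.MP_cd3d06_an.Cheb
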