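import Pool.Agent.H.MP_cd3d06_an.Upper

/-!
The upper bound for arbitrary `p`, and its corollaries.
-/

namespace Pool.Agent.H.MP_cd3d06_an

open Polynomial ComplexConjugate Finset

theorem zeros_scale {p q : ℂ[X]} {a : ℂ} (ha : a ≠ 0) :
    zeros (C a * p) (C (conj a) * q) = zeros p q := by
  ext z
  simp only [zeros, Set.mem_ofPred_eq, eval_mul, eval_C, map_mul, Complex.conj_conj]
  rw [← mul_add, mul_eq_zero]
  constructor
  · rintro (h | h)
    · exact absurd h ha
    · exact h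
  · exact Or.inr

/-- General upper bound. -/
theorem upper_general {p q : ℂ[X]} {n m : ℕ} (hpn : p.natDegree = n) (hqm : q.natDegree = m)
    (hm : 1 ≤ m) (hmn : m < n) {T b : ℕ} (hb1 : 1 ≤ b) (hbT : b ≤ T) (hT : T ≤ n)
    (hb : 2 * b ≤ n) :
    (zeros p q).Finite ∧ (zeros p q).ncard + b * (2 * T + 1) ≤
      n ^ 2 + 3 * b ^ 2 + 2 * ∑ k ∈ Icc 1 n, (min b (T - (n - m) * k)) ^ 2 := by
  have hp0 : p ≠ 0 := by rintro rfl; simp at hpn; omega
  have ha : p.leadingCoeff ≠ 0 := leadingCoeff_ne_zero.2 hp0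
  have hca : conj (p.leadingCoeff)⁻¹ ≠ 0 := by
    rw [Ne, map_eq_zero]; exact inv_ne_zero ha
  have h1 : (C (p.leadingCoeff)⁻¹ * p).Monic := by
    rw [Monic, leadingCoeff_mul, leadingCoeff_C, inv_mul_cancel₀ ha]
  have h2 : (C (p.leadingCoeff)⁻¹ * p).natDegree = n := by
    rw [natDegree_C_mul (inv_ne_zero ha), hpn]
  have h3 : (C (conj (p.leadingCoeff)⁻¹) * q).natDegree = m := by
    rw [natDegree_C_mul hca, hqm]
  obtain ⟨h4, h5⟩ := upper_monic h1 (q := C (conj (p.leadingCoeff)⁻¹) * q) (by omega) (by omega)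
    hb1 hbT (by omega) (by omega)
  rw [zeros_scale (inv_ne_zero ha)] at h4 h5
  refine ⟨h4, ?_⟩
  rw [h2, h3] at h5
  have h6 : ∑ k ∈ range n, (min b (T - (n - m) * (k + 1))) ^ 2 =
      ∑ k ∈ Icc 1 n, (min b (T - (n - m) * k)) ^ 2 := by
    have e : Icc 1 n = Ico 1 (n + 1) := by ext; simp only [mem_Icc, mem_Ico]; omega
    rw [e, Finset.sum_Ico_eq_sum_range]
    simp only [Nat.add_sub_cancel, add_comm 1]
  rw [h6] at h5
  obtain ⟨c, rfl⟩ : ∃ c, T = b + c := ⟨T - b, by omega⟩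
  have h7 : b + c - b = c := by omega
  rw [h7] at h5
  nlinarith

/-- The case of functions of one variable. -/
theorem upper_one {p q : ℂ[X]} {n m : ℕ} (hpn : p.natDegree = n) (hqm : q.natDegree = m)
    (hm : 1 ≤ m) (hmn : m < n) :
    (zeros p q).Finite ∧ (zeros p q).ncard + 2 * (n - 1) ≤ n ^ 2 + 2 * ((n - 1) / (n - m)) := by
  obtain ⟨h1, h2⟩ := upper_general hpn hqm hm hmn (T := n) (b := 1) le_rfl (by omega) le_rfl
    (by omega)
  refine ⟨h1, ?_⟩
  have h3 : ∑ k ∈ Icc 1 n, (min 1 (n - (n - m) * k)) ^ 2 ≤ (n - 1) / (n - m) := by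
    have h4 : ∀ k ∈ Icc 1 n, (min 1 (n - (n - m) * k)) ^ 2 ≤
        if k ∈ Icc 1 ((n - 1) / (n - m)) then 1 else 0 := by
      intro k hk
      rw [mem_Icc] at hk
      by_cases h5 : k ∈ Icc 1 ((n - 1) / (n - m))
      · rw [if_pos h5]
        exact (Nat.pow_le_pow_left (min_le_left _ _) 2).trans (by norm_num)
      · rw [if_neg h5]
        rw [mem_Icc, not_and_or] at h5
        have h6 : (n - 1) / (n - m) < k := by omega
        rw [Nat.div_lt_iff_lt_mul (by omega)] at h6
        have h7 : n - (n - m) * k = 0 := by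
          rw [mul_comm] at h6
          omega
        rw [h7]
        simp
    refine (sum_le_sum h4).trans ?_
    rw [← sum_filter, sum_const, smul_eq_mul, mul_one]
    refine (card_le_card (t := Icc 1 ((n - 1) / (n - m))) ?_).trans ?_
    · intro k hk
      exact (mem_filter.1 hk).2
    · rw [Nat.card_Icc, Nat.add_sub_cancel]
  obtain ⟨K, hK⟩ : ∃ K, (n - 1) / (n - m) = K := ⟨_, rfl⟩
  rw [hK] at h3 ⊢
  omega

/-- A bound that improves `n ^ 2` by a quadratic amount. -/
theorem upper_third {p q : ℂ[X]} {n m : ℕ} (hpn : p.natDegree = n) (hqm : q.natDegree = m)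
    (hm : 1 ≤ m) (hmn : m < n) :
    (zeros p q).ncard + (n - m) * (n - m + 1) / 3 ≤ n ^ 2 := by
  obtain ⟨D, hD⟩ : ∃ D, n - m = D := ⟨_, rfl⟩
  rw [hD]
  rcases Nat.lt_or_ge D 2 with h2 | h2
  · have hD1 : D = 1 := by omega
    subst hD1
    have h3 := (upper_one hpn hqm hm hmn).2
    rw [hD] at h3
    simp only [Nat.div_one] at h3
    have : 1 * (1 + 1) / 3 = 0 := by norm_num
    omega
  · have h3 := (upper_general hpn hqm hm hmn (T := D) (b := (D + 1) / 3) (by omega) (by omega)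
      (by omega) (by omega)).2
    have h4 : ∑ k ∈ Icc 1 n, (min ((D + 1) / 3) (D - (n - m) * k)) ^ 2 = 0 := by
      refine sum_eq_zero fun k hk => ?_
      rw [mem_Icc] at hk
      have : D - (n - m) * k = 0 := by
        rw [hD, Nat.sub_eq_zero_iff_le]
        exact Nat.le_mul_of_pos_right D (by omega)
      rw [this]
      simp
    rw [h4] at h3
    obtain ⟨j, hj⟩ : ∃ j, D = 3 * j ∨ D = 3 * j + 1 ∨ D = 3 * j + 2 :=
      ⟨D / 3, by omega⟩
    rcases hj with rfl | rfl | rfl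
    · have e1 : (3 * j + 1) / 3 = j := by omega
      have e2 : 3 * j * (3 * j + 1) / 3 = j * (3 * j + 1) := by
        rw [mul_assoc]; exact Nat.mul_div_cancel_left _ (by norm_num)
      rw [e1] at h3
      rw [e2]
      nlinarith
    · have e1 : (3 * j + 1 + 1) / 3 = j := by omega
      have e2 : (3 * j + 1) * (3 * j + 1 + 1) / 3 = j * (3 * j + 3) := by
        have : (3 * j + 1) * (3 * j + 1 + 1) = 3 * (j * (3 * j + 3)) + 2 := by ring
        rw [this]; omega
      rw [e1] at h3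
      rw [e2]
      nlinarith
    · have e1 : (3 * j + 2 + 1) / 3 = j + 1 := by omega
      have e2 : (3 * j + 2) * (3 * j + 2 + 1) / 3 = (3 * j + 2) * (j + 1) := by
        have : (3 * j + 2) * (3 * j + 2 + 1) = 3 * ((3 * j + 2) * (j + 1)) := by ring
        rw [this]; exact Nat.mul_div_cancel_left _ (by norm_num)
      rw [e1] at h3
      rw [e2]
      nlinarith

end Pool.Agent.H.MP_cd3d06_an
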