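import Mathlib
import Pool.Agent.H.MP_cd3d06_an.Defs
import Pool.Agent.H.MP_cd3d06_an.UpperGeneral
import Pool.Agent.H.MP_cd3d06_an.ChebCount
import Pool.Agent.H.MP_cd3d06_an.ChebArc

/-!
The lower bound `(m+2) n - m - gcd(m,n)` for the maximal number of zeros of harmonic polynomials.
-/

namespace Pool.Agent.H.MP_cd3d06_an.Cheb

open Polynomial ComplexConjugate Set Real

/-- the analytic part -/
noncomputable def pP (n m : ℕ) (ε : ℝ) : ℂ[X] :=
  X ^ m + C ((ε : ℂ) * Complex.I) * (Chebyshev.T ℂ (n : ℤ)).comp (X + C 2)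

/-- the antianalytic part -/
noncomputable def qP (m : ℕ) : ℂ[X] := -X ^ m

lemma qP_natDegree (m : ℕ) : (qP m).natDegree = m := by
  rw [qP, natDegree_neg, natDegree_X_pow]

lemma pP_natDegree {n m : ℕ} (hmn : m < n) {ε : ℝ} (hε : 0 < ε) : (pP n m ε).natDegree = n := by
  have h0 : ((ε : ℂ) * Complex.I) ≠ 0 := mul_ne_zero (by exact_mod_cast hε.ne') Complex.I_ne_zero
  have h1 : (C ((ε : ℂ) * Complex.I) * (Chebyshev.T ℂ (n : ℤ)).comp (X + C 2)).natDegree = n := by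
    rw [natDegree_C_mul h0, natDegree_comp, natDegree_X_add_C, mul_one, Chebyshev.natDegree_T]
    simp
  rw [pP, natDegree_add_eq_right_of_natDegree_lt, h1]
  rw [h1, natDegree_X_pow]
  exact hmn

lemma eval_h (n m : ℕ) (ε : ℝ) (z : ℂ) :
    (pP n m ε).eval z + conj ((qP m).eval z) =
      (((2 * (z ^ m).im : ℝ) : ℂ) + ε * (Chebyshev.T ℂ (n : ℤ)).eval (z + 2)) * Complex.I := by
  have h1 : z ^ m - conj (z ^ m) = ((2 * (z ^ m).im : ℝ) : ℂ) * Complex.I := Complex.sub_conj _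
  rw [pP, qP]
  simp only [eval_add, eval_pow, eval_X, eval_mul, eval_C, eval_comp, eval_neg, map_neg]
  linear_combination h1

lemma zz_eq_cos (v w : ℝ) : zz v w + 2 = Complex.cos ((v : ℂ) - w * Complex.I) := by
  rw [Complex.cos_sub, Complex.cos_mul_I, Complex.sin_mul_I]
  rw [← Complex.ofReal_cos, ← Complex.ofReal_cosh, ← Complex.ofReal_sin, ← Complex.ofReal_sinh]
  apply Complex.ext
  · simp only [zz, Complex.add_re, Complex.mul_re, Complex.ofReal_re, Complex.ofReal_im,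
      Complex.I_re, Complex.I_im, Complex.mul_im]
    simp
    ring
  · simp only [zz, Complex.add_im, Complex.mul_re, Complex.ofReal_re, Complex.ofReal_im,
      Complex.I_re, Complex.I_im, Complex.mul_im]
    simp
    ring

lemma T_zz {n : ℕ} (hn : 1 ≤ n) (k : ℕ) (w : ℝ) :
    (Chebyshev.T ℂ (n : ℤ)).eval (zz (k * π / n) w + 2) = (((-1) ^ k * cosh (n * w) : ℝ) : ℂ) := by
  have hn0 : (n : ℂ) ≠ 0 := by exact_mod_cast (by omega : n ≠ 0)
  rw [zz_eq_cos, Chebyshev.T_complex_cos]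
  have : ((n : ℤ) : ℂ) * (((k * π / n : ℝ) : ℂ) - w * Complex.I) =
      (k : ℂ) * π - ((n * w : ℝ) : ℂ) * Complex.I := by
    push_cast
    field_simp
  rw [this, Complex.cos_sub, Complex.cos_mul_I, Complex.sin_nat_mul_pi]
  have h2 : Complex.cos ((k : ℂ) * π) = (-1) ^ k := by
    have := Real.cos_nat_mul_pi k
    exact_mod_cast congrArg (fun x : ℝ => (x : ℂ)) this
  rw [h2]
  push_cast
  ring

lemma mem_zeros {n m k : ℕ} (hn : 1 ≤ n) (ε w : ℝ)
    (h : GG n m (k * π / n) w = -((-1) ^ k * ε)) :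
    zz (k * π / n) w ∈ zeros (pP n m ε) (qP m) := by
  rw [zeros, Set.mem_ofPred_eq, eval_h, T_zz hn]
  have hc := cosh_pos (n * w)
  rw [GG, div_eq_iff hc.ne'] at h
  rw [← Complex.ofReal_mul, ← Complex.ofReal_add, h]
  have : -((-1) ^ k * ε) * cosh (n * w) + ε * ((-1) ^ k * cosh (n * w)) = 0 := by ring
  rw [this]
  simp

lemma zz_neg (v w : ℝ) : zz v (-w) = conj (zz v w) := by
  apply Complex.ext <;> simp [zz]

lemma GG_neg (n m : ℕ) (v w : ℝ) : GG n m v (-w) = - GG n m v w := by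
  rw [GG, GG, zz_neg, ← map_pow, Complex.conj_im, mul_neg, mul_neg, cosh_neg]
  ring

lemma real_mem {n m : ℕ} (hn : 1 ≤ n) (ε : ℝ) (j : ℕ) :
    ((cos ((2 * j + 1) * π / (2 * n)) - 2 : ℝ) : ℂ) ∈ zeros (pP n m ε) (qP m) := by
  have hn0 : (n : ℂ) ≠ 0 := by exact_mod_cast (by omega : n ≠ 0)
  rw [zeros, Set.mem_ofPred_eq, eval_h, ← Complex.ofReal_pow, Complex.ofReal_im]
  have h1 : (((cos ((2 * j + 1) * π / (2 * n)) - 2 : ℝ) : ℂ) + 2) =
      Complex.cos (((2 * j + 1) * π / (2 * n) : ℝ) : ℂ) := by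
    push_cast
    ring
  rw [h1, Chebyshev.T_complex_cos]
  have h2 : ((n : ℤ) : ℂ) * (((2 * j + 1) * π / (2 * n) : ℝ) : ℂ) = (2 * (j : ℤ) + 1) * π / 2 := by
    push_cast
    field_simp
  rw [h2]
  have h3 : Complex.cos ((2 * (j : ℤ) + 1) * π / 2) = 0 :=
    Complex.cos_eq_zero_iff.2 ⟨j, rfl⟩
  rw [h3]
  simp

/-- injectivity of the parametrization -/
lemma zz_inj {v v' w w' : ℝ} (hv0 : 0 < v) (hv : v < π) (hv0' : 0 < v') (hv' : v' < π)
    (h : zz v w = zz v' w') : v = v' ∧ |w| = |w'| := by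
  have hre : cosh w * cos v - 2 = cosh w' * cos v' - 2 := congrArg Complex.re h
  have him : sinh w * sin v = sinh w' * sin v' := congrArg Complex.im h
  have e : ∀ a b : ℝ, (cosh a * cos b - 1) ^ 2 + (sinh a * sin b) ^ 2 = (cosh a - cos b) ^ 2 := by
    intro a b
    have h1 := cosh_sq a
    have h2 := sin_sq_add_cos_sq b
    have : sinh a ^ 2 = cosh a ^ 2 - 1 := by linarith
    have h3 : sin b ^ 2 = 1 - cos b ^ 2 := by linarith
    rw [mul_pow, this, h3]
    ring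
  have e' : ∀ a b : ℝ, (cosh a * cos b + 1) ^ 2 + (sinh a * sin b) ^ 2 = (cosh a + cos b) ^ 2 := by
    intro a b
    have h1 := cosh_sq a
    have h2 := sin_sq_add_cos_sq b
    have : sinh a ^ 2 = cosh a ^ 2 - 1 := by linarith
    have h3 : sin b ^ 2 = 1 - cos b ^ 2 := by linarith
    rw [mul_pow, this, h3]
    ring
  have hp : ∀ a b : ℝ, 0 ≤ cosh a - cos b := fun a b => by
    linarith [one_le_cosh a, cos_le_one b]
  have hp' : ∀ a b : ℝ, 0 ≤ cosh a + cos b := fun a b => by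
    linarith [one_le_cosh a, neg_one_le_cos b]
  have hx : cosh w * cos v = cosh w' * cos v' := by linarith
  have h1 : cosh w - cos v = cosh w' - cos v' := by
    have := e w v
    rw [hx, him, e w' v'] at this
    exact ((sq_eq_sq₀ (hp _ _) (hp _ _)).1 this).symm
  have h2 : cosh w + cos v = cosh w' + cos v' := by
    have := e' w v
    rw [hx, him, e' w' v'] at this
    exact ((sq_eq_sq₀ (hp' _ _) (hp' _ _)).1 this).symm
  have h3 : cosh w = cosh w' := by linarith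
  have h4 : cos v = cos v' := by linarith
  refine ⟨injOn_cos ⟨hv0.le, hv.le⟩ ⟨hv0'.le, hv'.le⟩ h4, ?_⟩
  exact le_antisymm (cosh_le_cosh.1 h3.le) (cosh_le_cosh.1 h3.ge)

lemma v_range {n k : ℕ} (hk : 1 ≤ k) (hkn : k < n) : 0 < k * π / n ∧ k * π / n < π := by
  have hπ := pi_pos
  have hn0 : (0 : ℝ) < n := by exact_mod_cast (by omega : 0 < n)
  have hk0 : (0 : ℝ) < k := by exact_mod_cast hk
  have hkn' : (k : ℝ) < n := by exact_mod_cast hkn
  refine ⟨by positivity, ?_⟩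
  rw [div_lt_iff₀ hn0]
  nlinarith

/-- The lower bound. -/
theorem lower_sharp (n m : ℕ) (hm : 1 ≤ m) (hmn : m < n) :
    ∃ p q : ℂ[X], p.natDegree = n ∧ q.natDegree = m ∧ (zeros p q).Finite ∧
      (m + 2) * n ≤ (zeros p q).ncard + m + Nat.gcd m n := by
  have hπ := pi_pos
  have hn : 1 ≤ n := by omega
  have hn0 : (0 : ℝ) < n := by exact_mod_cast (by omega : 0 < n)
  have h1 : ∀ k : ℕ, ∃ e : ℝ, 0 < e ∧ (1 ≤ k → k < n → ∀ ε : ℝ, 0 < ε → ε < e →
      ∃ S : Finset ℝ, S.card = 2 * (m - k * m / n) ∧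
        ∀ u ∈ S, 0 < u ∧ |GG n m (k * π / n) u| = ε) := by
    intro k
    by_cases h : 1 ≤ k ∧ k < n
    · obtain ⟨e, he, h2⟩ := arc hm hmn h.1 h.2
      exact ⟨e, he, fun _ _ => h2⟩
    · exact ⟨1, one_pos, fun a b => absurd ⟨a, b⟩ h⟩
  choose e he h2 using h1
  obtain ⟨k₀, hk₀, hmin⟩ := Finset.exists_min_image (Finset.range n) e
    ⟨0, Finset.mem_range.2 (by omega)⟩
  set ε : ℝ := e k₀ / 2 with hε
  have hε0 : 0 < ε := by have := he k₀; positivity
  have hεk : ∀ k, k < n → ε < e k := by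
    intro k hk
    have a1 := hmin k (Finset.mem_range.2 hk)
    have a2 := he k₀
    rw [hε]; linarith
  have h3 : ∀ k : ℕ, ∃ S : Finset ℝ, (1 ≤ k → k < n → S.card = 2 * (m - k * m / n)) ∧
      ∀ u ∈ S, 1 ≤ k ∧ k < n ∧ 0 < u ∧ |GG n m (k * π / n) u| = ε := by
    intro k
    by_cases h : 1 ≤ k ∧ k < n
    · obtain ⟨S, hS1, hS2⟩ := h2 k h.1 h.2 ε hε0 (hεk k h.2)
      exact ⟨S, fun _ _ => hS1, fun u hu => ⟨h.1, h.2, hS2 u hu⟩⟩
    · exact ⟨∅, fun a b => absurd ⟨a, b⟩ h, by simp⟩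
  choose S hS1 hS2 using h3
  set P : (Σ _ : ℕ, ℝ) → ℂ := fun x =>
    if GG n m (x.1 * π / n) x.2 = -((-1) ^ x.1 * ε) then zz (x.1 * π / n) x.2
    else zz (x.1 * π / n) (-x.2) with hP
  set A : Finset ℂ := (Finset.range n).image
    (fun j : ℕ => ((cos ((2 * j + 1) * π / (2 * n)) - 2 : ℝ) : ℂ)) with hA
  set B : Finset ℂ := ((Finset.Ico 1 n).sigma S).image P with hB
  have hP1 : ∀ x : (Σ _ : ℕ, ℝ), ∃ w : ℝ, |w| = |x.2| ∧ P x = zz (x.1 * π / n) w ∧
      (x.2 ∈ S x.1 → GG n m (x.1 * π / n) w = -((-1) ^ x.1 * ε)) := by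
    intro x
    by_cases h : GG n m (x.1 * π / n) x.2 = -((-1) ^ x.1 * ε)
    · exact ⟨x.2, rfl, by simp only [hP, if_pos h], fun _ => h⟩
    · refine ⟨-x.2, abs_neg _, by simp only [hP, if_neg h], fun hx => ?_⟩
      obtain ⟨-, -, -, h4⟩ := hS2 x.1 x.2 hx
      rw [GG_neg]
      rcases neg_one_pow_eq_or ℝ x.1 with h5 | h5 <;> rw [h5] at h ⊢ <;>
        rcases eq_or_eq_neg_of_abs_eq h4 with h6 | h6
      · rw [h6]; ring
      · exact absurd (by rw [h6]; ring) h
      · exact absurd (by rw [h6]; ring) h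
      · rw [h6]; ring
  have hAcard : A.card = n := by
    rw [hA, Finset.card_image_of_injOn, Finset.card_range]
    intro i hi j hj hij
    rw [Finset.coe_range, Set.mem_Iio] at hi hj
    simp only at hij
    have h4 : cos ((2 * i + 1) * π / (2 * n)) = cos ((2 * j + 1) * π / (2 * n)) := by
      have := Complex.ofReal_injective hij
      linarith
    have hr : ∀ l : ℕ, l < n → (2 * (l : ℝ) + 1) * π / (2 * n) ∈ Icc 0 π := by
      intro l hl
      have : (l : ℝ) + 1 ≤ n := by exact_mod_cast hl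
      refine ⟨by positivity, ?_⟩
      rw [div_le_iff₀ (by positivity)]
      nlinarith
    have h5 := injOn_cos (hr i hi) (hr j hj) h4
    rw [div_left_inj' (by positivity)] at h5
    have h6 := mul_right_cancel₀ hπ.ne' h5
    have h7 : (i : ℝ) = j := by linarith
    exact_mod_cast h7
  have hBcard : B.card = ∑ k ∈ Finset.Ico 1 n, 2 * (m - k * m / n) := by
    rw [hB, Finset.card_image_of_injOn, Finset.card_sigma]
    · apply Finset.sum_congr rfl
      intro k hk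
      rw [Finset.mem_Ico] at hk
      exact hS1 k hk.1 hk.2
    · intro x hx y hy hxy
      rw [Finset.mem_coe, Finset.mem_sigma] at hx hy
      obtain ⟨w, hw1, hw2, -⟩ := hP1 x
      obtain ⟨w', hw1', hw2', -⟩ := hP1 y
      obtain ⟨a1, a2, a3, -⟩ := hS2 x.1 x.2 hx.2
      obtain ⟨b1, b2, b3, -⟩ := hS2 y.1 y.2 hy.2
      rw [hw2, hw2'] at hxy
      obtain ⟨c1, c2⟩ := zz_inj (v_range a1 a2).1 (v_range a1 a2).2 (v_range b1 b2).1
        (v_range b1 b2).2 hxy
      rw [hw1, hw1', abs_of_pos a3, abs_of_pos b3] at c2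
      rw [div_left_inj' hn0.ne'] at c1
      have c3 := mul_right_cancel₀ hπ.ne' c1
      have c4 : x.1 = y.1 := by exact_mod_cast c3
      exact Sigma.ext c4 (heq_of_eq c2)
  have hdisj : Disjoint A B := by
    rw [Finset.disjoint_left]
    intro z hzA hzB
    rw [hA, Finset.mem_image] at hzA
    rw [hB, Finset.mem_image] at hzB
    obtain ⟨j, -, rfl⟩ := hzA
    obtain ⟨x, hx, hxz⟩ := hzB
    rw [Finset.mem_sigma] at hx
    obtain ⟨w, hw1, hw2, -⟩ := hP1 x
    obtain ⟨a1, a2, a3, -⟩ := hS2 x.1 x.2 hx.2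
    rw [hw2] at hxz
    have h4 := congrArg Complex.im hxz
    rw [Complex.ofReal_im] at h4
    simp only [zz] at h4
    have h5 : 0 < sin (x.1 * π / n) := sin_pos_of_pos_of_lt_pi (v_range a1 a2).1 (v_range a1 a2).2
    rcases mul_eq_zero.1 h4 with h6 | h6
    · rw [sinh_eq_zero] at h6
      rw [h6, abs_zero] at hw1
      rw [abs_of_pos a3] at hw1
      linarith
    · linarith
  have hsub : ((A ∪ B : Finset ℂ) : Set ℂ) ⊆ zeros (pP n m ε) (qP m) := by
    intro z hz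
    rw [Finset.mem_coe, Finset.mem_union] at hz
    rcases hz with hz | hz
    · rw [hA, Finset.mem_image] at hz
      obtain ⟨j, -, rfl⟩ := hz
      exact real_mem hn ε j
    · rw [hB, Finset.mem_image] at hz
      obtain ⟨x, hx, rfl⟩ := hz
      rw [Finset.mem_sigma] at hx
      obtain ⟨w, hw1, hw2, hw3⟩ := hP1 x
      rw [hw2]
      exact mem_zeros hn ε w (hw3 hx.2)
  have hfin := (upper_one (pP_natDegree hmn hε0) (qP_natDegree m) hm hmn).1
  refine ⟨pP n m ε, qP m, pP_natDegree hmn hε0, qP_natDegree m, hfin, ?_⟩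
  have h4 := Set.ncard_le_ncard hsub hfin
  rw [Set.ncard_coe_finset, Finset.card_union_of_disjoint hdisj, hAcard, hBcard] at h4
  have h5 := count hm hmn
  omega

end Pool.Agent.H.MP_cd3d06_an.Cheb
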