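import Pool.Agent.H.MP_cd3d06_an.Trace

/-!
The reproducing formula, finite dimensionality and the trace formula.
-/

namespace Pool.Agent.H.MP_cd3d06_an

open Polynomial ComplexConjugate Finset TensorProduct

section
variable {A : Type} [CommRing A] [Algebra ℂ A]

theorem map_dd {B C : Type} [CommRing B] [Algebra ℂ B] [CommRing C] [Algebra ℂ C]
    (φ : B →ₐ[ℂ] C) (n : ℕ) (f : ℂ[X]) (x y : B) :
    φ (dd n f x y) = dd n f (φ x) (φ y) := by
  simp [dd, map_sum, map_smul, map_mul, map_pow]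

theorem dd_expand (n : ℕ) (f f' : ℂ[X]) (z w : A) :
    dd n f (z ⊗ₜ[ℂ] (1 : A)) ((1 : A) ⊗ₜ[ℂ] z) * dd n f' (w ⊗ₜ[ℂ] (1 : A)) ((1 : A) ⊗ₜ[ℂ] w) =
      ∑ k ∈ range (n + 1), ∑ l ∈ range (n + 1), (f.coeff k * f'.coeff l) •
        ∑ i ∈ range k, ∑ j ∈ range l,
          (z ^ i * w ^ j) ⊗ₜ[ℂ] (z ^ (k - 1 - i) * w ^ (l - 1 - j)) := by
  unfold dd
  rw [sum_mul_sum]
  refine sum_congr rfl fun k _ => sum_congr rfl fun l _ => ?_
  rw [smul_mul_smul_comm, sum_mul_sum]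
  congr 1
  refine sum_congr rfl fun i _ => sum_congr rfl fun j _ => ?_
  simp only [Algebra.TensorProduct.tmul_pow, Algebra.TensorProduct.tmul_mul_tmul, one_pow,
    one_mul, mul_one]

/-- The span of the monomials of bidegree less than `n`. -/
noncomputable def mspan (n : ℕ) (z w : A) : Submodule ℂ A :=
  Submodule.span ℂ (Set.range fun x : Fin n × Fin n => z ^ (x.1 : ℕ) * w ^ (x.2 : ℕ))

theorem mem_mspan {n : ℕ} {z w : A} {i j : ℕ} (hi : i < n) (hj : j < n) :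
    z ^ i * w ^ j ∈ mspan n z w :=
  Submodule.subset_span ⟨(⟨i, hi⟩, ⟨j, hj⟩), rfl⟩

theorem ctr_dd_mem (ρ : A →ₗ[ℂ] ℂ) (n : ℕ) (f f' : ℂ[X]) (z w g : A) :
    ctr ρ (((1 : A) ⊗ₜ[ℂ] g) * (dd n f (z ⊗ₜ[ℂ] (1 : A)) ((1 : A) ⊗ₜ[ℂ] z) *
      dd n f' (w ⊗ₜ[ℂ] (1 : A)) ((1 : A) ⊗ₜ[ℂ] w))) ∈ mspan n z w := by
  rw [dd_expand, mul_sum, map_sum]
  refine Submodule.sum_mem _ fun k hk => ?_
  rw [mul_sum, map_sum]
  refine Submodule.sum_mem _ fun l hl => ?_
  rw [mul_smul_comm, map_smul]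
  refine Submodule.smul_mem _ _ ?_
  rw [mul_sum, map_sum]
  refine Submodule.sum_mem _ fun i hi => ?_
  rw [mul_sum, map_sum]
  refine Submodule.sum_mem _ fun j hj => ?_
  rw [Algebra.TensorProduct.tmul_mul_tmul, ctr_tmul, one_mul]
  rw [mem_range] at hi hj hk hl
  exact Submodule.smul_mem _ _ (mem_mspan (by omega) (by omega))

theorem ctr_dd_one (ρ : A →ₗ[ℂ] ℂ) {n : ℕ} (hn : 1 ≤ n) (f f' : ℂ[X]) (z w : A)
    (hρ : ∀ s < n, ∀ t < n, ρ (z ^ s * w ^ t) = if s = n - 1 ∧ t = n - 1 then 1 else 0) :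
    ctr ρ (dd n f (z ⊗ₜ[ℂ] (1 : A)) ((1 : A) ⊗ₜ[ℂ] z) *
      dd n f' (w ⊗ₜ[ℂ] (1 : A)) ((1 : A) ⊗ₜ[ℂ] w)) = (f.coeff n * f'.coeff n) • (1 : A) := by
  rw [dd_expand, map_sum]
  have key : ∀ k ∈ range (n + 1), ∀ l ∈ range (n + 1), ∀ i ∈ range k, ∀ j ∈ range l,
      ctr ρ ((z ^ i * w ^ j) ⊗ₜ[ℂ] (z ^ (k - 1 - i) * w ^ (l - 1 - j))) =
        if k = n ∧ l = n ∧ i = 0 ∧ j = 0 then 1 else 0 := by
    intro k hk l hl i hi j hj
    rw [mem_range] at hk hl hi hj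
    rw [ctr_tmul, hρ _ (by omega) _ (by omega)]
    by_cases h : k = n ∧ l = n ∧ i = 0 ∧ j = 0
    · obtain ⟨rfl, rfl, rfl, rfl⟩ := h
      simp
    · rw [if_neg h, if_neg (by omega), zero_smul]
  rw [sum_eq_single n]
  · rw [map_sum, sum_eq_single n]
    · rw [map_smul, map_sum, sum_eq_single 0]
      · rw [map_sum, sum_eq_single 0]
        · rw [key n (by simp) n (by simp) 0 (by simp; omega) 0 (by simp; omega)]
          simp
        · intro j hj hj0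
          rw [key n (by simp) n (by simp) 0 (by simp; omega) j hj, if_neg (by omega)]
        · intro h; exact absurd (mem_range.2 (by omega)) h
      · intro i hi hi0
        rw [map_sum]
        refine sum_eq_zero fun j hj => ?_
        rw [key n (by simp) n (by simp) i hi j hj, if_neg (by omega)]
      · intro h; exact absurd (mem_range.2 (by omega)) h
    · intro l hl hln
      rw [map_smul, map_sum]
      rw [sum_eq_zero, smul_zero]
      intro i hi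
      rw [map_sum]
      refine sum_eq_zero fun j hj => ?_
      rw [key n (by simp) l hl i hi j hj, if_neg (by omega)]
    · intro h; exact absurd (mem_range.2 (by omega)) h
  · intro k hk hkn
    rw [map_sum]
    refine sum_eq_zero fun l hl => ?_
    rw [map_smul, map_sum]
    rw [sum_eq_zero, smul_zero]
    intro i hi
    rw [map_sum]
    refine sum_eq_zero fun j hj => ?_
    rw [key k hk l hl i hi j hj, if_neg (by omega)]
  · intro h; exact absurd (mem_range.2 (by omega)) h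

theorem bez_mem (ρ : A →ₗ[ℂ] ℂ) (n : ℕ) (p q : ℂ[X]) (z w g : A) :
    ctr ρ (((1 : A) ⊗ₜ[ℂ] g) * bez n p q z w) ∈ mspan n z w := by
  rw [bez, mul_sub, map_sub, mul_comm (dd n (cj q) _ _)]
  exact Submodule.sub_mem _ (ctr_dd_mem ρ n p (cj p) z w g) (ctr_dd_mem ρ n q (cj q) z w g)

theorem bez_one (ρ : A →ₗ[ℂ] ℂ) {n : ℕ} {p q : ℂ[X]} (hp : p.Monic) (hpn : p.natDegree = n)
    (hq : q.natDegree < n) (z w : A)
    (hρ : ∀ s < n, ∀ t < n, ρ (z ^ s * w ^ t) = if s = n - 1 ∧ t = n - 1 then 1 else 0) :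
    ctr ρ (bez n p q z w) = 1 := by
  have h1 := ctr_dd_one ρ (show 1 ≤ n by omega) p (cj p) z w hρ
  have h2 := ctr_dd_one ρ (show 1 ≤ n by omega) q (cj q) z w hρ
  rw [bez, map_sub, mul_comm (dd n (cj q) _ _), h1, h2, coeff_eq_zero_of_natDegree_lt hq,
    coeff_map, ← hpn, hp.coeff_natDegree]
  simp

theorem reproduce (ρ : A →ₗ[ℂ] ℂ) {n : ℕ} {p q : ℂ[X]} (hp : p.Monic) (hpn : p.natDegree = n)
    (hq : q.natDegree < n) {z w : A}
    (hρ : ∀ s < n, ∀ t < n, ρ (z ^ s * w ^ t) = if s = n - 1 ∧ t = n - 1 then 1 else 0)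
    (h1 : aeval z p + aeval w (cj q) = 0) (h2 : aeval z q + aeval w (cj p) = 0)
    (hgen : Algebra.adjoin ℂ {z, w} = ⊤) (g : A) :
    ctr ρ (((1 : A) ⊗ₜ[ℂ] g) * bez n p q z w) = g := by
  rw [← bez_swap hpn.le hq.le h1 h2 hgen, ctr_left, bez_one ρ hp hpn hq z w hρ, mul_one]

theorem mspan_top (ρ : A →ₗ[ℂ] ℂ) {n : ℕ} {p q : ℂ[X]} (hp : p.Monic) (hpn : p.natDegree = n)
    (hq : q.natDegree < n) {z w : A}
    (hρ : ∀ s < n, ∀ t < n, ρ (z ^ s * w ^ t) = if s = n - 1 ∧ t = n - 1 then 1 else 0)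
    (h1 : aeval z p + aeval w (cj q) = 0) (h2 : aeval z q + aeval w (cj p) = 0)
    (hgen : Algebra.adjoin ℂ {z, w} = ⊤) : mspan n z w = ⊤ := by
  rw [eq_top_iff]
  rintro g -
  rw [← reproduce ρ hp hpn hq hρ h1 h2 hgen g]
  exact bez_mem ρ n p q z w g

theorem trace_formula [Module.Finite ℂ A] (ρ : A →ₗ[ℂ] ℂ) {n : ℕ} {p q : ℂ[X]} (hp : p.Monic)
    (hpn : p.natDegree = n) (hq : q.natDegree < n) {z w : A}
    (hρ : ∀ s < n, ∀ t < n, ρ (z ^ s * w ^ t) = if s = n - 1 ∧ t = n - 1 then 1 else 0)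
    (h1 : aeval z p + aeval w (cj q) = 0) (h2 : aeval z q + aeval w (cj p) = 0)
    (hgen : Algebra.adjoin ℂ {z, w} = ⊤) (g : A) :
    LinearMap.trace ℂ A (LinearMap.mulLeft ℂ g) =
      ρ (g * (aeval z (derivative p) * aeval w (derivative (cj p)) -
        aeval z (derivative q) * aeval w (derivative (cj q)))) := by
  have hq' : (cj q).natDegree ≤ n := by rw [natDegree_cj]; exact hq.le
  have hp' : (cj p).natDegree ≤ n := by rw [natDegree_cj]; exact hpn.le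
  have e : LinearMap.mulLeft ℂ g = rk ρ (((1 : A) ⊗ₜ[ℂ] g) * bez n p q z w) := by
    ext x
    rw [rk_apply, LinearMap.mulLeft_apply, ← mul_assoc, Algebra.TensorProduct.tmul_mul_tmul,
      one_mul, reproduce ρ hp hpn hq hρ h1 h2 hgen, mul_comm]
  rw [e, trace_rk, map_mul, Algebra.TensorProduct.lmul'_apply_tmul, one_mul]
  congr 2
  rw [bez, map_sub, map_mul, map_mul, map_dd, map_dd, map_dd, map_dd]
  simp only [Algebra.TensorProduct.lmul'_apply_tmul, one_mul, mul_one]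
  rw [dd_diag hpn.le, dd_diag hq.le, dd_diag hp', dd_diag hq']
  ring

end

end Pool.Agent.H.MP_cd3d06_an
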