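import Pool.Agent.H.MP_cd3d06_an.Points

/-!
The real structure on the common zeros.
-/

namespace Pool.Agent.H.MP_cd3d06_an

open Polynomial ComplexConjugate Finset

theorem eval_cj (f : ℂ[X]) (x : ℂ) : (cj f).eval (conj x) = conj (f.eval x) := by
  rw [cj, eval_map, eval₂_at_apply]

theorem eval_conj (f : ℂ[X]) (x : ℂ) : f.eval (conj x) = conj ((cj f).eval x) := by
  rw [← eval_cj, cj_cj]

/-- The real structure. -/
noncomputable def sg (s : ℂ × ℂ) : ℂ × ℂ := (conj s.2, conj s.1)

theorem sg_sg (s : ℂ × ℂ) : sg (sg s) = s := by simp [sg]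

theorem sg_mem {p q : ℂ[X]} {s : ℂ × ℂ} (h : s ∈ pts p q) : sg s ∈ pts p q := by
  obtain ⟨h1, h2⟩ := h
  refine ⟨?_, ?_⟩
  · change p.eval (conj s.2) + (cj q).eval (conj s.1) = 0
    rw [eval_conj, eval_cj, ← map_add, add_comm, h2, map_zero]
  · change q.eval (conj s.2) + (cj p).eval (conj s.1) = 0
    rw [eval_conj, eval_cj, ← map_add, add_comm, h1, map_zero]

/-- An asymmetric relation selecting one point of each non-real couple. -/
def lo (s : ℂ × ℂ) : Prop := s.1.re < s.2.re ∨ (s.1.re = s.2.re ∧ s.1.im < - s.2.im)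

theorem lo_sg (s : ℂ × ℂ) :
    lo (sg s) ↔ s.2.re < s.1.re ∨ (s.2.re = s.1.re ∧ - s.2.im < s.1.im) := by
  simp [lo, sg]

theorem tri (s : ℂ × ℂ) : lo s ∨ lo (sg s) ∨ s.2 = conj s.1 := by
  rw [lo_sg]
  unfold lo
  by_cases h : s.2 = conj s.1
  · exact Or.inr (Or.inr h)
  · rcases lt_trichotomy s.1.re s.2.re with h1 | h1 | h1
    · exact Or.inl (Or.inl h1)
    · rcases lt_trichotomy s.1.im (-s.2.im) with h2 | h2 | h2
      · exact Or.inl (Or.inr ⟨h1, h2⟩)
      · exfalso
        apply h
        apply Complex.ext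
        · simp [h1]
        · simp [h2]
      · exact Or.inr (Or.inl (Or.inr ⟨h1.symm, h2⟩))
    · exact Or.inr (Or.inl (Or.inl h1))

theorem lo_not (s : ℂ × ℂ) (h : lo s) : ¬ lo (sg s) ∧ s.2 ≠ conj s.1 := by
  rw [lo_sg]
  unfold lo at h
  refine ⟨?_, ?_⟩
  · rintro (h1 | ⟨h1, h2⟩)
    · rcases h with h | h
      · linarith
      · linarith [h.1]
    · rcases h with h | h
      · linarith
      · linarith [h.2]
  · intro h1
    rw [h1] at h
    simp at h

theorem real_sg {s : ℂ × ℂ} (h : s.2 = conj s.1) : sg s = s := by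
  refine Prod.ext ?_ h.symm
  change conj s.2 = s.1
  rw [h, Complex.conj_conj]

theorem card_split {p q : ℂ[X]} {S : Finset (ℂ × ℂ)} (hS : ∀ s, s ∈ S ↔ s ∈ pts p q)
    [DecidablePred lo] :
    (zeros p q).Finite ∧ (zeros p q).ncard + 2 * (S.filter lo).card = S.card := by
  classical
  have h1 : zeros p q = ((S.filter (fun s => s.2 = conj s.1)).image Prod.fst : Finset ℂ) := by
    ext x
    simp only [coe_image, coe_filter, Set.mem_image, Set.mem_ofPred_eq, zeros]
    constructor
    · intro hx
      refine ⟨(x, conj x), ⟨(hS _).2 ⟨?_, ?_⟩, rfl⟩, rfl⟩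
      · change p.eval x + (cj q).eval (conj x) = 0
        rw [eval_cj]; exact hx
      · change q.eval x + (cj p).eval (conj x) = 0
        rw [eval_cj]
        have := congrArg conj hx
        rw [map_add, Complex.conj_conj, map_zero] at this
        rw [add_comm]; exact this
    · rintro ⟨s, ⟨hs1, hs2⟩, rfl⟩
      have h3 := ((hS s).1 hs1).1
      rw [hs2, eval_cj] at h3
      exact h3
  refine ⟨by rw [h1]; exact Finset.finite_toSet _, ?_⟩
  rw [h1, Set.ncard_coe_finset, card_image_of_injOn]
  · have e1 : (S.filter (fun s => lo (sg s))).card = (S.filter lo).card := by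
      have : S.filter (fun s => lo (sg s)) = (S.filter lo).image sg := by
        ext s
        simp only [mem_filter, mem_image]
        constructor
        · rintro ⟨h2, h3⟩
          exact ⟨sg s, ⟨(hS _).2 (sg_mem ((hS _).1 h2)), h3⟩, sg_sg s⟩
        · rintro ⟨t, ⟨h2, h3⟩, rfl⟩
          exact ⟨(hS _).2 (sg_mem ((hS _).1 h2)), by rw [sg_sg]; exact h3⟩
      rw [this, card_image_of_injective]
      intro x y hxy
      rw [← sg_sg x, ← sg_sg y, hxy]
    have e2 : S = (S.filter lo) ∪ ((S.filter (fun s => lo (sg s))) ∪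
        (S.filter (fun s => s.2 = conj s.1))) := by
      ext s
      simp only [mem_union, mem_filter]
      constructor
      · intro h
        rcases tri s with h2 | h2 | h2
        · exact Or.inl ⟨h, h2⟩
        · exact Or.inr (Or.inl ⟨h, h2⟩)
        · exact Or.inr (Or.inr ⟨h, h2⟩)
      · rintro (h | h | h) <;> exact h.1
    have e3 : Disjoint (S.filter (fun s => lo (sg s))) (S.filter (fun s => s.2 = conj s.1)) := by
      rw [disjoint_filter]
      intro s _ h2 h3
      rw [real_sg h3] at h2
      exact (lo_not s h2).2 h3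
    have e4 : Disjoint (S.filter lo) ((S.filter (fun s => lo (sg s))) ∪
        (S.filter (fun s => s.2 = conj s.1))) := by
      rw [disjoint_union_right, disjoint_filter, disjoint_filter]
      exact ⟨fun s _ h2 => (lo_not s h2).1, fun s _ h2 => (lo_not s h2).2⟩
    conv_rhs => rw [e2]
    rw [card_union_of_disjoint e4, card_union_of_disjoint e3, e1]
    ring
  · intro s hs t ht hst
    simp only [coe_filter, Set.mem_ofPred_eq] at hs ht
    apply Prod.ext hst
    rw [hs.2, ht.2, hst]

end Pool.Agent.H.MP_cd3d06_an
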