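import Pool.Agent.H.MP_cd3d06_an.Rho

/-!
The quotient algebra of the system `p(z) + q̄(w) = 0`, `q(z) + p̄(w) = 0`.
-/

namespace Pool.Agent.H.MP_cd3d06_an

open Polynomial ComplexConjugate Finset TensorProduct

/-- The polynomial ring in two variables. -/
abbrev RR : Type := ℂ[X] ⊗[ℂ] ℂ[X]

noncomputable def polP (p q : ℂ[X]) : RR := p ⊗ₜ[ℂ] 1 + 1 ⊗ₜ[ℂ] cj q
noncomputable def polQ (p q : ℂ[X]) : RR := q ⊗ₜ[ℂ] 1 + 1 ⊗ₜ[ℂ] cj p
noncomputable def idl (p q : ℂ[X]) : Ideal RR := Ideal.span {polP p q, polQ p q}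

noncomputable def rhoR (p q : ℂ[X]) (hp : p.Monic) (hq : q.natDegree < p.natDegree) :
    RR →ₗ[ℂ] ℂ := TensorProduct.lift (rho p q hp hq)

theorem rhoR_P {p q : ℂ[X]} (hp : p.Monic) (hq : q.natDegree < p.natDegree) (t : RR) :
    rhoR p q hp hq (t * polP p q) = 0 := by
  induction t using TensorProduct.induction_on with
  | zero => simp
  | add a b ha hb => rw [add_mul, map_add, ha, hb, add_zero]
  | tmul F G =>
    have := rho_P hp hq F G
    simp only [polP, mul_add, Algebra.TensorProduct.tmul_mul_tmul, map_add, rhoR,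
      TensorProduct.lift.tmul, mul_one]
    rw [mul_comm F p, mul_comm G (cj q)]
    exact this

theorem rhoR_Q {p q : ℂ[X]} (hp : p.Monic) (hq : q.natDegree < p.natDegree) (t : RR) :
    rhoR p q hp hq (t * polQ p q) = 0 := by
  induction t using TensorProduct.induction_on with
  | zero => simp
  | add a b ha hb => rw [add_mul, map_add, ha, hb, add_zero]
  | tmul F G =>
    have := rho_Q hp hq F G
    simp only [polQ, mul_add, Algebra.TensorProduct.tmul_mul_tmul, map_add, rhoR,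
      TensorProduct.lift.tmul, mul_one]
    rw [mul_comm F q, mul_comm G (cj p), add_comm]
    exact this

theorem rhoR_idl {p q : ℂ[X]} (hp : p.Monic) (hq : q.natDegree < p.natDegree) {t : RR}
    (ht : t ∈ idl p q) : rhoR p q hp hq t = 0 := by
  obtain ⟨a, b, rfl⟩ := Ideal.mem_span_pair.1 ht
  rw [map_add, rhoR_P, rhoR_Q, add_zero]

theorem aeval_left (F : ℂ[X]) : aeval (X ⊗ₜ[ℂ] (1 : ℂ[X]) : RR) F = F ⊗ₜ[ℂ] 1 := by
  have h : (aeval (X ⊗ₜ[ℂ] (1 : ℂ[X]) : RR) : ℂ[X] →ₐ[ℂ] RR) =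
      Algebra.TensorProduct.includeLeft := by
    ext
    simp
  rw [h]
  rfl

theorem aeval_right (F : ℂ[X]) : aeval ((1 : ℂ[X]) ⊗ₜ[ℂ] X : RR) F = 1 ⊗ₜ[ℂ] F := by
  have h : (aeval ((1 : ℂ[X]) ⊗ₜ[ℂ] X : RR) : ℂ[X] →ₐ[ℂ] RR) =
      Algebra.TensorProduct.includeRight := by
    ext
    simp
  rw [h]
  rfl

theorem exists_model {p q : ℂ[X]} (hp : p.Monic) (hq : q.natDegree < p.natDegree) :
    ∃ (A : Type) (_ : CommRing A) (_ : Algebra ℂ A) (z w : A) (ρ : A →ₗ[ℂ] ℂ),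
      aeval z p + aeval w (cj q) = 0 ∧ aeval z q + aeval w (cj p) = 0 ∧
      (∀ F G : ℂ[X], ρ (aeval z F * aeval w G) = rho p q hp hq F G) ∧
      Algebra.adjoin ℂ {z, w} = ⊤ ∧
      ∀ x y : ℂ, p.eval x + (cj q).eval y = 0 → q.eval x + (cj p).eval y = 0 →
        ∃ χ : A →ₐ[ℂ] ℂ, χ z = x ∧ χ w = y := by
  let I := idl p q
  let π : RR →ₐ[ℂ] RR ⧸ I := Ideal.Quotient.mkₐ ℂ I
  let ρ : (RR ⧸ I) →ₗ[ℂ] ℂ := (I.restrictScalars ℂ).liftQ (rhoR p q hp hq)
    (fun t ht => rhoR_idl hp hq ht)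
  have hρ : ∀ t : RR, ρ (π t) = rhoR p q hp hq t := fun t => rfl
  have hz : ∀ F : ℂ[X], aeval (π (X ⊗ₜ[ℂ] 1)) F = π (F ⊗ₜ[ℂ] 1) := by
    intro F
    rw [aeval_algHom_apply, aeval_left]
  have hw : ∀ F : ℂ[X], aeval (π (1 ⊗ₜ[ℂ] X)) F = π (1 ⊗ₜ[ℂ] F) := by
    intro F
    rw [aeval_algHom_apply, aeval_right]
  refine ⟨RR ⧸ I, inferInstance, inferInstance, π (X ⊗ₜ 1), π (1 ⊗ₜ X), ρ, ?_, ?_, ?_, ?_, ?_⟩
  · rw [hz, hw, ← map_add]
    exact Ideal.Quotient.eq_zero_iff_mem.2 (Ideal.subset_span (by simp [polP]))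
  · rw [hz, hw, ← map_add]
    exact Ideal.Quotient.eq_zero_iff_mem.2 (Ideal.subset_span (by simp [polQ]))
  · intro F G
    rw [hz, hw, ← map_mul, Algebra.TensorProduct.tmul_mul_tmul, one_mul, mul_one, hρ]
    simp [rhoR]
  · rw [eq_top_iff]
    rintro a -
    obtain ⟨t, rfl⟩ := Ideal.Quotient.mkₐ_surjective ℂ I a
    change π t ∈ _
    induction t using TensorProduct.induction_on with
    | zero => rw [map_zero]; exact zero_mem _
    | add a b ha hb => rw [map_add]; exact add_mem ha hb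
    | tmul F G =>
      have e : π (F ⊗ₜ[ℂ] G) = aeval (π (X ⊗ₜ[ℂ] 1)) F * aeval (π (1 ⊗ₜ[ℂ] X)) G := by
        rw [hz, hw, ← map_mul, Algebra.TensorProduct.tmul_mul_tmul, one_mul, mul_one]
      rw [e]
      refine mul_mem ?_ ?_
      · exact Algebra.adjoin_mono (by simp) (aeval_mem_adjoin_singleton ℂ _)
      · exact Algebra.adjoin_mono (by simp) (aeval_mem_adjoin_singleton ℂ _)
  · intro x y h1 h2
    let ψ : RR →ₐ[ℂ] ℂ := Algebra.TensorProduct.productMap (aeval x) (aeval y)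
    have hψ : ∀ t ∈ I, ψ t = 0 := by
      intro t ht
      obtain ⟨a, b, rfl⟩ := Ideal.mem_span_pair.1 ht
      have e1 : ψ (polP p q) = 0 := by
        simp only [ψ, polP, map_add, Algebra.TensorProduct.productMap_apply_tmul, map_one,
          mul_one, one_mul]
        simpa [aeval_def, eval₂_eq_eval_map] using h1
      have e2 : ψ (polQ p q) = 0 := by
        simp only [ψ, polQ, map_add, Algebra.TensorProduct.productMap_apply_tmul, map_one,
          mul_one, one_mul]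
        simpa [aeval_def, eval₂_eq_eval_map] using h2
      rw [map_add, map_mul, map_mul, e1, e2, mul_zero, mul_zero, add_zero]
    refine ⟨Ideal.Quotient.liftₐ I ψ hψ, ?_, ?_⟩
    · change ψ (X ⊗ₜ 1) = x
      simp [ψ]
    · change ψ (1 ⊗ₜ X) = y
      simp [ψ]

end Pool.Agent.H.MP_cd3d06_an
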