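import Pool.Agent.H.MP_cd3d06_an.Quad

/-!
The common zeros of the system, and rank estimates for evaluation maps.
-/

namespace Pool.Agent.H.MP_cd3d06_an

open Polynomial ComplexConjugate Finset

/-- Common zeros of the system in `ℂ²`. -/
def pts (p q : ℂ[X]) : Set (ℂ × ℂ) :=
  {s | p.eval s.1 + (cj q).eval s.2 = 0 ∧ q.eval s.1 + (cj p).eval s.2 = 0}

/-- Values of a monomial at the points of `S`. -/
noncomputable def mv (S : Finset (ℂ × ℂ)) (e : ℕ × ℕ) : S → ℂ :=
  fun s => s.1.1 ^ e.1 * s.1.2 ^ e.2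

section
variable {A : Type} [CommRing A] [Algebra ℂ A]

theorem separate {z w : A} {S : Finset (ℂ × ℂ)} (χ : S → (A →ₐ[ℂ] ℂ))
    (hz : ∀ s, χ s z = s.1.1) (hw : ∀ s, χ s w = s.1.2) {s t : S} (hst : s ≠ t) :
    ∃ a : A, χ s a = 1 ∧ χ t a = 0 := by
  by_cases h : s.1.1 = t.1.1
  · have h2 : s.1.2 ≠ t.1.2 := fun h2 => hst (Subtype.ext (Prod.ext h h2))
    refine ⟨(s.1.2 - t.1.2)⁻¹ • (w - algebraMap ℂ A t.1.2), ?_, ?_⟩
    · rw [map_smul, map_sub, AlgHom.commutes, hw, smul_eq_mul]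
      exact inv_mul_cancel₀ (sub_ne_zero.2 h2)
    · rw [map_smul, map_sub, AlgHom.commutes, hw, smul_eq_mul]
      simp
  · refine ⟨(s.1.1 - t.1.1)⁻¹ • (z - algebraMap ℂ A t.1.1), ?_, ?_⟩
    · rw [map_smul, map_sub, AlgHom.commutes, hz, smul_eq_mul]
      exact inv_mul_cancel₀ (sub_ne_zero.2 h)
    · rw [map_smul, map_sub, AlgHom.commutes, hz, smul_eq_mul]
      simp

theorem ev_surj {z w : A} {S : Finset (ℂ × ℂ)} (χ : S → (A →ₐ[ℂ] ℂ))
    (hz : ∀ s, χ s z = s.1.1) (hw : ∀ s, χ s w = s.1.2) :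
    Function.Surjective (LinearMap.pi fun s => (χ s).toLinearMap : A →ₗ[ℂ] (S → ℂ)) := by
  classical
  have h1 : ∀ s : S, ∃ a : A, χ s a = 1 ∧ ∀ t, t ≠ s → χ t a = 0 := by
    intro s
    choose a ha using fun t : {t : S // s ≠ t} => separate χ hz hw t.2
    refine ⟨∏ t : {t : S // s ≠ t}, a t, ?_, ?_⟩
    · rw [map_prod]
      exact prod_eq_one fun t _ => (ha t).1
    · intro t ht
      rw [map_prod]
      exact prod_eq_zero (mem_univ (⟨t, ht.symm⟩ : {t : S // s ≠ t})) (ha ⟨t, ht.symm⟩).2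
  choose δ hδ1 hδ2 using h1
  intro f
  refine ⟨∑ s, f s • δ s, ?_⟩
  funext t
  simp only [LinearMap.pi_apply, AlgHom.toLinearMap_apply, map_sum, map_smul, smul_eq_mul]
  rw [sum_eq_single t]
  · rw [hδ1, mul_one]
  · intro s _ hst
    rw [hδ2 s t hst.symm, mul_zero]
  · intro h; exact absurd (mem_univ t) h

theorem span_mv {n : ℕ} {z w : A} (hsp : mspan n z w = ⊤) {S : Finset (ℂ × ℂ)}
    (hS : ∀ s ∈ S, ∃ χ : A →ₐ[ℂ] ℂ, χ z = s.1 ∧ χ w = s.2) :
    Submodule.span ℂ (mv S '' ((range n ×ˢ range n : Finset (ℕ × ℕ)) : Set (ℕ × ℕ))) = ⊤ := by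
  choose χ0 hz0 hw0 using hS
  let χ : S → (A →ₐ[ℂ] ℂ) := fun s => χ0 s.1 s.2
  have hz : ∀ s : S, χ s z = s.1.1 := fun s => hz0 s.1 s.2
  have hw : ∀ s : S, χ s w = s.1.2 := fun s => hw0 s.1 s.2
  have hsurj := ev_surj χ hz hw
  rw [← LinearMap.range_eq_top, LinearMap.range_eq_map, ← hsp, mspan, Submodule.map_span]
    at hsurj
  rw [eq_top_iff, ← hsurj]
  apply Submodule.span_mono
  rintro _ ⟨_, ⟨x, rfl⟩, rfl⟩
  refine ⟨(x.1, x.2), by simp, ?_⟩
  funext s
  simp only [LinearMap.pi_apply, AlgHom.toLinearMap_apply, map_mul, map_pow, hz, hw, mv]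

end

theorem card_le_of_span {n : ℕ} {S : Finset (ℂ × ℂ)}
    (h : Submodule.span ℂ (mv S '' ((range n ×ˢ range n : Finset (ℕ × ℕ)) : Set (ℕ × ℕ))) = ⊤) :
    S.card ≤ n ^ 2 := by
  classical
  have h1 : Module.finrank ℂ (⊤ : Submodule ℂ (S → ℂ)) = S.card := by
    rw [finrank_top, Module.finrank_fintype_fun_eq_card, Fintype.card_coe]
  rw [← h1, ← h, ← coe_image]
  refine (finrank_span_finset_le_card _).trans (card_image_le.trans ?_)
  rw [card_product, card_range, sq]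

/-- The evaluation map on polynomials of bidegree less than `(a, b)`. -/
noncomputable def evab (S : Finset (ℂ × ℂ)) (a b : ℕ) : (Fin a × Fin b → ℂ) →ₗ[ℂ] (S → ℂ) where
  toFun C := fun s => fev C s.1.1 s.1.2
  map_add' C C' := by
    funext s
    simp only [fev, Pi.add_apply, add_smul, sum_add_distrib]
  map_smul' c C := by
    funext s
    simp only [fev, Pi.smul_apply, smul_eq_mul, RingHom.id_apply]
    simp only [mul_assoc, mul_sum]

theorem evab_single (S : Finset (ℂ × ℂ)) {a b : ℕ} (u : Fin a × Fin b) :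
    evab S a b (Pi.single u 1) = mv S ((u.1 : ℕ), (u.2 : ℕ)) := by
  classical
  funext s
  simp only [evab, LinearMap.coe_mk, AddHom.coe_mk, fev, mv]
  rw [sum_eq_single u]
  · simp
  · intro v _ hv
    rw [Pi.single_eq_of_ne hv, zero_smul]
  · intro h; exact absurd (mem_univ u) h

theorem rank_bound {n a b : ℕ} (ha : a ≤ n) (hb : 2 * b ≤ n) {S : Finset (ℂ × ℂ)}
    (h : Submodule.span ℂ (mv S '' ((range n ×ˢ range n : Finset (ℕ × ℕ)) : Set (ℕ × ℕ))) = ⊤) :
    S.card + 2 * Module.finrank ℂ (LinearMap.ker (evab S a b)) ≤ n ^ 2 := by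
  classical
  let W1 : Submodule ℂ (S → ℂ) := LinearMap.range (evab S a b)
  let μ : (S → ℂ) →ₗ[ℂ] (S → ℂ) := LinearMap.mulLeft ℂ (fun s : S => s.1.2 ^ b)
  let W2 : Submodule ℂ (S → ℂ) := W1.map μ
  let R : Finset (ℕ × ℕ) := (range n ×ˢ range n) \ (range a ×ˢ range (2 * b))
  let W3 : Submodule ℂ (S → ℂ) := Submodule.span ℂ ((R.image (mv S) : Finset (S → ℂ)) : Set (S → ℂ))
  have h1 : Module.finrank ℂ W1 + Module.finrank ℂ (LinearMap.ker (evab S a b)) = a * b := by
    rw [LinearMap.finrank_range_add_finrank_ker, Module.finrank_fintype_fun_eq_card,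
      Fintype.card_prod, Fintype.card_fin, Fintype.card_fin]
  have h2 : Module.finrank ℂ W2 ≤ Module.finrank ℂ W1 := Submodule.finrank_map_le _ _
  have h3 : Module.finrank ℂ W3 ≤ n ^ 2 - 2 * (a * b) := by
    refine (finrank_span_finset_le_card _).trans (card_image_le.trans ?_)
    rw [card_sdiff_of_subset, card_product, card_product, card_range, card_range, card_range, sq]
    · have : a * (2 * b) = 2 * (a * b) := by ring
      rw [this]
    · exact product_subset_product (range_subset_range.2 ha) (range_subset_range.2 hb)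
  have h4 : (⊤ : Submodule ℂ (S → ℂ)) ≤ (W1 ⊔ W2) ⊔ W3 := by
    rw [← h, Submodule.span_le]
    rintro _ ⟨⟨i, j⟩, hij, rfl⟩
    rw [coe_product, Set.mem_prod, mem_coe, mem_coe, mem_range, mem_range] at hij
    by_cases hR : i < a ∧ j < 2 * b
    · apply Submodule.mem_sup_left
      by_cases hj : j < b
      · apply Submodule.mem_sup_left
        exact ⟨Pi.single (⟨i, hR.1⟩, ⟨j, hj⟩) 1, evab_single S _⟩
      · apply Submodule.mem_sup_right
        refine ⟨mv S (i, j - b), ⟨Pi.single (⟨i, hR.1⟩, ⟨j - b, by omega⟩) 1, evab_single S _⟩, ?_⟩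
        funext s
        simp only [μ, LinearMap.mulLeft_apply, Pi.mul_apply, mv]
        rw [mul_left_comm, ← pow_add, show b + (j - b) = j by omega]
    · apply Submodule.mem_sup_right
      apply Submodule.subset_span
      rw [coe_image]
      refine ⟨(i, j), ?_, rfl⟩
      simp only [R, coe_sdiff, coe_product, Set.mem_sdiff, Set.mem_prod, mem_coe, mem_range]
      exact ⟨hij, hR⟩
  have h5 : Module.finrank ℂ (⊤ : Submodule ℂ (S → ℂ)) = S.card := by
    rw [finrank_top, Module.finrank_fintype_fun_eq_card, Fintype.card_coe]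
  have h6 := (Submodule.finrank_mono h4).trans (Submodule.finrank_add_le_finrank_add_finrank _ _)
  have h7 := Submodule.finrank_add_le_finrank_add_finrank W1 W2
  have h8 : 2 * (a * b) ≤ n ^ 2 := by
    calc 2 * (a * b) = a * (2 * b) := by ring
      _ ≤ n * n := Nat.mul_le_mul ha hb
      _ = n ^ 2 := by ring
  omega

end Pool.Agent.H.MP_cd3d06_an
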