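import Mathlib

/-!
Trace of multiplication by an element all of whose characters are nonnegative.
-/

namespace Pool.Agent.H.MP_cd3d06_an

open Polynomial

section
variable {A : Type} [CommRing A] [Algebra ℂ A] [Module.Finite ℂ A]

theorem exists_char_of_not_isUnit {a : A} (h : ¬ IsUnit a) : ∃ χ : A →ₐ[ℂ] ℂ, χ a = 0 := by
  obtain ⟨I, hI, ha⟩ := exists_max_ideal_of_mem_nonunits h
  let _ : Field (A ⧸ I) := Ideal.Quotient.field I
  have : Module.Finite ℂ (A ⧸ I) :=
    Module.Finite.of_surjective (Ideal.Quotient.mkₐ ℂ I).toLinearMap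
      (Ideal.Quotient.mkₐ_surjective ℂ I)
  have : Algebra.IsIntegral ℂ (A ⧸ I) := Algebra.IsIntegral.of_finite ℂ (A ⧸ I)
  have hb : Function.Bijective (algebraMap ℂ (A ⧸ I)) :=
    IsAlgClosed.algebraMap_bijective_of_isIntegral
  let e : ℂ ≃ₐ[ℂ] (A ⧸ I) := AlgEquiv.ofBijective (Algebra.ofId ℂ (A ⧸ I)) hb
  refine ⟨(e.symm : (A ⧸ I) →ₐ[ℂ] ℂ).comp (Ideal.Quotient.mkₐ ℂ I), ?_⟩
  have : Ideal.Quotient.mkₐ ℂ I a = 0 := Ideal.Quotient.eq_zero_iff_mem.2 ha
  rw [AlgHom.comp_apply, this, map_zero]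

theorem isRoot_iff (g : A) (μ : ℂ) :
    (LinearMap.mulLeft ℂ g : Module.End ℂ A).charpoly.IsRoot μ ↔ ∃ χ : A →ₐ[ℂ] ℂ, χ g = μ := by
  rw [← Module.End.hasEigenvalue_iff_isRoot_charpoly]
  constructor
  · intro h
    obtain ⟨v, hv⟩ := h.exists_hasEigenvector
    have h1 : g * v = μ • v := hv.apply_eq_smul
    have h2 : ¬ IsUnit (g - algebraMap ℂ A μ) := by
      intro hu
      apply hv.2
      have h3 : (g - algebraMap ℂ A μ) * v = 0 := by
        rw [sub_mul, h1, Algebra.smul_def, sub_self]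
      exact (hu.mul_right_eq_zero).1 h3
    obtain ⟨χ, hχ⟩ := exists_char_of_not_isUnit h2
    refine ⟨χ, ?_⟩
    rw [map_sub, AlgHom.commutes, sub_eq_zero] at hχ
    simpa using hχ
  · rintro ⟨χ, rfl⟩
    by_contra hne
    rw [Module.End.hasEigenvalue_iff, not_not, Module.End.eigenspace_def, LinearMap.ker_eq_bot]
      at hne
    have hsurj := LinearMap.injective_iff_surjective.1 hne
    obtain ⟨x, hx⟩ := hsurj 1
    have h1 : (g - algebraMap ℂ A (χ g)) * x = 1 := by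
      have : ((LinearMap.mulLeft ℂ g : Module.End ℂ A) -
        algebraMap ℂ (Module.End ℂ A) (χ g)) x = 1 := by simpa using hx
      rw [sub_mul, ← Algebra.smul_def]
      simpa using this
    have h2 := congrArg χ h1
    rw [map_mul, map_sub, AlgHom.commutes, map_one] at h2
    simp at h2

theorem char_eq_zero {g : A} (hpos : ∀ χ : A →ₐ[ℂ] ℂ, 0 ≤ (χ g).re ∧ (χ g).im = 0)
    (htr : (LinearMap.trace ℂ A (LinearMap.mulLeft ℂ g)).re ≤ 0) (χ : A →ₐ[ℂ] ℂ) :
    χ g = 0 := by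
  set f : Module.End ℂ A := LinearMap.mulLeft ℂ g with hf
  have h0 : f.charpoly ≠ 0 := (LinearMap.charpoly_monic f).ne_zero
  have hs : f.charpoly.Splits := IsAlgClosed.splits _
  have h1 := Module.End.trace_eq_sum_roots_charpoly_of_splits hs
  have h2 : ∀ μ ∈ f.charpoly.roots, 0 ≤ μ.re ∧ μ.im = 0 := by
    intro μ hμ
    obtain ⟨χ', hχ'⟩ := (isRoot_iff g μ).1 ((mem_roots h0).1 hμ)
    rw [← hχ']
    exact hpos χ'
  have h3 : χ g ∈ f.charpoly.roots := (mem_roots h0).2 ((isRoot_iff g (χ g)).2 ⟨χ, rfl⟩)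
  have h4 : (f.charpoly.roots.sum).re = (f.charpoly.roots.map Complex.re).sum := by
    have := map_multiset_sum Complex.reAddGroupHom f.charpoly.roots
    simpa using this
  have h5 : (χ g).re ≤ (f.charpoly.roots.map Complex.re).sum := by
    refine Multiset.single_le_sum ?_ _ (Multiset.mem_map_of_mem _ h3)
    intro x hx
    obtain ⟨μ, hμ, rfl⟩ := Multiset.mem_map.1 hx
    exact (h2 μ hμ).1
  rw [h1, h4] at htr
  have h6 := hpos χ
  apply Complex.ext
  · simp only [Complex.zero_re]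
    linarith [h6.1]
  · simpa using h6.2

end

end Pool.Agent.H.MP_cd3d06_an
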