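import Pool.Agent.H.MP_cd3d06_an.PureZ

/-!
The counting argument for polynomials in `z` alone.
-/

namespace Pool.Agent.H.MP_cd3d06_an

open Polynomial ComplexConjugate Finset

/-- The polynomial with coefficient vector `c`. -/
noncomputable def polV (D : ℕ) : (Fin (D + 1) → ℂ) →ₗ[ℂ] ℂ[X] :=
  (degreeLT ℂ (D + 1)).subtype ∘ₗ (degreeLTEquiv ℂ (D + 1)).symm.toLinearMap

theorem polV_deg (D : ℕ) (c : Fin (D + 1) → ℂ) : (polV D c).natDegree ≤ D := by
  have h : (polV D c) ∈ degreeLT ℂ (D + 1) := ((degreeLTEquiv ℂ (D + 1)).symm c).2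
  rw [mem_degreeLT] at h
  by_cases h0 : polV D c = 0
  · rw [h0]; simp
  · rw [degree_eq_natDegree h0] at h
    exact Nat.lt_succ_iff.1 (by exact_mod_cast h)

theorem polV_inj (D : ℕ) : Function.Injective (polV D) := by
  intro c c' h
  apply (degreeLTEquiv ℂ (D + 1)).symm.injective
  exact Subtype.ext h

/-- The functional `f ↦ res (f' q ^ j) / p ^ (i + 1)`. -/
noncomputable def nL (p q : ℂ[X]) (i j : ℕ) : ℂ[X] →ₗ[ℂ] ℂ :=
  (res p i) ∘ₗ (LinearMap.mulRight ℂ (q ^ j)) ∘ₗ (derivative : ℂ[X] →ₗ[ℂ] ℂ[X])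

theorem nL_apply (p q : ℂ[X]) (i j : ℕ) (f : ℂ[X]) :
    nL p q i j f = res p i (derivative f * q ^ j) := by
  simp [nL]

/-- The number of conditions. -/
def cnt (n d D : ℕ) : ℕ := D / d + ∑ e ∈ range (D / n), (2 * ((D - n * (e + 1)) / d) + 1)

theorem pure_monic {p q : ℂ[X]} (hp : p.Monic) (hq1 : 1 ≤ q.natDegree)
    (hq : q.natDegree < p.natDegree) (D : ℕ) :
    (zeros p q).Finite ∧ (D < (zeros p q).ncard → (zeros p q).ncard + 2 * D ≤
      p.natDegree ^ 2 + 2 * cnt p.natDegree (p.natDegree - q.natDegree) D) := by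
  classical
  obtain ⟨A, iA, iA', z, w, ρ, h1, h2, hρ, hgen, hchar⟩ := exists_model hp hq
  set n := p.natDegree with hn
  set m := q.natDegree with hm
  set d := n - m with hd
  have hmon : ∀ s < n, ∀ t < n,
      ρ (z ^ s * w ^ t) = if s = n - 1 ∧ t = n - 1 then 1 else 0 := by
    intro s hs t ht
    have e := hρ (X ^ s) (X ^ t)
    rw [rho_coeff hp hq (by simpa using hs) (by simpa using ht)] at e
    simp only [map_pow, aeval_X, coeff_X_pow] at e
    rw [e, ← hn]
    by_cases h3 : n - 1 = s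
    · by_cases h4 : n - 1 = t
      · rw [if_pos h3, if_pos h4, if_pos ⟨h3.symm, h4.symm⟩, mul_one]
      · rw [if_neg h4, mul_zero, if_neg (by rintro ⟨_, h⟩; exact h4 h.symm)]
    · rw [if_neg h3, zero_mul, if_neg (by rintro ⟨h, _⟩; exact h3 h.symm)]
  have hsp : mspan n z w = ⊤ := mspan_top ρ hp rfl hq hmon h1 h2 hgen
  have hfin : Module.Finite ℂ A := by
    refine ⟨?_⟩
    rw [← hsp]
    exact Submodule.fg_span (Set.finite_range _)
  have hptsfin : (pts p q).Finite := by
    by_contra hinf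
    obtain ⟨S', hS'1, hS'2⟩ := Set.Infinite.exists_subset_card_eq hinf (n ^ 2 + 1)
    have := card_le_of_span (span_mv hsp (S := S') (fun s hs =>
      hchar s.1 s.2 (hS'1 hs).1 (hS'1 hs).2))
    omega
  set S := hptsfin.toFinset with hSdef
  have hS : ∀ s, s ∈ S ↔ s ∈ pts p q := fun s => by rw [hSdef, Set.Finite.mem_toFinset]
  have hScard : S.card ≤ n ^ 2 := card_le_of_span (span_mv hsp (S := S) (fun s hs =>
      hchar s.1 s.2 ((hS s).1 hs).1 ((hS s).1 hs).2))
  obtain ⟨hzf, hcard⟩ := card_split hS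
  refine ⟨hzf, fun hlt => ?_⟩
  by_contra hcon
  -- the linear conditions
  let ι : Type := Unit ⊕ (Fin (D / d) ⊕ ((Σ e : Fin (D / n),
    (Fin ((D - n * (e + 1)) / d + 1) ⊕ Fin ((D - n * (e + 1)) / d))) ⊕ {s // s ∈ S.filter lo}))
  let L : ι → (ℂ[X] →ₗ[ℂ] ℂ)
    | Sum.inl _ => (res p 0) ∘ₗ (LinearMap.mulRight ℂ (derivative p))
    | Sum.inr (Sum.inl k) => nL p q k (k + 1)
    | Sum.inr (Sum.inr (Sum.inl ⟨e, Sum.inl j⟩)) => nL p q (j + e) j
    | Sum.inr (Sum.inr (Sum.inl ⟨e, Sum.inr i⟩)) => nL p q i (i + e + 2)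
    | Sum.inr (Sum.inr (Sum.inr s)) => leval s.1.1 - leval (sg s.1).1
  let Φ : (Fin (D + 1) → ℂ) →ₗ[ℂ] (ι → ℂ) := LinearMap.pi fun i => (L i) ∘ₗ polV D
  have hcardι : Fintype.card ι = 1 + (cnt n d D + (S.filter lo).card) := by
    simp only [ι, Fintype.card_sum, Fintype.card_fin, Fintype.card_sigma,
      Fintype.card_coe, Fintype.card_unit, cnt]
    rw [Finset.sum_range fun e => (2 * ((D - n * (e + 1)) / d) + 1), ← add_assoc (D / d)]
    congr 3
    refine sum_congr rfl fun e _ => ?_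
    ring
  have hker : LinearMap.ker Φ ≠ ⊥ := by
    apply LinearMap.ker_ne_bot_of_finrank_lt
    rw [Module.finrank_fintype_fun_eq_card, Module.finrank_fintype_fun_eq_card, hcardι,
      Fintype.card_fin]
    omega
  obtain ⟨c, hc, hc0⟩ := Submodule.exists_mem_ne_zero_of_ne_bot hker
  obtain ⟨f, hf⟩ : ∃ f, polV D c = f := ⟨_, rfl⟩
  have hf0 : f ≠ 0 := by
    rw [← hf]
    intro h
    exact hc0 (polV_inj D (by rw [h, map_zero]))
  have hfd : f.natDegree ≤ D := hf ▸ polV_deg D c
  have hL : ∀ i, L i f = 0 := fun i => by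
    have := congrFun (LinearMap.mem_ker.1 hc) i
    rw [← hf]
    exact this
  have c0 : res p 0 (f * derivative p) = 0 := by
    have := hL (Sum.inl ())
    simpa only [L, LinearMap.comp_apply, LinearMap.mulRight_apply] using this
  have hnd : n = m + d := by omega
  have hdpos : 0 < d := by omega
  have hK : ∀ i j : ℕ, n * (i + 1) ≤ D + m * j → n * j ≤ D + m * (i + 1) →
      res p i (derivative f * q ^ j) = 0 := by
    intro i j hi hj
    rcases lt_trichotomy j (i + 1) with h | h | h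
    · obtain ⟨e, rfl⟩ : ∃ e, i = j + e := ⟨i - j, by omega⟩
      have e1 : d * j + n * (e + 1) ≤ D := by
        have : n * (j + e + 1) = m * j + (d * j + n * (e + 1)) := by rw [hnd]; ring
        omega
      have e2 : e < D / n := by
        rw [Nat.lt_iff_add_one_le, Nat.le_div_iff_mul_le (by omega), mul_comm]
        have : 0 ≤ d * j := Nat.zero_le _
        omega
      have e3 : j < (D - n * (e + 1)) / d + 1 := by
        rw [Nat.lt_succ_iff, Nat.le_div_iff_mul_le hdpos, mul_comm j]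
        omega
      have := hL (Sum.inr (Sum.inr (Sum.inl ⟨⟨e, e2⟩, Sum.inl ⟨j, e3⟩⟩)))
      simpa only [L, nL_apply] using this
    · subst h
      have e1 : d * (i + 1) ≤ D := by
        have : n * (i + 1) = m * (i + 1) + d * (i + 1) := by rw [hnd]; ring
        omega
      have e2 : i < D / d := by
        rw [Nat.lt_iff_add_one_le, Nat.le_div_iff_mul_le hdpos, mul_comm]
        exact e1
      have := hL (Sum.inr (Sum.inl ⟨i, e2⟩))
      simpa only [L, nL_apply] using this
    · obtain ⟨e, rfl⟩ : ∃ e, j = i + e + 2 := ⟨j - i - 2, by omega⟩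
      have e1 : d * (i + 1) + n * (e + 1) ≤ D := by
        have : n * (i + e + 2) = m * (i + 1) + (d * (i + 1) + n * (e + 1)) := by rw [hnd]; ring
        omega
      have e2 : e < D / n := by
        rw [Nat.lt_iff_add_one_le, Nat.le_div_iff_mul_le (by omega), mul_comm]
        have : 0 ≤ d * (i + 1) := Nat.zero_le _
        omega
      have e3 : i < (D - n * (e + 1)) / d := by
        rw [Nat.lt_iff_add_one_le, Nat.le_div_iff_mul_le hdpos, mul_comm]
        omega
      have := hL (Sum.inr (Sum.inr (Sum.inl ⟨⟨e, e2⟩, Sum.inr ⟨i, e3⟩⟩)))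
      simpa only [L, nL_apply] using this
  have c3 : ∀ s ∈ S, lo s → f.eval s.1 = f.eval (sg s).1 := by
    intro s hs hlo
    have := hL (Sum.inr (Sum.inr (Sum.inr ⟨s, mem_filter.2 ⟨hs, hlo⟩⟩)))
    simp only [L, LinearMap.sub_apply, leval_apply] at this
    exact sub_eq_zero.1 this
  have c4 : ∀ s ∈ S, f.eval s.1 = f.eval (sg s).1 := by
    intro s hs
    rcases tri s with h | h | h
    · exact c3 s hs h
    · have h3 := c3 (sg s) ((hS _).2 (sg_mem ((hS _).1 hs))) h
      rw [sg_sg] at h3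
      exact h3.symm
    · rw [real_sg h]
  have hval : ∀ χ : A →ₐ[ℂ] ℂ, χ (aeval z f * aeval w (cj f)) =
      (Complex.normSq (f.eval (χ z)) : ℂ) := by
    intro χ
    have hmem : ((χ z, χ w) : ℂ × ℂ) ∈ pts p q := by
      have e1 := congrArg χ h1
      have e2 := congrArg χ h2
      rw [map_add, map_zero, ← aeval_algHom_apply, ← aeval_algHom_apply] at e1 e2
      rw [coe_aeval_eq_eval, coe_aeval_eq_eval] at e1 e2
      exact ⟨e1, e2⟩
    have h5 := c4 _ ((hS _).2 hmem)
    simp only [sg] at h5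
    rw [map_mul, ← aeval_algHom_apply, ← aeval_algHom_apply, coe_aeval_eq_eval,
      coe_aeval_eq_eval]
    have h6 : (cj f).eval (χ w) = conj (f.eval (χ z)) := by
      rw [h5, eval_conj, Complex.conj_conj]
    rw [h6, Complex.mul_conj]
  have htr : LinearMap.trace ℂ A (LinearMap.mulLeft ℂ (aeval z f * aeval w (cj f))) = 0 := by
    rw [trace_formula ρ hp rfl hq hmon h1 h2 hgen]
    have e1 : aeval z f * aeval w (cj f) * (aeval z (derivative p) * aeval w (derivative (cj p)) -
        aeval z (derivative q) * aeval w (derivative (cj q))) =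
        aeval z (f * derivative p) * aeval w (cj (f * derivative p)) -
        aeval z (f * derivative q) * aeval w (cj (f * derivative q)) := by
      rw [cj, cj, cj, cj, cj, derivative_map, derivative_map, Polynomial.map_mul,
        Polynomial.map_mul]
      simp only [map_mul]
      ring
    rw [e1, map_sub, hρ, hρ, rho_pure hp hq1 hq hfd c0 hK, sub_self]
  have hzero : ∀ x ∈ zeros p q, f.eval x = 0 := by
    intro x hx
    have hx1 : p.eval x + (cj q).eval (conj x) = 0 := by rw [eval_cj]; exact hx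
    have hx2 : q.eval x + (cj p).eval (conj x) = 0 := by
      rw [eval_cj]
      have := congrArg conj hx
      rw [map_add, Complex.conj_conj, map_zero] at this
      rw [add_comm]; exact this
    obtain ⟨χ, hχz, hχw⟩ := hchar x (conj x) hx1 hx2
    have h3 := char_eq_zero (g := aeval z f * aeval w (cj f)) (fun χ' => by
      rw [hval χ']
      exact ⟨by rw [Complex.ofReal_re]; exact Complex.normSq_nonneg _, Complex.ofReal_im _⟩)
      (by rw [htr]; simp) χ
    rw [hval χ, hχz] at h3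
    exact Complex.normSq_eq_zero.1 (Complex.ofReal_eq_zero.1 h3)
  apply hf0
  apply eq_zero_of_natDegree_lt_card_of_eval_eq_zero' f hzf.toFinset
  · intro x hx
    exact hzero x (hzf.mem_toFinset.1 hx)
  · rw [← Set.ncard_eq_toFinset_card _ hzf]
    omega

/-- The bound for arbitrary `p`. -/
theorem pure_general {p q : ℂ[X]} {n m : ℕ} (hpn : p.natDegree = n) (hqm : q.natDegree = m)
    (hm : 1 ≤ m) (hmn : m < n) (D : ℕ) :
    (zeros p q).Finite ∧ (D < (zeros p q).ncard →
      (zeros p q).ncard + 2 * D ≤ n ^ 2 + 2 * cnt n (n - m) D) := by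
  have hp0 : p ≠ 0 := by rintro rfl; simp at hpn; omega
  have ha : p.leadingCoeff ≠ 0 := leadingCoeff_ne_zero.2 hp0
  have hca : conj (p.leadingCoeff)⁻¹ ≠ 0 := by
    rw [Ne, map_eq_zero]; exact inv_ne_zero ha
  have h1 : (C (p.leadingCoeff)⁻¹ * p).Monic := by
    rw [Monic, leadingCoeff_mul, leadingCoeff_C, inv_mul_cancel₀ ha]
  have h2 : (C (p.leadingCoeff)⁻¹ * p).natDegree = n := by
    rw [natDegree_C_mul (inv_ne_zero ha), hpn]
  have h3 : (C (conj (p.leadingCoeff)⁻¹) * q).natDegree = m := by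
    rw [natDegree_C_mul hca, hqm]
  have h4 := pure_monic h1 (q := C (conj (p.leadingCoeff)⁻¹) * q) (by omega) (by omega) D
  rw [zeros_scale (inv_ne_zero ha), h2, h3] at h4
  exact h4

theorem cnt_bound {n d E : ℕ} (hn : 0 < n) : d * cnt n d (n * E) ≤ n * E ^ 2 + d * E := by
  have h1 : n * E / n = E := Nat.mul_div_cancel_left E hn
  rw [cnt, h1, mul_add, mul_sum]
  have h2 : d * (n * E / d) ≤ n * E := Nat.mul_div_le _ _
  have h3 : ∑ e ∈ range E, d * (2 * ((n * E - n * (e + 1)) / d) + 1) ≤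
      ∑ e ∈ range E, (2 * n * (E - 1 - e) + d) := by
    refine sum_le_sum fun e he => ?_
    rw [mem_range] at he
    have h4 : d * ((n * E - n * (e + 1)) / d) ≤ n * E - n * (e + 1) := Nat.mul_div_le _ _
    have h5 : n * E - n * (e + 1) = n * (E - 1 - e) := by
      rw [← Nat.mul_sub]
      congr 1
      omega
    rw [h5] at h4 ⊢
    nlinarith
  have h6 : ∀ F : ℕ, ∑ e ∈ range F, (2 * n * (F - 1 - e) + d) + n * F = n * F ^ 2 + d * F := by
    intro F
    rw [sum_add_distrib, ← mul_sum]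
    have h7 := Finset.sum_range_reflect (fun i => i) F
    have h8 : ∑ e ∈ range F, (F - 1 - e) = ∑ e ∈ range F, e := h7
    rw [h8, sum_const, card_range, smul_eq_mul]
    have h9 := Finset.sum_range_id_mul_two F
    have h10 : 2 * n * ∑ e ∈ range F, e = n * (F * (F - 1)) := by rw [← h9]; ring
    rw [h10]
    rcases F with _ | F
    · simp
    · rw [Nat.add_sub_cancel]; ring
  have := h6 E
  omega

/-- The explicit bound. -/
theorem pure_half {p q : ℂ[X]} {n m : ℕ} (hpn : p.natDegree = n) (hqm : q.natDegree = m)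
    (hm : 1 ≤ m) (hmn : m < n) :
    2 * (zeros p q).ncard ≤ n ^ 2 + n * m + 2 * (n - m) + n / (n - m) := by
  obtain ⟨d, hd⟩ : ∃ d, n - m = d := ⟨_, rfl⟩
  obtain ⟨N, hN⟩ : ∃ N, (zeros p q).ncard = N := ⟨_, rfl⟩
  have hnd : n = m + d := by omega
  have hdpos : 0 < d := by omega
  have hmain := (pure_general hpn hqm hm hmn (n * (d / 2))).2
  have hc := cnt_bound (n := n) (d := d) (E := d / 2) (by omega)
  rw [hd, hN] at hmain
  rw [hd, hN]
  obtain ⟨E, hE⟩ : ∃ E, d / 2 = E := ⟨_, rfl⟩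
  rw [hE] at hmain hc
  obtain ⟨K, hK⟩ : ∃ K, cnt n d (n * E) = K := ⟨_, rfl⟩
  rw [hK] at hmain hc
  have h2E : 2 * E ≤ d := by omega
  by_cases hlt : n * E < N
  · have h1 := Nat.mul_le_mul_left (2 * d) (hmain hlt)
    have key : d * (2 * N) ≤ d * (n ^ 2 + n * m + 2 * d) + n := by
      have hcase : d = 2 * E ∨ d = 2 * E + 1 := by omega
      rcases hcase with h | h
      · subst h
        subst hnd
        nlinarith
      · subst h
        subst hnd
        nlinarith
    have h3 : 2 * N ≤ n ^ 2 + n * m + 2 * d + n / d := by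
      by_contra hc2
      have h4 : n / d < 2 * N - (n ^ 2 + n * m + 2 * d) := by omega
      rw [Nat.div_lt_iff_lt_mul hdpos] at h4
      have h5 : (2 * N - (n ^ 2 + n * m + 2 * d)) * d = d * (2 * N) -
          d * (n ^ 2 + n * m + 2 * d) := by
        rw [mul_comm, Nat.mul_sub]
      rw [h5] at h4
      omega
    exact h3
  · have h6 : N ≤ n * E := not_lt.1 hlt
    have h7 : 2 * (n * E) ≤ n * d := by nlinarith
    have h8 : n * d ≤ n ^ 2 := by
      rw [sq]; exact Nat.mul_le_mul_left n (by omega)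
    have : 0 ≤ n / d := Nat.zero_le _
    nlinarith

end Pool.Agent.H.MP_cd3d06_an
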