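import Pool.Agent.H.MP_cd3d06_an.UpperGeneral

/-!
An upper bound from polynomials in `z` alone, by integration by parts.
-/

namespace Pool.Agent.H.MP_cd3d06_an

open Polynomial ComplexConjugate Finset

theorem res_pow_mul {p : ℂ[X]} (hp : p.Monic) (hd : 1 ≤ p.natDegree) (k : ℕ) (G : ℂ[X]) :
    res p k (p ^ k * G) = res p 0 G := by
  induction k with
  | zero => simp
  | succ k ih => rw [pow_succ', mul_assoc, res_mul_succ hp hd, ih]

theorem res_pow_mul_zero {p : ℂ[X]} (hp : p.Monic) (hd : 1 ≤ p.natDegree) (k : ℕ) (G : ℂ[X]) :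
    res p k (p ^ (k + 1) * G) = 0 := by
  rw [pow_succ, mul_assoc, res_pow_mul hp hd, res_mul_zero hp]

theorem natDegree_deriv_le (F : ℂ[X]) {d : ℕ} (h : F.natDegree ≤ d) :
    (derivative F).natDegree ≤ d - 1 :=
  (natDegree_derivative_le F).trans (by omega)

/-- Integration by parts. -/
theorem res_deriv {p : ℂ[X]} (hp : p.Monic) (hd : 1 ≤ p.natDegree) (k : ℕ) (F : ℂ[X]) :
    ((k : ℂ) + 1) * res p (k + 1) (F * derivative p) = res p k (derivative F) := by
  obtain ⟨R, hR⟩ : ∃ R, F %ₘ p ^ (k + 1) = R := ⟨_, rfl⟩
  obtain ⟨Q, hQ⟩ : ∃ Q, F /ₘ p ^ (k + 1) = Q := ⟨_, rfl⟩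
  have hF : F = R + p ^ (k + 1) * Q := by
    rw [← hR, ← hQ]; exact (modByMonic_add_div F (p ^ (k + 1))).symm
  have hne : p ^ (k + 1) ≠ 1 := by
    intro h1
    have := congrArg natDegree h1
    rw [hp.natDegree_pow, natDegree_one] at this
    have : (k + 1) * p.natDegree ≠ 0 := by positivity
    omega
  have hRd : R.natDegree < (k + 1) * p.natDegree := by
    rw [← hR, ← hp.natDegree_pow]
    exact natDegree_modByMonic_lt F (hp.pow _) hne
  have e1 : res p k (derivative R) = 0 := by
    rcases Nat.eq_zero_or_pos R.natDegree with h0 | h0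
    · rw [eq_C_of_natDegree_eq_zero h0, derivative_C, map_zero]
    · apply res_eq_zero hp
      have := natDegree_deriv_le R le_rfl
      rw [mul_comm] at hRd
      omega
  have e2 : res p (k + 1) (R * derivative p) = 0 := by
    apply res_eq_zero hp
    have h1 := natDegree_deriv_le p le_rfl
    have h2 : (R * derivative p).natDegree ≤ R.natDegree + (derivative p).natDegree :=
      natDegree_mul_le
    have h3 : p.natDegree * (k + 1 + 1) = (k + 1) * p.natDegree + p.natDegree := by ring
    omega
  have e3 : res p (k + 1) (F * derivative p) = res p 0 (Q * derivative p) := by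
    rw [hF, add_mul, map_add, e2, zero_add, mul_assoc, res_pow_mul hp hd]
  have e4 : res p k (derivative F) = ((k : ℂ) + 1) * res p 0 (Q * derivative p) := by
    rw [hF, derivative_add, map_add, e1, zero_add, derivative_mul, map_add,
      res_pow_mul_zero hp hd, add_zero, derivative_pow]
    have : C ((k + 1 : ℕ) : ℂ) * p ^ (k + 1 - 1) * derivative p * Q =
        ((k : ℂ) + 1) • (p ^ k * (Q * derivative p)) := by
      rw [Nat.add_sub_cancel, smul_eq_C_mul]
      push_cast
      ring
    rw [this, map_smul, res_pow_mul hp hd, smul_eq_mul]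
  rw [e3, e4]

section
variable {p q f : ℂ[X]}

theorem ibp_succ (hp : p.Monic) (hd : 1 ≤ p.natDegree) (A B : ℕ) :
    ((A : ℂ) + 1) * res p (A + 1) (f * derivative p * q ^ (B + 1)) =
      res p A (derivative f * q ^ (B + 1)) +
        ((B : ℂ) + 1) * res p A (f * derivative q * q ^ B) := by
  have h := res_deriv hp hd A (f * q ^ (B + 1))
  rw [show f * q ^ (B + 1) * derivative p = f * derivative p * q ^ (B + 1) by ring] at h
  have h2 : f * (C ((B + 1 : ℕ) : ℂ) * q ^ B * derivative q) =
      ((B : ℂ) + 1) • (f * derivative q * q ^ B) := by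
    rw [smul_eq_C_mul]
    push_cast
    ring
  rw [h, derivative_mul, derivative_pow, Nat.add_sub_cancel, map_add, h2, map_smul, smul_eq_mul]

theorem ibp_zero (hp : p.Monic) (hd : 1 ≤ p.natDegree) (A : ℕ) :
    ((A : ℂ) + 1) * res p (A + 1) (f * derivative p * q ^ 0) =
      res p A (derivative f * q ^ 0) := by
  have h := res_deriv hp hd A f
  rw [pow_zero, mul_one, mul_one]
  exact h

theorem u_zero (hp : p.Monic) (hd : 1 ≤ p.natDegree) {D : ℕ}
    (hf : f.natDegree ≤ D) {A B : ℕ} (h : D + q.natDegree * B < p.natDegree * A) :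
    res p A (f * derivative p * q ^ B) = 0 := by
  apply res_eq_zero hp
  have h1 := natDegree_deriv_le p le_rfl
  have h2 : (f * derivative p * q ^ B).natDegree ≤
      f.natDegree + (derivative p).natDegree + B * q.natDegree :=
    natDegree_mul_le.trans (Nat.add_le_add natDegree_mul_le natDegree_pow_le)
  have h3 : p.natDegree * (A + 1) = p.natDegree * A + p.natDegree := by ring
  rw [mul_comm B] at h2
  omega

theorem v_zero (hp : p.Monic) (hq1 : 1 ≤ q.natDegree) {D : ℕ}
    (hf : f.natDegree ≤ D) {A B : ℕ} (h : D + q.natDegree * (B + 1) < p.natDegree * (A + 1)) :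
    res p A (f * derivative q * q ^ B) = 0 := by
  apply res_eq_zero hp
  have h1 := natDegree_deriv_le q le_rfl
  have h2 : (f * derivative q * q ^ B).natDegree ≤
      f.natDegree + (derivative q).natDegree + B * q.natDegree :=
    natDegree_mul_le.trans (Nat.add_le_add natDegree_mul_le natDegree_pow_le)
  have h3 : q.natDegree * (B + 1) = B * q.natDegree + q.natDegree := by ring
  omega

theorem term_cj (hp : p.Monic) (A B : ℕ) (F : ℂ[X]) :
    term p q A B F (cj F) =
      (-1) ^ (A + B) * (res p A (F * q ^ B) * conj (res p B (F * q ^ A))) := by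
  rw [term_apply, ← res_map hp, Polynomial.map_mul, Polynomial.map_pow]

/-- Under the linear conditions the two residues agree. -/
theorem rho_pure (hp : p.Monic) (hq1 : 1 ≤ q.natDegree) (hq : q.natDegree < p.natDegree) {D : ℕ}
    (hf : f.natDegree ≤ D) (h0 : res p 0 (f * derivative p) = 0)
    (hK : ∀ i j : ℕ, p.natDegree * (i + 1) ≤ D + q.natDegree * j →
      p.natDegree * j ≤ D + q.natDegree * (i + 1) → res p i (derivative f * q ^ j) = 0) :
    rho p q hp hq (f * derivative p) (cj (f * derivative p)) =
      rho p q hp hq (f * derivative q) (cj (f * derivative q)) := by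
  have hd : 1 ≤ p.natDegree := by omega
  have hsucc : ∀ A : ℕ, ((A : ℂ) + 1) ≠ 0 := fun A => Nat.cast_add_one_ne_zero A
  -- the terms with one index zero
  have k1 : ∀ A : ℕ, res p A (f * derivative p * q ^ 0) = 0 := by
    intro A
    rcases Nat.eq_zero_or_pos A with h | h
    · subst h; rw [pow_zero, mul_one]; exact h0
    · obtain ⟨a, rfl⟩ : ∃ a, A = a + 1 := ⟨A - 1, by omega⟩
      by_cases h1 : p.natDegree * (a + 1) ≤ D
      · have h2 := ibp_zero (q := q) (f := f) hp hd a
        rw [hK a 0 (by simpa using h1) (by simp)] at h2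
        exact (mul_eq_zero.1 h2).resolve_left (hsucc a)
      · exact u_zero hp hd hf (by simpa using h1)
  have k2 : ∀ A B : ℕ, term p q (A + 1) (B + 1) (f * derivative p) (cj (f * derivative p)) =
      term p q A B (f * derivative q) (cj (f * derivative q)) := by
    intro A B
    rw [term_cj hp, term_cj hp]
    have hs : ((-1 : ℂ)) ^ (A + 1 + (B + 1)) = (-1) ^ (A + B) := by
      rw [show A + 1 + (B + 1) = A + B + 2 by ring, pow_add]; simp
    rw [hs]
    refine congrArg (fun t : ℂ => (-1 : ℂ) ^ (A + B) * t) ?_
    by_cases c1 : p.natDegree * (A + 1) ≤ D + q.natDegree * (B + 1)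
    · by_cases c2 : p.natDegree * (B + 1) ≤ D + q.natDegree * (A + 1)
      · have e1 := ibp_succ (q := q) (f := f) hp hd A B
        have e2 := ibp_succ (q := q) (f := f) hp hd B A
        rw [hK A (B + 1) c1 c2, zero_add] at e1
        rw [hK B (A + 1) c2 c1, zero_add] at e2
        have e3 := congrArg conj e2
        simp only [map_mul, map_add, map_natCast, map_one] at e3
        have e4 : (((A : ℂ) + 1) * ((B : ℂ) + 1)) *
            (res p (A + 1) (f * derivative p * q ^ (B + 1)) *
              conj (res p (B + 1) (f * derivative p * q ^ (A + 1)))) =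
            (((A : ℂ) + 1) * ((B : ℂ) + 1)) *
            (res p A (f * derivative q * q ^ B) * conj (res p B (f * derivative q * q ^ A))) := by
          calc _ = (((A : ℂ) + 1) * res p (A + 1) (f * derivative p * q ^ (B + 1))) *
              (((B : ℂ) + 1) * conj (res p (B + 1) (f * derivative p * q ^ (A + 1)))) := by ring
            _ = _ := by rw [e1, e3]; ring
        exact mul_left_cancel₀ (mul_ne_zero (hsucc A) (hsucc B)) e4
      · rw [u_zero hp hd hf (A := B + 1) (B := A + 1) (by omega),
          v_zero hp hq1 hf (A := B) (B := A) (by omega)]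
        simp
    · rw [u_zero hp hd hf (A := A + 1) (B := B + 1) (by omega),
        v_zero hp hq1 hf (A := A) (B := B) (by omega)]
      simp
  set L := (f * derivative p).natDegree + (cj (f * derivative p)).natDegree +
    ((f * derivative q).natDegree + (cj (f * derivative q)).natDegree) + 1 with hL
  rw [rho_eq hp hq (L := L + 1) (by omega), rho_eq hp hq (L := L) (by omega), trunc_apply,
    trunc_apply, sum_range_succ']
  have z1 : ∑ B ∈ range (L + 1), term p q 0 B (f * derivative p) (cj (f * derivative p)) = 0 := by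
    refine sum_eq_zero fun B _ => ?_
    rw [term_cj hp, k1 B]
    simp
  rw [z1, add_zero]
  refine sum_congr rfl fun A _ => ?_
  rw [sum_range_succ']
  have z2 : term p q (A + 1) 0 (f * derivative p) (cj (f * derivative p)) = 0 := by
    rw [term_cj hp, k1 (A + 1)]
    simp
  rw [z2, add_zero]
  exact sum_congr rfl fun B _ => k2 A B

end

end Pool.Agent.H.MP_cd3d06_an
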