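import Pool.Agent.H.MP_cd3d06_an.Formula

/-!
The trace of `f f*` as a sum of pure forms.
-/

namespace Pool.Agent.H.MP_cd3d06_an

open Polynomial ComplexConjugate Finset

/-- The element with coefficients `C`. -/
noncomputable def fev {R : Type} [CommRing R] [Algebra ℂ R] {a b : ℕ} (C : Fin a × Fin b → ℂ)
    (z w : R) : R := ∑ u, C u • (z ^ (u.1 : ℕ) * w ^ (u.2 : ℕ))

/-- The conjugate element. -/
noncomputable def fst {R : Type} [CommRing R] [Algebra ℂ R] {a b : ℕ} (C : Fin a × Fin b → ℂ)
    (z w : R) : R := ∑ u, conj (C u) • (z ^ (u.2 : ℕ) * w ^ (u.1 : ℕ))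

/-- The matrices attached to `C` and a sequence. -/
noncomputable def mat {a b : ℕ} (s : ℕ → ℂ) (C : Fin a × Fin b → ℂ) (j' j : Fin b) : ℂ :=
  ∑ i : Fin a, C (i, j) * s (i + j')

theorem quad {a b : ℕ} (s : ℕ → ℂ) (C : Fin a × Fin b → ℂ) :
    ∑ u, ∑ v, C u * conj (C v) * (s (u.1 + v.2) * conj (s (u.2 + v.1))) =
      ∑ j, ∑ j', mat s C j' j * conj (mat s C j j') := by
  have e1 : ∀ j j' : Fin b, mat s C j' j * conj (mat s C j j') =
      ∑ i : Fin a, ∑ i' : Fin a, C (i, j) * conj (C (i', j')) *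
        (s (i + j') * conj (s (j + i'))) := by
    intro j j'
    unfold mat
    rw [map_sum, sum_mul_sum]
    refine sum_congr rfl fun i _ => sum_congr rfl fun i' _ => ?_
    rw [map_mul, add_comm (i' : ℕ) (j : ℕ)]
    ring
  simp only [e1, Fintype.sum_prod_type]
  rw [sum_comm]
  refine sum_congr rfl fun j _ => ?_
  calc ∑ i : Fin a, ∑ i' : Fin a, ∑ j' : Fin b, C (i, j) * conj (C (i', j')) *
        (s (i + j') * conj (s (j + i')))
      = ∑ i : Fin a, ∑ j' : Fin b, ∑ i' : Fin a, C (i, j) * conj (C (i', j')) *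
        (s (i + j') * conj (s (j + i'))) := by
          refine sum_congr rfl fun i _ => ?_
          rw [sum_comm]
    _ = ∑ j' : Fin b, ∑ i : Fin a, ∑ i' : Fin a, C (i, j) * conj (C (i', j')) *
        (s (i + j') * conj (s (j + i'))) := by rw [sum_comm]

theorem form_nonpos {b : ℕ} (M : Fin b → Fin b → ℂ) (P : Fin b → Prop)
    (h0 : ∀ j' j, ¬ P j' → M j' j = 0) (h1 : ∀ j' j, P j → P j' → M j' j = - M j j') :
    (∑ j, ∑ j', M j' j * conj (M j j')).re ≤ 0 := by
  rw [Complex.re_sum]
  refine sum_nonpos fun j _ => ?_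
  rw [Complex.re_sum]
  refine sum_nonpos fun j' _ => ?_
  by_cases hj : P j
  · by_cases hj' : P j'
    · rw [h1 j j' hj' hj, map_neg, mul_neg, Complex.mul_conj, Complex.neg_re, Complex.ofReal_re]
      linarith [Complex.normSq_nonneg (M j' j)]
    · rw [h0 j' j hj']; simp
  · rw [h0 j j' hj]; simp

theorem form_nonneg {b : ℕ} (M : Fin b → Fin b → ℂ) (P : Fin b → Prop)
    (h0 : ∀ j' j, ¬ P j' → M j' j = 0) (h1 : ∀ j' j, P j → P j' → M j' j = M j j') :
    0 ≤ (∑ j, ∑ j', M j' j * conj (M j j')).re := by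
  rw [Complex.re_sum]
  refine sum_nonneg fun j _ => ?_
  rw [Complex.re_sum]
  refine sum_nonneg fun j' _ => ?_
  by_cases hj : P j
  · by_cases hj' : P j'
    · rw [h1 j j' hj' hj, Complex.mul_conj, Complex.ofReal_re]
      exact Complex.normSq_nonneg (M j' j)
    · rw [h0 j' j hj']; simp
  · rw [h0 j j' hj]; simp

/-- Coefficients of the forms coming from `p'`. -/
noncomputable def al (p q : ℂ[X]) (k s : ℕ) : ℂ := res p k (X ^ s * derivative p * q ^ k)
/-- Coefficients of the forms coming from `q'`. -/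
noncomputable def be (p q : ℂ[X]) (k s : ℕ) : ℂ := res p k (X ^ s * derivative q * q ^ k)

theorem al_eq_zero {p q : ℂ[X]} (hp : p.Monic) (hq : q.natDegree < p.natDegree) {k s : ℕ}
    (h : s < (p.natDegree - q.natDegree) * k) : al p q k s = 0 := by
  apply res_eq_zero hp
  have h1 : (X ^ s * derivative p * q ^ k).natDegree ≤ s + (p.natDegree - 1) + k * q.natDegree := by
    refine natDegree_mul_le.trans (add_le_add (natDegree_mul_le.trans (add_le_add ?_ ?_))
      natDegree_pow_le)
    · simp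
    · exact natDegree_derivative_le p
  obtain ⟨d, hd⟩ : ∃ d, p.natDegree = q.natDegree + 1 + d :=
    ⟨p.natDegree - q.natDegree - 1, by omega⟩
  have h2 : p.natDegree - q.natDegree = d + 1 := by omega
  rw [h2] at h
  have h3 : p.natDegree * (k + 1) = (q.natDegree * k + (d + 1) * k) + p.natDegree := by
    rw [hd]; ring
  rw [h3]
  have h4 : k * q.natDegree = q.natDegree * k := mul_comm _ _
  omega

theorem be_eq_zero {p q : ℂ[X]} (hp : p.Monic) (hq1 : 1 ≤ q.natDegree)
    (hq : q.natDegree < p.natDegree) {k s : ℕ}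
    (h : s < (p.natDegree - q.natDegree) * (k + 1)) : be p q k s = 0 := by
  apply res_eq_zero hp
  have h1 : (X ^ s * derivative q * q ^ k).natDegree ≤ s + (q.natDegree - 1) + k * q.natDegree := by
    refine natDegree_mul_le.trans (add_le_add (natDegree_mul_le.trans (add_le_add ?_ ?_))
      natDegree_pow_le)
    · simp
    · exact natDegree_derivative_le q
  obtain ⟨d, hd⟩ : ∃ d, p.natDegree = q.natDegree + 1 + d :=
    ⟨p.natDegree - q.natDegree - 1, by omega⟩
  have h2 : p.natDegree - q.natDegree = d + 1 := by omega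
  rw [h2] at h
  have h3 : p.natDegree * (k + 1) = q.natDegree * k + q.natDegree + (d + 1) * (k + 1) := by
    rw [hd]; ring
  rw [h3]
  have h4 : k * q.natDegree = q.natDegree * k := mul_comm _ _
  omega

theorem rho_p {p q : ℂ[X]} (hp : p.Monic) (hq : q.natDegree < p.natDegree) {s t : ℕ}
    (hs : s + 1 ≤ p.natDegree) (ht : t + 1 ≤ p.natDegree) :
    rho p q hp hq (X ^ s * derivative p) (X ^ t * derivative (cj p)) =
      ∑ k ∈ range p.natDegree, al p q k s * conj (al p q k t) := by
  have d1 : (derivative p).natDegree ≤ p.natDegree - 1 := natDegree_derivative_le p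
  have e : X ^ t * derivative (cj p) = cj (X ^ t * derivative p) := by
    simp [cj, derivative_map]
  rw [e, rho_low hp hq]
  · refine sum_congr rfl fun k _ => ?_
    have e2 : cj (X ^ t * derivative p) * cj q ^ k = cj (X ^ t * derivative p * q ^ k) := by
      simp [cj]
    rw [e2, res_map hp]
    rfl
  · have h1 : (X ^ s * derivative p).natDegree ≤ s + (p.natDegree - 1) :=
      natDegree_mul_le.trans (add_le_add (by simp) d1)
    omega
  · rw [natDegree_cj]
    have h1 : (X ^ t * derivative p).natDegree ≤ t + (p.natDegree - 1) :=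
      natDegree_mul_le.trans (add_le_add (by simp) d1)
    omega

theorem rho_q {p q : ℂ[X]} (hp : p.Monic) (hq : q.natDegree < p.natDegree) {s t : ℕ}
    (hs : s + 1 ≤ p.natDegree) (ht : t + 1 ≤ p.natDegree) :
    rho p q hp hq (X ^ s * derivative q) (X ^ t * derivative (cj q)) =
      ∑ k ∈ range p.natDegree, be p q k s * conj (be p q k t) := by
  have d1 : (derivative q).natDegree ≤ q.natDegree - 1 := natDegree_derivative_le q
  have e : X ^ t * derivative (cj q) = cj (X ^ t * derivative q) := by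
    simp [cj, derivative_map]
  rw [e, rho_low hp hq]
  · refine sum_congr rfl fun k _ => ?_
    have e2 : cj (X ^ t * derivative q) * cj q ^ k = cj (X ^ t * derivative q * q ^ k) := by
      simp [cj]
    rw [e2, res_map hp]
    rfl
  · have h1 : (X ^ s * derivative q).natDegree ≤ s + (q.natDegree - 1) :=
      natDegree_mul_le.trans (add_le_add (by simp) d1)
    omega
  · rw [natDegree_cj]
    have h1 : (X ^ t * derivative q).natDegree ≤ t + (q.natDegree - 1) :=
      natDegree_mul_le.trans (add_le_add (by simp) d1)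
    omega

/-- Sum of the pure forms. -/
theorem trace_ff {A : Type} [CommRing A] [Algebra ℂ A] [Module.Finite ℂ A] (ρ : A →ₗ[ℂ] ℂ)
    {p q : ℂ[X]} (hp : p.Monic) (hq : q.natDegree < p.natDegree) {z w : A}
    (hρ : ∀ F G : ℂ[X], ρ (aeval z F * aeval w G) = rho p q hp hq F G)
    (h1 : aeval z p + aeval w (cj q) = 0) (h2 : aeval z q + aeval w (cj p) = 0)
    (hgen : Algebra.adjoin ℂ {z, w} = ⊤) {a b : ℕ} (hab : a + b ≤ p.natDegree + 1)
    (C : Fin a × Fin b → ℂ) :
    LinearMap.trace ℂ A (LinearMap.mulLeft ℂ (fev C z w * fst C z w)) =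
      ∑ k ∈ range p.natDegree,
        ((∑ j, ∑ j', mat (al p q k) C j' j * conj (mat (al p q k) C j j')) -
         (∑ j, ∑ j', mat (be p q k) C j' j * conj (mat (be p q k) C j j'))) := by
  have hmon : ∀ s < p.natDegree, ∀ t < p.natDegree,
      ρ (z ^ s * w ^ t) = if s = p.natDegree - 1 ∧ t = p.natDegree - 1 then 1 else 0 := by
    intro s hs t ht
    have e := hρ (X ^ s) (X ^ t)
    rw [rho_coeff hp hq (by simpa using hs) (by simpa using ht)] at e
    simp only [map_pow, aeval_X, coeff_X_pow] at e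
    rw [e]
    by_cases h3 : p.natDegree - 1 = s
    · by_cases h4 : p.natDegree - 1 = t
      · rw [if_pos h3, if_pos h4, if_pos ⟨h3.symm, h4.symm⟩, mul_one]
      · rw [if_neg h4, mul_zero, if_neg (by rintro ⟨_, h⟩; exact h4 h.symm)]
    · rw [if_neg h3, zero_mul, if_neg (by rintro ⟨h, _⟩; exact h3 h.symm)]
  rw [trace_formula ρ hp rfl hq hmon h1 h2 hgen]
  have key : ∀ u v : Fin a × Fin b,
      ρ ((z ^ (u.1 : ℕ) * w ^ (u.2 : ℕ)) * (z ^ (v.2 : ℕ) * w ^ (v.1 : ℕ)) *
        (aeval z (derivative p) * aeval w (derivative (cj p)) -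
          aeval z (derivative q) * aeval w (derivative (cj q)))) =
      ∑ k ∈ range p.natDegree, (al p q k (u.1 + v.2) * conj (al p q k (u.2 + v.1)) -
        be p q k (u.1 + v.2) * conj (be p q k (u.2 + v.1))) := by
    intro u v
    have hu1 := u.1.2
    have hu2 := u.2.2
    have hv1 := v.1.2
    have hv2 := v.2.2
    have e : (z ^ (u.1 : ℕ) * w ^ (u.2 : ℕ)) * (z ^ (v.2 : ℕ) * w ^ (v.1 : ℕ)) *
        (aeval z (derivative p) * aeval w (derivative (cj p)) -
          aeval z (derivative q) * aeval w (derivative (cj q))) =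
        aeval z (X ^ ((u.1 : ℕ) + (v.2 : ℕ)) * derivative p) *
          aeval w (X ^ ((u.2 : ℕ) + (v.1 : ℕ)) * derivative (cj p)) -
        aeval z (X ^ ((u.1 : ℕ) + (v.2 : ℕ)) * derivative q) *
          aeval w (X ^ ((u.2 : ℕ) + (v.1 : ℕ)) * derivative (cj q)) := by
      simp only [map_mul, map_pow, aeval_X, pow_add]
      ring
    rw [e, map_sub, hρ, hρ, rho_p hp hq (by omega) (by omega), rho_q hp hq (by omega) (by omega),
      sum_sub_distrib]
  have e1 : ∀ k, (∑ j, ∑ j', mat (al p q k) C j' j * conj (mat (al p q k) C j j')) -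
         (∑ j, ∑ j', mat (be p q k) C j' j * conj (mat (be p q k) C j j')) =
      ∑ u, ∑ v, C u * conj (C v) * (al p q k (u.1 + v.2) * conj (al p q k (u.2 + v.1)) -
        be p q k (u.1 + v.2) * conj (be p q k (u.2 + v.1))) := by
    intro k
    rw [← quad, ← quad, ← sum_sub_distrib]
    refine sum_congr rfl fun u _ => ?_
    rw [← sum_sub_distrib]
    refine sum_congr rfl fun v _ => ?_
    ring
  simp only [e1]
  rw [sum_comm]
  unfold fev fst
  rw [sum_mul_sum, sum_mul, map_sum]
  refine sum_congr rfl fun u _ => ?_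
  rw [sum_mul, map_sum, sum_comm]
  refine sum_congr rfl fun v _ => ?_
  rw [smul_mul_smul_comm, smul_mul_assoc, map_smul, key, smul_eq_mul, mul_sum]

end Pool.Agent.H.MP_cd3d06_an
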