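import Pool.Agent.H.MP_cd3d06_an.Defs

/-!
The functionals `res p k F`: the coefficient of `1 / z` at infinity of `F / p ^ (k + 1)`.
-/

namespace Pool.Agent.H.MP_cd3d06_an

open Polynomial ComplexConjugate Finset

/-- The residue at infinity of `F / p ^ (k + 1)` for a monic polynomial `p`. -/
noncomputable def res (p : ℂ[X]) (k : ℕ) : ℂ[X] →ₗ[ℂ] ℂ :=
  (lcoeff ℂ (p.natDegree * (k + 1) - 1)).comp (modByMonicHom (p ^ (k + 1)))

theorem res_apply (p : ℂ[X]) (k : ℕ) (F : ℂ[X]) :
    res p k F = (F %ₘ p ^ (k + 1)).coeff (p.natDegree * (k + 1) - 1) := rfl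

theorem res_eq_zero {p : ℂ[X]} (hp : p.Monic) {k : ℕ} {F : ℂ[X]}
    (h : F.natDegree + 1 < p.natDegree * (k + 1)) : res p k F = 0 := by
  rw [res_apply, (modByMonic_eq_self_iff (hp.pow _)).2]
  · apply coeff_eq_zero_of_natDegree_lt
    omega
  · apply degree_lt_degree
    rw [hp.natDegree_pow]
    rw [mul_comm] at h
    omega

theorem res_of_lt {p : ℂ[X]} (hp : p.Monic) {F : ℂ[X]}
    (h : F.natDegree < p.natDegree) : res p 0 F = F.coeff (p.natDegree - 1) := by
  rw [res_apply, (modByMonic_eq_self_iff (hp.pow _)).2]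
  · simp
  · apply degree_lt_degree
    rw [hp.natDegree_pow]
    omega

theorem res_mul_zero {p : ℂ[X]} (hp : p.Monic) (F : ℂ[X]) : res p 0 (p * F) = 0 := by
  rw [res_apply]
  have : (p * F) %ₘ p ^ (0 + 1) = 0 := by
    rw [modByMonic_eq_zero_iff_dvd (hp.pow _)]
    simp
  rw [this, coeff_zero]

theorem res_mul_succ {p : ℂ[X]} (hp : p.Monic) (hd : 1 ≤ p.natDegree) (k : ℕ) (F : ℂ[X]) :
    res p (k + 1) (p * F) = res p k F := by
  have hne : p ^ (k + 1) ≠ 1 := by
    intro h1
    have := congrArg natDegree h1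
    rw [hp.natDegree_pow, natDegree_one] at this
    have : (k + 1) * p.natDegree ≠ 0 := by positivity
    omega
  have h1 : (F %ₘ p ^ (k + 1)).natDegree < (p ^ (k + 1)).natDegree :=
    natDegree_modByMonic_lt F (hp.pow _) hne
  have key : (p * F) %ₘ p ^ (k + 1 + 1) = p * (F %ₘ p ^ (k + 1)) := by
    refine (div_modByMonic_unique (F /ₘ p ^ (k + 1)) (p * (F %ₘ p ^ (k + 1))) (hp.pow _) ⟨?_, ?_⟩).2
    · have := modByMonic_add_div F (p ^ (k + 1))
      calc p * (F %ₘ p ^ (k + 1)) + p ^ (k + 1 + 1) * (F /ₘ p ^ (k + 1))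
          = p * (F %ₘ p ^ (k + 1) + p ^ (k + 1) * (F /ₘ p ^ (k + 1))) := by ring
        _ = p * F := by rw [this]
    · apply degree_lt_degree
      rw [hp.natDegree_pow]
      refine lt_of_le_of_lt natDegree_mul_le ?_
      rw [hp.natDegree_pow] at h1
      calc p.natDegree + (F %ₘ p ^ (k + 1)).natDegree < p.natDegree + (k + 1) * p.natDegree := by
            omega
        _ = (k + 1 + 1) * p.natDegree := by ring
  rw [res_apply, res_apply, key]
  rw [hp.natDegree_pow] at h1
  have e : p.natDegree * (k + 1 + 1) - 1 = p.natDegree + (p.natDegree * (k + 1) - 1) := by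
    have : 1 ≤ p.natDegree * (k + 1) := Nat.one_le_iff_ne_zero.2 (by positivity)
    have e2 : p.natDegree * (k + 1 + 1) = p.natDegree + p.natDegree * (k + 1) := by ring
    omega
  rw [e, coeff_mul_add_eq_of_natDegree_le le_rfl]
  · rw [hp.coeff_natDegree, one_mul]
  · rw [mul_comm] at h1
    omega

theorem res_map {p : ℂ[X]} (hp : p.Monic) (k : ℕ) (F : ℂ[X]) :
    res (p.map (starRingEnd ℂ)) k (F.map (starRingEnd ℂ)) = conj (res p k F) := by
  rw [res_apply, res_apply, ← Polynomial.map_pow, ← map_modByMonic _ (hp.pow _), coeff_map,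
    hp.natDegree_map]

end Pool.Agent.H.MP_cd3d06_an
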