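import Pool.Agent.H.MP_cd3d06_an.Res

/-!
The global residue functional of the system `p(z) + q̄(w) = 0`, `q(z) + p̄(w) = 0`.
-/

namespace Pool.Agent.H.MP_cd3d06_an

open Polynomial ComplexConjugate Finset

/-- The polynomial with conjugated coefficients. -/
noncomputable abbrev cj (f : ℂ[X]) : ℂ[X] := f.map (starRingEnd ℂ)

theorem cj_cj (f : ℂ[X]) : cj (cj f) = f := by
  unfold cj
  rw [Polynomial.map_map]
  have : (starRingEnd ℂ).comp (starRingEnd ℂ) = RingHom.id ℂ := by
    ext x; simp
  rw [this, Polynomial.map_id]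

theorem natDegree_cj (f : ℂ[X]) : (cj f).natDegree = f.natDegree :=
  natDegree_map_eq_of_injective (RingHom.injective _) f

/-- One term of the expansion of the residue functional. -/
noncomputable def term (p q : ℂ[X]) (A B : ℕ) : ℂ[X] →ₗ[ℂ] ℂ[X] →ₗ[ℂ] ℂ :=
  ((-1 : ℂ) ^ (A + B)) • (LinearMap.mul ℂ ℂ).compl₁₂
    ((res p A).comp (LinearMap.mulRight ℂ (q ^ B)))
    ((res (cj p) B).comp (LinearMap.mulRight ℂ (cj q ^ A)))

theorem term_apply (p q : ℂ[X]) (A B : ℕ) (F G : ℂ[X]) :
    term p q A B F G = (-1) ^ (A + B) * (res p A (F * q ^ B) * res (cj p) B (G * cj q ^ A)) := by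
  simp [term]

theorem term_eq_zero {p q : ℂ[X]} (hp : p.Monic) (hq : q.natDegree < p.natDegree) {A B : ℕ}
    {F G : ℂ[X]} (h : F.natDegree + G.natDegree < A + B) : term p q A B F G = 0 := by
  rw [term_apply]
  by_contra hne
  have h1 : res p A (F * q ^ B) ≠ 0 := by
    intro h0; rw [h0] at hne; simp at hne
  have h2 : res (cj p) B (G * cj q ^ A) ≠ 0 := by
    intro h0; rw [h0] at hne; simp at hne
  have h3 : p.natDegree * (A + 1) ≤ (F * q ^ B).natDegree + 1 := by
    by_contra hc
    exact h1 (res_eq_zero hp (by omega))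
  have h4 : (cj p).natDegree * (B + 1) ≤ (G * cj q ^ A).natDegree + 1 := by
    by_contra hc
    exact h2 (res_eq_zero (p := cj p) (hp.map _) (by omega))
  have h5 : (F * q ^ B).natDegree ≤ F.natDegree + B * q.natDegree :=
    natDegree_mul_le.trans (Nat.add_le_add_left natDegree_pow_le _)
  have h6 : (G * cj q ^ A).natDegree ≤ G.natDegree + A * (cj q).natDegree :=
    natDegree_mul_le.trans (Nat.add_le_add_left natDegree_pow_le _)
  rw [natDegree_cj] at h4 h6
  obtain ⟨d, hd⟩ : ∃ d, p.natDegree = q.natDegree + 1 + d := ⟨p.natDegree - q.natDegree - 1, by omega⟩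
  rw [hd] at h3 h4
  nlinarith

/-- Truncated residue functional. -/
noncomputable def trunc (p q : ℂ[X]) (L : ℕ) : ℂ[X] →ₗ[ℂ] ℂ[X] →ₗ[ℂ] ℂ :=
  ∑ A ∈ range L, ∑ B ∈ range L, term p q A B

theorem trunc_apply (p q : ℂ[X]) (L : ℕ) (F G : ℂ[X]) :
    trunc p q L F G = ∑ A ∈ range L, ∑ B ∈ range L, term p q A B F G := by
  simp [trunc]

theorem trunc_succ {p q : ℂ[X]} (hp : p.Monic) (hq : q.natDegree < p.natDegree) {L : ℕ}
    {F G : ℂ[X]} (h : F.natDegree + G.natDegree < L) :
    trunc p q (L + 1) F G = trunc p q L F G := by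
  rw [trunc_apply, trunc_apply, sum_range_succ]
  rw [sum_eq_zero (s := range (L + 1)) (fun B _ => term_eq_zero hp hq (by omega)), add_zero]
  refine sum_congr rfl fun A _ => ?_
  rw [sum_range_succ, term_eq_zero hp hq (by omega), add_zero]

theorem trunc_stable {p q : ℂ[X]} (hp : p.Monic) (hq : q.natDegree < p.natDegree) {L : ℕ}
    {F G : ℂ[X]} (h : F.natDegree + G.natDegree < L) :
    trunc p q L F G = trunc p q (F.natDegree + G.natDegree + 1) F G := by
  obtain ⟨j, rfl⟩ : ∃ j, L = F.natDegree + G.natDegree + 1 + j := ⟨L - (F.natDegree + G.natDegree + 1), by omega⟩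
  induction j with
  | zero => rfl
  | succ j ih =>
    rw [← Nat.add_assoc, trunc_succ hp hq (by omega)]
    exact ih (by omega)

/-- The residue functional on products `F(z) G(w)`. -/
noncomputable def rho (p q : ℂ[X]) (hp : p.Monic) (hq : q.natDegree < p.natDegree) :
    ℂ[X] →ₗ[ℂ] ℂ[X] →ₗ[ℂ] ℂ :=
  LinearMap.mk₂ ℂ (fun F G => trunc p q (F.natDegree + G.natDegree + 1) F G)
    (by
      intro F F' G
      have h1 : (F + F').natDegree ≤ F.natDegree + F'.natDegree :=
        (natDegree_add_le _ _).trans (by omega)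
      rw [← trunc_stable hp hq (L := F.natDegree + F'.natDegree + G.natDegree + 1) (F := F + F')
        (G := G) (by omega),
        ← trunc_stable hp hq (L := F.natDegree + F'.natDegree + G.natDegree + 1) (F := F)
        (G := G) (by omega),
        ← trunc_stable hp hq (L := F.natDegree + F'.natDegree + G.natDegree + 1) (F := F')
        (G := G) (by omega)]
      simp)
    (by
      intro c F G
      have h1 : (c • F).natDegree ≤ F.natDegree := natDegree_smul_le _ _
      rw [← trunc_stable hp hq (L := F.natDegree + G.natDegree + 1) (F := c • F)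
        (G := G) (by omega)]
      simp)
    (by
      intro F G G'
      have h1 : (G + G').natDegree ≤ G.natDegree + G'.natDegree :=
        (natDegree_add_le _ _).trans (by omega)
      rw [← trunc_stable hp hq (L := F.natDegree + G'.natDegree + G.natDegree + 1) (F := F)
        (G := G + G') (by omega),
        ← trunc_stable hp hq (L := F.natDegree + G'.natDegree + G.natDegree + 1) (F := F)
        (G := G) (by omega),
        ← trunc_stable hp hq (L := F.natDegree + G'.natDegree + G.natDegree + 1) (F := F)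
        (G := G') (by omega)]
      simp)
    (by
      intro c F G
      have h1 : (c • G).natDegree ≤ G.natDegree := natDegree_smul_le _ _
      rw [← trunc_stable hp hq (L := F.natDegree + G.natDegree + 1) (F := F)
        (G := c • G) (by omega)]
      simp)

theorem rho_eq {p q : ℂ[X]} (hp : p.Monic) (hq : q.natDegree < p.natDegree) {L : ℕ}
    {F G : ℂ[X]} (h : F.natDegree + G.natDegree < L) : rho p q hp hq F G = trunc p q L F G :=
  (trunc_stable hp hq h).symm

theorem rho_P {p q : ℂ[X]} (hp : p.Monic) (hq : q.natDegree < p.natDegree) (F G : ℂ[X]) :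
    rho p q hp hq (p * F) G + rho p q hp hq F (cj q * G) = 0 := by
  set L := p.natDegree + F.natDegree + q.natDegree + G.natDegree + 1 with hL
  have h1 : (p * F).natDegree ≤ p.natDegree + F.natDegree := natDegree_mul_le
  have h2 : (cj q * G).natDegree ≤ q.natDegree + G.natDegree := by
    refine natDegree_mul_le.trans ?_
    rw [natDegree_cj]
  rw [rho_eq hp hq (L := L + 1) (by omega), rho_eq hp hq (L := L + 1) (by omega), trunc_apply,
    trunc_apply, sum_range_succ' (fun A => ∑ B ∈ range (L + 1), term p q A B (p * F) G) L,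
    sum_range_succ (fun A => ∑ B ∈ range (L + 1), term p q A B F (cj q * G)) L]
  have e1 : ∑ B ∈ range (L + 1), term p q 0 B (p * F) G = 0 := by
    refine sum_eq_zero fun B _ => ?_
    rw [term_apply, show p * F * q ^ B = p * (F * q ^ B) by ring, res_mul_zero hp]
    simp
  have e2 : ∑ B ∈ range (L + 1), term p q L B F (cj q * G) = 0 :=
    sum_eq_zero fun B _ => term_eq_zero hp hq (by omega)
  rw [e1, e2, add_zero, add_zero, ← sum_add_distrib]
  refine sum_eq_zero fun A _ => ?_
  rw [← sum_add_distrib]
  refine sum_eq_zero fun B _ => ?_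
  rw [term_apply, term_apply, show p * F * q ^ B = p * (F * q ^ B) by ring,
    res_mul_succ hp (by omega), show cj q * G * cj q ^ A = G * cj q ^ (A + 1) by ring,
    show A + 1 + B = A + B + 1 by ring, pow_succ]
  ring

theorem rho_Q {p q : ℂ[X]} (hp : p.Monic) (hq : q.natDegree < p.natDegree) (F G : ℂ[X]) :
    rho p q hp hq F (cj p * G) + rho p q hp hq (q * F) G = 0 := by
  set L := p.natDegree + F.natDegree + q.natDegree + G.natDegree + 1 with hL
  have h1 : (q * F).natDegree ≤ q.natDegree + F.natDegree := natDegree_mul_le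
  have h2 : (cj p * G).natDegree ≤ p.natDegree + G.natDegree := by
    refine natDegree_mul_le.trans ?_
    rw [natDegree_cj]
  rw [rho_eq hp hq (L := L + 1) (by omega), rho_eq hp hq (L := L + 1) (by omega), trunc_apply,
    trunc_apply, sum_comm, sum_comm (s := range (L + 1)) (t := range (L + 1))
      (f := fun A B => term p q A B (q * F) G),
    sum_range_succ' (fun B => ∑ A ∈ range (L + 1), term p q A B F (cj p * G)) L,
    sum_range_succ (fun B => ∑ A ∈ range (L + 1), term p q A B (q * F) G) L]
  have e1 : ∑ A ∈ range (L + 1), term p q A 0 F (cj p * G) = 0 := by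
    refine sum_eq_zero fun B _ => ?_
    rw [term_apply, show cj p * G * cj q ^ B = cj p * (G * cj q ^ B) by ring,
      res_mul_zero (hp.map _)]
    simp
  have e2 : ∑ A ∈ range (L + 1), term p q A L (q * F) G = 0 :=
    sum_eq_zero fun B _ => term_eq_zero hp hq (by omega)
  rw [e1, e2, add_zero, add_zero, ← sum_add_distrib]
  refine sum_eq_zero fun B _ => ?_
  rw [← sum_add_distrib]
  refine sum_eq_zero fun A _ => ?_
  rw [term_apply, term_apply, show cj p * G * cj q ^ A = cj p * (G * cj q ^ A) by ring,
    res_mul_succ (hp.map _) (by rw [natDegree_cj]; omega),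
    show q * F * q ^ B = F * q ^ (B + 1) by ring,
    show A + (B + 1) = A + B + 1 by ring, pow_succ]
  ring

/-- For factors of degree at most `2 n - 2` only the diagonal terms survive. -/
theorem rho_low {p q : ℂ[X]} (hp : p.Monic) (hq : q.natDegree < p.natDegree) {F G : ℂ[X]}
    (hF : F.natDegree + 2 ≤ 2 * p.natDegree) (hG : G.natDegree + 2 ≤ 2 * p.natDegree) :
    rho p q hp hq F G =
      ∑ k ∈ range p.natDegree, res p k (F * q ^ k) * res (cj p) k (G * cj q ^ k) := by
  set L := F.natDegree + G.natDegree + 1 + p.natDegree with hL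
  obtain ⟨d, hd⟩ : ∃ d, p.natDegree = q.natDegree + 1 + d := ⟨p.natDegree - q.natDegree - 1, by omega⟩
  rw [rho_eq hp hq (L := L) (by omega), trunc_apply]
  have hdiag : ∀ A ∈ range L, ∑ B ∈ range L, term p q A B F G =
      res p A (F * q ^ A) * res (cj p) A (G * cj q ^ A) := by
    intro A hA
    rw [sum_eq_single A]
    · rw [term_apply, ← two_mul, pow_mul]
      simp
    · intro B _ hBA
      rw [term_apply]
      rcases Nat.lt_or_gt_of_ne hBA with h | h
      · rw [res_eq_zero hp, zero_mul, mul_zero]
        have h5 : (F * q ^ B).natDegree ≤ F.natDegree + B * q.natDegree :=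
          natDegree_mul_le.trans (Nat.add_le_add_left natDegree_pow_le _)
        obtain ⟨e, rfl⟩ : ∃ e, A = B + 1 + e := ⟨A - B - 1, by omega⟩
        rw [hd] at hF ⊢
        nlinarith [Nat.zero_le (d * B), Nat.zero_le (e * q.natDegree), Nat.zero_le (d * e)]
      · rw [res_eq_zero (hp.map _) (k := B), mul_zero, mul_zero]
        have h5 : (G * cj q ^ A).natDegree ≤ G.natDegree + A * q.natDegree := by
          refine natDegree_mul_le.trans (Nat.add_le_add_left ?_ _)
          refine natDegree_pow_le.trans ?_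
          rw [natDegree_cj]
        rw [natDegree_cj]
        obtain ⟨e, rfl⟩ : ∃ e, B = A + 1 + e := ⟨B - A - 1, by omega⟩
        rw [hd] at hG ⊢
        nlinarith [Nat.zero_le (d * A), Nat.zero_le (e * q.natDegree), Nat.zero_le (d * e)]
    · intro h
      exact absurd hA h
  rw [sum_congr rfl hdiag]
  refine (sum_subset (range_subset_range.2 (by omega)) ?_).symm
  intro k _ hk
  have hk' : p.natDegree ≤ k := by simpa using hk
  rw [res_eq_zero hp, zero_mul]
  have h5 : (F * q ^ k).natDegree ≤ F.natDegree + k * q.natDegree :=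
    natDegree_mul_le.trans (Nat.add_le_add_left natDegree_pow_le _)
  rw [hd] at hF hk' ⊢
  nlinarith [Nat.zero_le (d * k)]

theorem rho_coeff {p q : ℂ[X]} (hp : p.Monic) (hq : q.natDegree < p.natDegree) {F G : ℂ[X]}
    (hF : F.natDegree < p.natDegree) (hG : G.natDegree < p.natDegree) :
    rho p q hp hq F G = F.coeff (p.natDegree - 1) * G.coeff (p.natDegree - 1) := by
  rw [rho_low hp hq (by omega) (by omega)]
  rw [sum_eq_single 0]
  · rw [pow_zero, pow_zero, mul_one, mul_one, res_of_lt hp hF, res_of_lt (hp.map _)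
      (by rw [natDegree_cj]; exact hG), natDegree_cj]
  · intro k _ hk
    rw [res_eq_zero hp, zero_mul]
    have h5 : (F * q ^ k).natDegree ≤ F.natDegree + k * q.natDegree :=
      natDegree_mul_le.trans (Nat.add_le_add_left natDegree_pow_le _)
    obtain ⟨d, hd⟩ : ∃ d, p.natDegree = q.natDegree + 1 + d :=
      ⟨p.natDegree - q.natDegree - 1, by omega⟩
    obtain ⟨e, rfl⟩ : ∃ e, k = e + 1 := ⟨k - 1, by omega⟩
    rw [hd] at hF ⊢
    nlinarith [Nat.zero_le (d * e)]
  · intro h
    exact absurd (mem_range.2 (by omega)) h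

end Pool.Agent.H.MP_cd3d06_an
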