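import Pool.Agent.H.MP_cd3d06_an.Model

/-!
The Bezoutian identity and the trace formula.
-/

namespace Pool.Agent.H.MP_cd3d06_an

open Polynomial ComplexConjugate Finset TensorProduct

section dd
variable {B : Type} [CommRing B] [Algebra ℂ B]

/-- Divided difference of a polynomial of degree at most `n`. -/
noncomputable def dd (n : ℕ) (f : ℂ[X]) (x y : B) : B :=
  ∑ k ∈ range (n + 1), f.coeff k • ∑ i ∈ range k, x ^ i * y ^ (k - 1 - i)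

theorem dd_mul {n : ℕ} {f : ℂ[X]} (hf : f.natDegree ≤ n) (x y : B) :
    dd n f x y * (x - y) = aeval x f - aeval y f := by
  rw [aeval_eq_sum_range' (show f.natDegree < n + 1 by omega),
    aeval_eq_sum_range' (show f.natDegree < n + 1 by omega), dd, sum_mul, ← sum_sub_distrib]
  refine sum_congr rfl fun k _ => ?_
  rw [smul_mul_assoc, geom_sum₂_mul, smul_sub]

theorem dd_diag {n : ℕ} {f : ℂ[X]} (hf : f.natDegree ≤ n) (x : B) :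
    dd n f x x = aeval x (derivative f) := by
  conv_rhs => rw [f.as_sum_range' (n + 1) (by omega)]
  rw [derivative_sum, map_sum, dd]
  refine sum_congr rfl fun k _ => ?_
  rw [derivative_monomial, aeval_monomial]
  have : ∀ i ∈ range k, x ^ i * x ^ (k - 1 - i) = x ^ (k - 1) := by
    intro i hi
    rw [← pow_add]
    congr 1
    have := mem_range.1 hi
    omega
  rw [sum_congr rfl this, sum_const, card_range, map_mul, Algebra.smul_def, nsmul_eq_mul]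
  simp [mul_assoc]

end dd

section model
variable {A : Type} [CommRing A] [Algebra ℂ A]

/-- The Bezoutian. -/
noncomputable def bez (n : ℕ) (p q : ℂ[X]) (z w : A) : A ⊗[ℂ] A :=
  dd n p (z ⊗ₜ[ℂ] (1 : A)) ((1 : A) ⊗ₜ[ℂ] z) * dd n (cj p) (w ⊗ₜ[ℂ] (1 : A)) ((1 : A) ⊗ₜ[ℂ] w) -
  dd n (cj q) (w ⊗ₜ[ℂ] (1 : A)) ((1 : A) ⊗ₜ[ℂ] w) * dd n q (z ⊗ₜ[ℂ] (1 : A)) ((1 : A) ⊗ₜ[ℂ] z)

theorem aeval_tmul_one (f : ℂ[X]) (z : A) :
    aeval (z ⊗ₜ[ℂ] (1 : A)) f = (aeval z f) ⊗ₜ[ℂ] (1 : A) := by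
  have := aeval_algHom_apply (Algebra.TensorProduct.includeLeft : A →ₐ[ℂ] A ⊗[ℂ] A) z f
  simpa using this

theorem aeval_one_tmul (f : ℂ[X]) (z : A) :
    aeval ((1 : A) ⊗ₜ[ℂ] z) f = (1 : A) ⊗ₜ[ℂ] (aeval z f) := by
  have := aeval_algHom_apply (Algebra.TensorProduct.includeRight : A →ₐ[ℂ] A ⊗[ℂ] A) z f
  simpa using this

theorem bez_swap {n : ℕ} {p q : ℂ[X]} (hp : p.natDegree ≤ n) (hq : q.natDegree ≤ n) {z w : A}
    (h1 : aeval z p + aeval w (cj q) = 0) (h2 : aeval z q + aeval w (cj p) = 0)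
    (hgen : Algebra.adjoin ℂ {z, w} = ⊤) (g : A) :
    (g ⊗ₜ[ℂ] (1 : A)) * bez n p q z w = ((1 : A) ⊗ₜ[ℂ] g) * bez n p q z w := by
  have hp' : (cj p).natDegree ≤ n := by rw [natDegree_cj]; exact hp
  have hq' : (cj q).natDegree ≤ n := by rw [natDegree_cj]; exact hq
  have e1 := dd_mul hp (z ⊗ₜ[ℂ] (1 : A)) ((1 : A) ⊗ₜ[ℂ] z)
  have e2 := dd_mul hp' (w ⊗ₜ[ℂ] (1 : A)) ((1 : A) ⊗ₜ[ℂ] w)
  have e3 := dd_mul hq (z ⊗ₜ[ℂ] (1 : A)) ((1 : A) ⊗ₜ[ℂ] z)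
  have e4 := dd_mul hq' (w ⊗ₜ[ℂ] (1 : A)) ((1 : A) ⊗ₜ[ℂ] w)
  rw [aeval_tmul_one, aeval_one_tmul] at e1 e2 e3 e4
  have f1 : (aeval z p) ⊗ₜ[ℂ] (1 : A) + (aeval w (cj q)) ⊗ₜ[ℂ] (1 : A) = 0 := by
    rw [← TensorProduct.add_tmul, h1, TensorProduct.zero_tmul]
  have f2 : (1 : A) ⊗ₜ[ℂ] (aeval z p) + (1 : A) ⊗ₜ[ℂ] (aeval w (cj q)) = 0 := by
    rw [← TensorProduct.tmul_add, h1, TensorProduct.tmul_zero]
  have f3 : (aeval z q) ⊗ₜ[ℂ] (1 : A) + (aeval w (cj p)) ⊗ₜ[ℂ] (1 : A) = 0 := by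
    rw [← TensorProduct.add_tmul, h2, TensorProduct.zero_tmul]
  have f4 : (1 : A) ⊗ₜ[ℂ] (aeval z q) + (1 : A) ⊗ₜ[ℂ] (aeval w (cj p)) = 0 := by
    rw [← TensorProduct.tmul_add, h2, TensorProduct.tmul_zero]
  have kz : (z ⊗ₜ[ℂ] (1 : A)) * bez n p q z w = ((1 : A) ⊗ₜ[ℂ] z) * bez n p q z w := by
    unfold bez
    linear_combination (dd n (cj p) (w ⊗ₜ[ℂ] (1 : A)) ((1 : A) ⊗ₜ[ℂ] w)) * (e1 + e4 + f1 - f2)
      - (dd n (cj q) (w ⊗ₜ[ℂ] (1 : A)) ((1 : A) ⊗ₜ[ℂ] w)) * (e2 + e3 + f3 - f4)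
  have kw : (w ⊗ₜ[ℂ] (1 : A)) * bez n p q z w = ((1 : A) ⊗ₜ[ℂ] w) * bez n p q z w := by
    unfold bez
    linear_combination (dd n p (z ⊗ₜ[ℂ] (1 : A)) ((1 : A) ⊗ₜ[ℂ] z)) * (e2 + e3 + f3 - f4)
      - (dd n q (z ⊗ₜ[ℂ] (1 : A)) ((1 : A) ⊗ₜ[ℂ] z)) * (e1 + e4 + f1 - f2)
  have hg : g ∈ Algebra.adjoin ℂ {z, w} := by rw [hgen]; trivial
  induction hg using Algebra.adjoin_induction with
  | mem x hx =>
    rcases hx with rfl | hx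
    · exact kz
    · rw [Set.mem_singleton_iff] at hx
      rw [hx]; exact kw
  | algebraMap r =>
    rw [Algebra.algebraMap_eq_smul_one, TensorProduct.smul_tmul]
  | add x y _ _ hx hy =>
    rw [TensorProduct.add_tmul, TensorProduct.tmul_add, add_mul, add_mul, hx, hy]
  | mul x y _ _ hx hy =>
    have a1 : (x * y) ⊗ₜ[ℂ] (1 : A) = (x ⊗ₜ[ℂ] (1 : A)) * (y ⊗ₜ[ℂ] (1 : A)) := by
      rw [Algebra.TensorProduct.tmul_mul_tmul, one_mul]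
    have a2 : (1 : A) ⊗ₜ[ℂ] (x * y) = ((1 : A) ⊗ₜ[ℂ] x) * ((1 : A) ⊗ₜ[ℂ] y) := by
      rw [Algebra.TensorProduct.tmul_mul_tmul, one_mul]
    rw [a1, a2, mul_assoc, hy, mul_left_comm, hx]
    ring

/-- Contraction of the second factor with `ρ`. -/
noncomputable def ctr (ρ : A →ₗ[ℂ] ℂ) : A ⊗[ℂ] A →ₗ[ℂ] A :=
  (TensorProduct.rid ℂ A).toLinearMap ∘ₗ (LinearMap.lTensor A ρ)

theorem ctr_tmul (ρ : A →ₗ[ℂ] ℂ) (a b : A) : ctr ρ (a ⊗ₜ[ℂ] b) = ρ b • a := by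
  simp [ctr]

theorem ctr_left (ρ : A →ₗ[ℂ] ℂ) (g : A) (t : A ⊗[ℂ] A) :
    ctr ρ ((g ⊗ₜ[ℂ] (1 : A)) * t) = g * ctr ρ t := by
  induction t using TensorProduct.induction_on with
  | zero => simp
  | add a b ha hb => rw [mul_add, map_add, ha, hb, map_add, mul_add]
  | tmul a b =>
    rw [Algebra.TensorProduct.tmul_mul_tmul, ctr_tmul, ctr_tmul, one_mul, mul_smul_comm]

/-- The map `e ↦ ctr ((1 ⊗ e) t)`. -/
noncomputable def rk (ρ : A →ₗ[ℂ] ℂ) (t : A ⊗[ℂ] A) : A →ₗ[ℂ] A :=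
  (ctr ρ) ∘ₗ (LinearMap.mulRight ℂ t) ∘ₗ
    (Algebra.TensorProduct.includeRight : A →ₐ[ℂ] A ⊗[ℂ] A).toLinearMap

theorem rk_apply (ρ : A →ₗ[ℂ] ℂ) (t : A ⊗[ℂ] A) (e : A) :
    rk ρ t e = ctr ρ (((1 : A) ⊗ₜ[ℂ] e) * t) := rfl

theorem trace_rk [Module.Finite ℂ A] (ρ : A →ₗ[ℂ] ℂ) (t : A ⊗[ℂ] A) :
    LinearMap.trace ℂ A (rk ρ t) = ρ (Algebra.TensorProduct.lmul' ℂ t) := by
  induction t using TensorProduct.induction_on with
  | zero =>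
    have : rk ρ (0 : A ⊗[ℂ] A) = 0 := by
      ext e; rw [rk_apply]; simp
    rw [this]; simp
  | add a b ha hb =>
    have : rk ρ (a + b) = rk ρ a + rk ρ b := by
      ext e
      rw [LinearMap.add_apply, rk_apply, rk_apply, rk_apply, mul_add, map_add]
    rw [this, map_add, ha, hb, map_add, map_add]
  | tmul a b =>
    have : rk ρ (a ⊗ₜ[ℂ] b) = (ρ ∘ₗ (LinearMap.mulRight ℂ b)).smulRight a := by
      ext e
      rw [rk_apply, Algebra.TensorProduct.tmul_mul_tmul, ctr_tmul, one_mul]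
      rfl
    rw [this, LinearMap.trace_smulRight, Algebra.TensorProduct.lmul'_apply_tmul]
    simp

end model

end Pool.Agent.H.MP_cd3d06_an
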