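import Pool.Agent.H.MP_cd3d06_an.Involution
import Pool.Agent.H.MP_cd3d06_an.Positive

/-!
The upper bound for the number of zeros of a harmonic polynomial.
-/

namespace Pool.Agent.H.MP_cd3d06_an

open Polynomial ComplexConjugate Finset

section lin
variable {a b : ℕ}

/-- `mat` as a linear functional. -/
noncomputable def matL (s : ℕ → ℂ) (j' j : Fin b) : (Fin a × Fin b → ℂ) →ₗ[ℂ] ℂ :=
  ∑ i : Fin a, s (i + j') • LinearMap.proj (i, j)

theorem matL_apply (s : ℕ → ℂ) (j' j : Fin b) (C : Fin a × Fin b → ℂ) :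
    matL s j' j C = mat s C j' j := by
  simp [matL, mat, mul_comm]

/-- Evaluation at a point as a linear functional. -/
noncomputable def evL (s : ℂ × ℂ) : (Fin a × Fin b → ℂ) →ₗ[ℂ] ℂ :=
  ∑ u : Fin a × Fin b, (s.1 ^ (u.1 : ℕ) * s.2 ^ (u.2 : ℕ)) • LinearMap.proj u

theorem evL_apply (s : ℂ × ℂ) (C : Fin a × Fin b → ℂ) : evL s C = fev C s.1 s.2 := by
  simp [evL, fev, mul_comm]

end lin

theorem two_choose (b : ℕ) : 2 * (b + 1).choose 2 = b * (b + 1) := by
  induction b with
  | zero => rfl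
  | succ b ih =>
    rw [Nat.choose_succ_succ' (b + 1) 1, Nat.choose_one_right, mul_add, ih]
    ring

/-- The active indices. -/
def Act (D t b k : ℕ) : Type := {j : Fin b // D * (k + 1) ≤ t + j}

noncomputable instance (D t b k : ℕ) : Fintype (Act D t b k) := by
  unfold Act; infer_instance

theorem card_Act {D T b k : ℕ} (hb : b ≤ T) :
    Fintype.card (Act D (T - b) b k) = min b (T - D * (k + 1)) := by
  classical
  have h0 : Fintype.card (Act D (T - b) b k) =
      Fintype.card {j : Fin b // D * (k + 1) ≤ (T - b) + j} :=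
    Fintype.card_congr (Equiv.refl _)
  rw [h0, Fintype.card_subtype]
  have h1 : ((univ.filter (fun j : Fin b => D * (k + 1) ≤ (T - b) + j)).map Fin.valEmbedding) =
      Ico (D * (k + 1) - (T - b)) b := by
    ext x
    simp only [mem_map, mem_filter, mem_univ, true_and, Fin.valEmbedding_apply, mem_Ico]
    constructor
    · rintro ⟨j, hj, rfl⟩
      exact ⟨by omega, j.2⟩
    · rintro ⟨h2, h3⟩
      exact ⟨⟨x, h3⟩, by simp only; omega, rfl⟩
  rw [← card_map Fin.valEmbedding, h1, Nat.card_Ico]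
  omega

/-- Under the linear conditions the trace of `f f*` has nonpositive real part. -/
theorem trace_nonpos {p q : ℂ[X]} (hp : p.Monic) (hq1 : 1 ≤ q.natDegree)
    (hq : q.natDegree < p.natDegree) {a b t : ℕ} (hat : a = t + 1) (C : Fin a × Fin b → ℂ)
    (c0 : ∀ j j' : Fin b, mat (al p q 0) C j' j + mat (al p q 0) C j j' = 0)
    (c1 : ∀ k < p.natDegree, ∀ j j' : Fin b,
      (p.natDegree - q.natDegree) * (k + 1) ≤ t + j →
      (p.natDegree - q.natDegree) * (k + 1) ≤ t + j' →
      mat (al p q (k + 1)) C j' j + mat (al p q (k + 1)) C j j' = 0 ∧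
      mat (be p q k) C j' j = mat (be p q k) C j j') :
    (∑ k ∈ range p.natDegree,
        ((∑ j, ∑ j', mat (al p q k) C j' j * conj (mat (al p q k) C j j')) -
         (∑ j, ∑ j', mat (be p q k) C j' j * conj (mat (be p q k) C j j')))).re ≤ 0 := by
  rw [Complex.re_sum]
  refine sum_nonpos fun k hk => ?_
  rw [mem_range] at hk
  rw [Complex.sub_re]
  have h1 : (∑ j, ∑ j', mat (al p q k) C j' j * conj (mat (al p q k) C j j')).re ≤ 0 := by
    rcases Nat.eq_zero_or_pos k with h0 | h0
    · subst h0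
      refine form_nonpos (fun j' j => mat (al p q 0) C j' j) (fun _ => True) (fun _ _ h => ?_)
        (fun j' j _ _ => ?_)
      · exact absurd trivial h
      · exact eq_neg_of_add_eq_zero_left (c0 j j')
    · obtain ⟨l, rfl⟩ : ∃ l, k = l + 1 := ⟨k - 1, by omega⟩
      refine form_nonpos (fun j' j => mat (al p q (l + 1)) C j' j)
        (fun j => (p.natDegree - q.natDegree) * (l + 1) ≤ t + j) (fun j' j h => ?_)
        (fun j' j h2 h3 => ?_)
      · refine sum_eq_zero fun i _ => ?_
        rw [al_eq_zero hp hq, mul_zero]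
        have := i.2
        omega
      · exact eq_neg_of_add_eq_zero_left (c1 l (by omega) j j' h2 h3).1
  have h2 : 0 ≤ (∑ j, ∑ j', mat (be p q k) C j' j * conj (mat (be p q k) C j j')).re := by
    refine form_nonneg (fun j' j => mat (be p q k) C j' j)
      (fun j => (p.natDegree - q.natDegree) * (k + 1) ≤ t + j) (fun j' j h => ?_)
      (fun j' j h2 h3 => ?_)
    · refine sum_eq_zero fun i _ => ?_
      rw [be_eq_zero hp hq1 hq, mul_zero]
      have := i.2
      omega
    · exact (c1 k hk j j' h2 h3).2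
  linarith

theorem fst_eval {a b : ℕ} (C : Fin a × Fin b → ℂ) (x y : ℂ) :
    fst C x y = conj (fev C (conj y) (conj x)) := by
  unfold fst fev
  rw [map_sum]
  refine sum_congr rfl fun u _ => ?_
  simp only [smul_eq_mul, map_mul, map_pow, Complex.conj_conj]
  ring

theorem map_fev {A : Type} [CommRing A] [Algebra ℂ A] (χ : A →ₐ[ℂ] ℂ) {a b : ℕ}
    (C : Fin a × Fin b → ℂ) (z w : A) : χ (fev C z w) = fev C (χ z) (χ w) := by
  simp [fev, map_sum, map_smul, map_mul, map_pow]

theorem map_fst {A : Type} [CommRing A] [Algebra ℂ A] (χ : A →ₐ[ℂ] ℂ) {a b : ℕ}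
    (C : Fin a × Fin b → ℂ) (z w : A) : χ (fst C z w) = fst C (χ z) (χ w) := by
  simp [fst, map_sum, map_smul, map_mul, map_pow]

/-- The upper bound for monic `p`. -/
theorem upper_monic {p q : ℂ[X]} (hp : p.Monic) (hq1 : 1 ≤ q.natDegree)
    (hq : q.natDegree < p.natDegree) {T b : ℕ} (hb1 : 1 ≤ b) (hbT : b ≤ T)
    (hT : T ≤ p.natDegree) (hb : 2 * b ≤ p.natDegree) :
    (zeros p q).Finite ∧ (zeros p q).ncard + 2 * ((T - b + 1) * b) ≤
      p.natDegree ^ 2 + b * (b + 1) + 2 * ∑ k ∈ range p.natDegree,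
        (min b (T - (p.natDegree - q.natDegree) * (k + 1))) ^ 2 := by
  classical
  obtain ⟨A, iA, iA', z, w, ρ, h1, h2, hρ, hgen, hchar⟩ := exists_model hp hq
  set n := p.natDegree with hn
  set D := n - q.natDegree with hD
  have hmon : ∀ s < n, ∀ t < n,
      ρ (z ^ s * w ^ t) = if s = n - 1 ∧ t = n - 1 then 1 else 0 := by
    intro s hs t ht
    have e := hρ (X ^ s) (X ^ t)
    rw [rho_coeff hp hq (by simpa using hs) (by simpa using ht)] at e
    simp only [map_pow, aeval_X, coeff_X_pow] at e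
    rw [e, ← hn]
    by_cases h3 : n - 1 = s
    · by_cases h4 : n - 1 = t
      · rw [if_pos h3, if_pos h4, if_pos ⟨h3.symm, h4.symm⟩, mul_one]
      · rw [if_neg h4, mul_zero, if_neg (by rintro ⟨_, h⟩; exact h4 h.symm)]
    · rw [if_neg h3, zero_mul, if_neg (by rintro ⟨h, _⟩; exact h3 h.symm)]
  have hsp : mspan n z w = ⊤ := mspan_top ρ hp rfl hq hmon h1 h2 hgen
  have hfin : Module.Finite ℂ A := by
    refine ⟨?_⟩
    rw [← hsp]
    exact Submodule.fg_span (Set.finite_range _)
  -- the set of common zeros is finite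
  have hptsfin : (pts p q).Finite := by
    by_contra hinf
    obtain ⟨S', hS'1, hS'2⟩ := Set.Infinite.exists_subset_card_eq hinf (n ^ 2 + 1)
    have := card_le_of_span (span_mv hsp (S := S') (fun s hs =>
      hchar s.1 s.2 (hS'1 hs).1 (hS'1 hs).2))
    omega
  set S := hptsfin.toFinset with hSdef
  have hS : ∀ s, s ∈ S ↔ s ∈ pts p q := fun s => by rw [hSdef, Set.Finite.mem_toFinset]
  have hspS := span_mv hsp (S := S) (fun s hs =>
      hchar s.1 s.2 ((hS s).1 hs).1 ((hS s).1 hs).2)
  obtain ⟨hzf, hcard⟩ := card_split hS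
  refine ⟨hzf, ?_⟩
  set a := T - b + 1 with ha
  -- the linear conditions
  let ι : Type := Sym2 (Fin b) ⊕ ((Σ k : Fin n, Act D (T - b) b k × Act D (T - b) b k) ⊕
    {s // s ∈ S.filter lo})
  let L : ι → ((Fin a × Fin b → ℂ) →ₗ[ℂ] ℂ)
    | Sum.inl e => Sym2.lift ⟨fun j j' => matL (al p q 0) j' j + matL (al p q 0) j j',
        fun j j' => add_comm _ _⟩ e
    | Sum.inr (Sum.inl ⟨k, (j, j')⟩) =>
        if j.1 ≤ j'.1 then matL (al p q (k + 1)) j'.1 j.1 + matL (al p q (k + 1)) j.1 j'.1
        else matL (be p q k) j'.1 j.1 - matL (be p q k) j.1 j'.1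
    | Sum.inr (Sum.inr s) => evL s.1 - evL (sg s.1)
  let Φ : (Fin a × Fin b → ℂ) →ₗ[ℂ] (ι → ℂ) := LinearMap.pi L
  have hcardι : Fintype.card ι = (b + 1).choose 2 +
      ((∑ k ∈ range n, (min b (T - D * (k + 1))) ^ 2) + (S.filter lo).card) := by
    simp only [ι, Fintype.card_sum, Sym2.card, Fintype.card_fin, Fintype.card_sigma,
      Fintype.card_prod, Fintype.card_coe, card_Act hbT]
    rw [Finset.sum_range fun k => (min b (T - D * (k + 1))) ^ 2]
    simp only [sq]
  have hker : LinearMap.ker Φ ≤ LinearMap.ker (evab S a b) := by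
    intro C hC
    have hL : ∀ i, L i C = 0 := fun i => congrFun (LinearMap.mem_ker.1 hC) i
    have c0 : ∀ j j' : Fin b, mat (al p q 0) C j' j + mat (al p q 0) C j j' = 0 := by
      intro j j'
      have := hL (Sum.inl s(j, j'))
      simpa only [L, Sym2.lift_mk, LinearMap.add_apply, matL_apply] using this
    have c1' : ∀ k < n, ∀ j j' : Fin b, D * (k + 1) ≤ (T - b) + j → D * (k + 1) ≤ (T - b) + j' →
        j ≤ j' → mat (al p q (k + 1)) C j' j + mat (al p q (k + 1)) C j j' = 0 := by
      intro k hk j j' hj hj' hle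
      have := hL (Sum.inr (Sum.inl ⟨⟨k, hk⟩, (⟨j, hj⟩, ⟨j', hj'⟩)⟩))
      simp only [L] at this
      rw [if_pos hle] at this
      simpa only [LinearMap.add_apply, matL_apply] using this
    have c2' : ∀ k < n, ∀ j j' : Fin b, D * (k + 1) ≤ (T - b) + j → D * (k + 1) ≤ (T - b) + j' →
        ¬ j ≤ j' → mat (be p q k) C j' j - mat (be p q k) C j j' = 0 := by
      intro k hk j j' hj hj' hle
      have := hL (Sum.inr (Sum.inl ⟨⟨k, hk⟩, (⟨j, hj⟩, ⟨j', hj'⟩)⟩))
      simp only [L] at this
      rw [if_neg hle] at this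
      simpa only [LinearMap.sub_apply, matL_apply] using this
    have c1 : ∀ k < n, ∀ j j' : Fin b, D * (k + 1) ≤ (T - b) + j → D * (k + 1) ≤ (T - b) + j' →
        mat (al p q (k + 1)) C j' j + mat (al p q (k + 1)) C j j' = 0 ∧
        mat (be p q k) C j' j = mat (be p q k) C j j' := by
      intro k hk j j' hj hj'
      refine ⟨?_, ?_⟩
      · rcases le_total j j' with h | h
        · exact c1' k hk j j' hj hj' h
        · rw [add_comm]; exact c1' k hk j' j hj' hj h
      · rcases lt_trichotomy j j' with h | h | h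
        · exact (sub_eq_zero.1 (c2' k hk j' j hj' hj (not_le.2 h))).symm
        · rw [h]
        · exact sub_eq_zero.1 (c2' k hk j j' hj hj' (not_le.2 h))
    have c3 : ∀ s ∈ S, lo s → fev C s.1 s.2 = fev C (sg s).1 (sg s).2 := by
      intro s hs hlo
      have := hL (Sum.inr (Sum.inr ⟨s, mem_filter.2 ⟨hs, hlo⟩⟩))
      simp only [L, LinearMap.sub_apply, evL_apply] at this
      exact sub_eq_zero.1 this
    have c4 : ∀ s ∈ S, fev C s.1 s.2 = fev C (sg s).1 (sg s).2 := by
      intro s hs
      rcases tri s with h | h | h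
      · exact c3 s hs h
      · have h3 := c3 (sg s) ((hS _).2 (sg_mem ((hS _).1 hs))) h
        rw [sg_sg] at h3
        exact h3.symm
      · rw [real_sg h]
    have hval : ∀ χ : A →ₐ[ℂ] ℂ, χ (fev C z w * fst C z w) =
        (Complex.normSq (fev C (χ z) (χ w)) : ℂ) := by
      intro χ
      have hmem : ((χ z, χ w) : ℂ × ℂ) ∈ pts p q := by
        have e1 := congrArg χ h1
        have e2 := congrArg χ h2
        rw [map_add, map_zero, ← aeval_algHom_apply, ← aeval_algHom_apply] at e1 e2
        rw [coe_aeval_eq_eval, coe_aeval_eq_eval] at e1 e2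
        exact ⟨e1, e2⟩
      have := c4 _ ((hS _).2 hmem)
      simp only [sg] at this
      rw [map_mul, map_fev, map_fst, fst_eval, ← this, Complex.mul_conj]
    have htr := trace_ff ρ hp hq hρ h1 h2 hgen (a := a) (b := b) (by omega) C
    have hnp := trace_nonpos hp hq1 hq (t := T - b) (a := a) rfl C c0 c1
    rw [← htr] at hnp
    rw [LinearMap.mem_ker]
    funext s
    obtain ⟨χ, hχz, hχw⟩ := hchar s.1.1 s.1.2 ((hS _).1 s.2).1 ((hS _).1 s.2).2
    have h0 := char_eq_zero (g := fev C z w * fst C z w) (fun χ' => by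
      rw [hval χ']
      exact ⟨by rw [Complex.ofReal_re]; exact Complex.normSq_nonneg _, Complex.ofReal_im _⟩)
      hnp χ
    rw [hval χ, hχz, hχw] at h0
    have h5 := Complex.ofReal_eq_zero.1 h0
    exact Complex.normSq_eq_zero.1 h5
  have e1 : Module.finrank ℂ (LinearMap.range Φ) + Module.finrank ℂ (LinearMap.ker Φ) = a * b := by
    rw [LinearMap.finrank_range_add_finrank_ker, Module.finrank_fintype_fun_eq_card,
      Fintype.card_prod, Fintype.card_fin, Fintype.card_fin]
  have e2 : Module.finrank ℂ (LinearMap.range Φ) ≤ Fintype.card ι := by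
    refine (Submodule.finrank_le _).trans ?_
    rw [Module.finrank_fintype_fun_eq_card]
  have e3 : Module.finrank ℂ (LinearMap.ker Φ) ≤ Module.finrank ℂ (LinearMap.ker (evab S a b)) :=
    Submodule.finrank_mono hker
  have e4 := rank_bound (n := n) (a := a) (b := b) (by omega) hb hspS
  have e5 := two_choose b
  omega

end Pool.Agent.H.MP_cd3d06_an
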